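import Pool.Agent.Helper78.KUM.GDefs

/-!
# KUM-17 ActHom: the permutation action on a block with distinct elements (short; adapt `Pool/Agent/Helper78/AST/ActHom.lean`)

`hinj`: the `β ((j, c), i)` are distinct. `gal` with `a = 1` (`ν ζ = ζ = ζ ^ (1 : ZMod ℓ).val` since `ℓ > 1`). The third statement: `Φ x (γ * ν) = mu (γ (ν β_x))`.
-/

set_option autoImplicit false

open Polynomial

namespace Pool.Agent.Helper78.KUM

variable {p ℓ q n : ℕ} {J : Type} {L : IntermediateField ℚ ℂ}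

theorem KData.exists_rho (D : KData p ℓ q n J L) (j : J) (c : (ZMod ℓ)ˣ)
    (hinj : Function.Injective fun i => D.β ((j, c), i)) :
    ∃ ρ : D.NN →* Equiv.Perm (Fin n),
      (∀ (ν : D.NN) i, (ν : L ≃ₐ[ℚ] L) (D.β ((j, c), i)) = D.β ((j, c), ρ ν i)) ∧
      (∀ i (ν ν' : D.NN), D.φ ((j, c), i) (ν * ν') = D.φ ((j, c), ρ ν' i) ν) ∧
      ∀ i (γ : L ≃ₐ[ℚ] L) (ν : D.NN), D.Φ ((j, c), i) (γ * (ν : L ≃ₐ[ℚ] L)) = D.Φ ((j, c), ρ ν i) γ := by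
  have hex : ∀ ν : D.NN, ∃ π : Equiv.Perm (Fin n), ∀ i,
      (ν : L ≃ₐ[ℚ] L) (D.β ((j, c), i)) = D.β ((j, c), π i) := by
    intro ν
    have hp1 : 1 < ℓ := D.hℓ.one_lt
    have : Fact (1 < ℓ) := ⟨hp1⟩
    have h1 : (ν : L ≃ₐ[ℚ] L) D.ζ = D.ζ ^ ((1 : (ZMod ℓ)ˣ) : ZMod ℓ).val := by
      rw [Units.val_one, ZMod.val_one, pow_one]
      exact ν.2
    obtain ⟨π, hπ⟩ := D.gal (ν : L ≃ₐ[ℚ] L) 1 h1 j c
    refine ⟨π, fun i => ?_⟩
    rw [hπ i, one_mul]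
  choose r hr using hex
  have huniq : ∀ (ν : D.NN) (i k : Fin n),
      (ν : L ≃ₐ[ℚ] L) (D.β ((j, c), i)) = D.β ((j, c), k) → r ν i = k := by
    intro ν i k h
    exact hinj ((hr ν i).symm.trans h)
  let ρ : D.NN →* Equiv.Perm (Fin n) :=
    { toFun := r
      map_one' := by
        ext i
        rw [huniq 1 i i (by simp)]
        rfl
      map_mul' := by
        intro ν ν'
        ext i
        rw [huniq (ν * ν') i (r ν (r ν' i)) (by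
          rw [Subgroup.coe_mul, AlgEquiv.mul_apply, hr ν' i, hr ν])]
        rfl }
  refine ⟨ρ, hr, fun i ν ν' => ?_, fun i γ ν => ?_⟩
  · show D.mu (((ν * ν' : D.NN) : L ≃ₐ[ℚ] L) (D.β ((j, c), i))) =
      D.mu ((ν : L ≃ₐ[ℚ] L) (D.β ((j, c), r ν' i)))
    rw [Subgroup.coe_mul, AlgEquiv.mul_apply, hr ν' i]
  · show D.mu ((γ * (ν : L ≃ₐ[ℚ] L)) (D.β ((j, c), i))) = D.mu (γ (D.β ((j, c), r ν i)))
    rw [AlgEquiv.mul_apply, hr ν i]

end Pool.Agent.Helper78.KUM
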