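import Pool.Agent.Helper78.KUM.SlopeB

/-!
# KUM-18 NormSum: the slope of a block and the norm of its trace (adapt `Pool/Agent/Helper78/AST/NormSum.lean`)

As there, with `S_c = - ∑_i β ((j, c), i)` (the `expSum`s are replaced by their expressions in `D.Same`), `ℓ` in place of `p` in `ZMod` and in the exponent `ℓ - 1` (`card (ZMod ℓ)ˣ = ℓ - 1`), and `q` in place of `card F`
(`q = p ^ s ≠ 0`). `exists_norm`: `∏_c S_c` is fixed by `Gal(L/ℚ)` (`KData.exists_pow`, `gal`, `Equiv.mulLeft a`) and integral (`int`).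
-/

set_option autoImplicit false

open Polynomial

namespace Pool.Agent.Helper78.KUM

variable {p ℓ q n : ℕ} [NeZero ℓ] {J : Type} {L : IntermediateField ℚ ℂ} [FiniteDimensional ℚ L] [IsGalois ℚ L]

section Aux

variable {L : IntermediateField ℚ ℂ} {ζ : L}

private theorem v_one' (G : Frame p L ζ) : G.v 1 = 0 := by
  have h := G.v_mul 1 1 one_ne_zero one_ne_zero
  rw [mul_one] at h
  omega

private theorem v_neg' (G : Frame p L ζ) (x : L) : G.v (-x) = G.v x := by
  have h0 : G.v (-1 : L) = 0 := by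
    have h := G.v_mul (-1) (-1) (neg_ne_zero.mpr one_ne_zero) (neg_ne_zero.mpr one_ne_zero)
    rw [neg_mul_neg, mul_one, v_one'] at h
    omega
  by_cases hx : x = 0
  · rw [hx, neg_zero]
  · have h := G.v_mul (-1) x (neg_ne_zero.mpr one_ne_zero) hx
    rw [h0, neg_one_mul, zero_add] at h
    exact h

private theorem v_pow' (G : Frame p L ζ) (x : L) (hx : x ≠ 0) (k : ℕ) : G.v (x ^ k) = k * G.v x := by
  induction k with
  | zero => simp [v_one']
  | succ k ih =>
    rw [pow_succ, G.v_mul _ _ (pow_ne_zero _ hx) hx, ih]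
    push_cast
    ring

private theorem v_prod' (G : Frame p L ζ) {ι : Type} (s : Finset ι) (g : ι → L) (h : ∀ i, g i ≠ 0) :
    G.v (∏ i ∈ s, g i) = ∑ i ∈ s, G.v (g i) := by
  classical
  induction s using Finset.induction_on with
  | empty => simp [v_one']
  | insert a s ha ih =>
    rw [Finset.prod_insert ha, Finset.sum_insert ha, G.v_mul _ _ (h a) (Finset.prod_ne_zero_iff.mpr fun i _ => h i), ih]

private theorem v_int_nonneg' (G : Frame p L ζ) (N : ℤ) (hN : N ≠ 0) : 0 ≤ G.v (N : L) :=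
  G.v_int _ (Int.cast_ne_zero.mpr hN) (by
    have h : IsIntegral ℤ (algebraMap ℤ L N) := isIntegral_algebraMap
    simpa using h)

private theorem v_add_eq' (G : Frame p L ζ) (x y : L) (hx : x ≠ 0) (hy : y ≠ 0) (h : G.v x < G.v y) :
    x + y ≠ 0 ∧ G.v (x + y) = G.v x := by
  have h0 : x + y ≠ 0 := by
    intro h1
    have h2 : y = -x := by rw [eq_neg_iff_add_eq_zero, add_comm]; exact h1
    rw [h2, v_neg'] at h
    exact lt_irrefl _ h
  refine ⟨h0, le_antisymm ?_ ?_⟩
  · have h1 := G.v_add (x + y) (-y) h0 (neg_ne_zero.mpr hy) (by simpa using hx)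
    rw [v_neg', add_neg_cancel_right] at h1
    rcases min_le_iff.mp h1 with h2 | h2
    · exact h2
    · omega
  · have h1 := G.v_add x y hx hy h0
    rw [min_eq_left h.le] at h1
    exact h1

private theorem v_sum_eq' (G : Frame p L ζ) {ι : Type} [Fintype ι] (g : ι → L) (hg : ∀ i, g i ≠ 0) (w : ℤ)
    (i₀ : ι) (h0 : G.v (g i₀) = w) (h1 : ∀ i, i ≠ i₀ → w < G.v (g i)) :
    ∑ i, g i ≠ 0 ∧ G.v (∑ i, g i) = w := by
  classical
  rw [← Finset.add_sum_erase _ _ (Finset.mem_univ i₀)]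
  have key : (∑ i ∈ Finset.univ.erase i₀, g i) = 0 ∨ w < G.v (∑ i ∈ Finset.univ.erase i₀, g i) := by
    refine Finset.sum_induction g (fun x => x = 0 ∨ w < G.v x) ?_ (Or.inl rfl) ?_
    · intro a b ha hb
      by_cases hab : a + b = 0
      · exact Or.inl hab
      · right
        rcases ha with ha | ha
        · rw [ha, zero_add] at hab ⊢
          exact hb.resolve_left hab
        · rcases hb with hb | hb
          · rw [hb, add_zero]
            exact ha
          · by_cases ha0 : a = 0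
            · rw [ha0, zero_add]; exact hb
            · by_cases hb0 : b = 0
              · rw [hb0, add_zero]; exact ha
              · exact lt_of_lt_of_le (lt_min ha hb) (G.v_add a b ha0 hb0 hab)
    · intro i hi
      exact Or.inr (h1 i (Finset.ne_of_mem_erase hi))
  by_cases hs : (∑ i ∈ Finset.univ.erase i₀, g i) = 0
  · rw [hs, add_zero]
    exact ⟨hg i₀, h0⟩
  · have h2 := v_add_eq' G (g i₀) _ (hg i₀) hs (by rw [h0]; exact key.resolve_left hs)
    exact ⟨h2.1, h2.2.trans h0⟩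

private theorem v_coprime' (hp : p.Prime) (G : Frame p L ζ) (m : ℕ) (hm : ¬ p ∣ m) : G.v (m : L) = 0 := by
  have hm0 : m ≠ 0 := fun h => hm (h ▸ dvd_zero p)
  have hv0 : 0 ≤ G.v (m : L) := by
    have := v_int_nonneg' G (m : ℤ) (by exact_mod_cast hm0)
    simpa using this
  by_contra hne
  have hpos : 0 < G.v (m : L) := lt_of_le_of_ne hv0 (Ne.symm hne)
  have hco : IsCoprime (m : ℤ) (p : ℤ) := by
    rw [Nat.isCoprime_iff_coprime]
    exact (Nat.coprime_comm.mp ((Nat.Prime.coprime_iff_not_dvd hp).mpr hm))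
  obtain ⟨a, b, hab⟩ := hco
  have hmL : (m : L) ≠ 0 := Nat.cast_ne_zero.mpr hm0
  have hpL : (p : L) ≠ 0 := Nat.cast_ne_zero.mpr hp.ne_zero
  have habL : (a : L) * (m : L) + (b : L) * (p : L) = 1 := by
    have := congrArg (fun z : ℤ => (z : L)) hab
    push_cast at this
    exact this
  by_cases ha : a = 0
  · have hb : b ≠ 0 := by
      rintro rfl
      rw [ha] at hab
      simp at hab
    have h1 : (b : L) * (p : L) = 1 := by
      rw [ha] at habL
      simpa using habL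
    have h2 := G.v_mul (b : L) (p : L) (Int.cast_ne_zero.mpr hb) hpL
    rw [h1, v_one'] at h2
    have h3 := v_int_nonneg' G b hb
    have h4 := G.v_p
    omega
  · by_cases hb : b = 0
    · have h1 : (a : L) * (m : L) = 1 := by
        rw [hb] at habL
        simpa using habL
      have h2 := G.v_mul (a : L) (m : L) (Int.cast_ne_zero.mpr ha) hmL
      rw [h1, v_one'] at h2
      have h3 := v_int_nonneg' G a ha
      omega
    · have h1 := G.v_add ((a : L) * (m : L)) ((b : L) * (p : L))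
        (mul_ne_zero (Int.cast_ne_zero.mpr ha) hmL) (mul_ne_zero (Int.cast_ne_zero.mpr hb) hpL)
        (by rw [habL]; exact one_ne_zero)
      rw [habL, v_one', G.v_mul _ _ (Int.cast_ne_zero.mpr ha) hmL, G.v_mul _ _ (Int.cast_ne_zero.mpr hb) hpL] at h1
      have h3 := v_int_nonneg' G a ha
      have h4 := v_int_nonneg' G b hb
      have h5 := G.v_p
      rcases min_le_iff.mp h1 with h6 | h6 <;> omega

private theorem v_natCast' (hp : p.Prime) (G : Frame p L ζ) (m : ℕ) (hm : m ≠ 0) :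
    G.v (m : L) = padicValNat p m * G.v (p : L) := by
  have := Fact.mk hp
  obtain ⟨e, m', hm', rfl⟩ := Nat.exists_eq_pow_mul_and_not_dvd hm p hp.ne_one
  have hm0 : m' ≠ 0 := fun h => hm' (h ▸ dvd_zero p)
  have hpL : (p : L) ≠ 0 := Nat.cast_ne_zero.mpr hp.ne_zero
  have h1 : padicValNat p (p ^ e * m') = e := by
    rw [padicValNat.mul (pow_ne_zero _ hp.ne_zero) hm0, padicValNat.prime_pow,
      padicValNat.eq_zero_of_not_dvd hm', add_zero]
  rw [h1]
  push_cast
  rw [G.v_mul _ _ (pow_ne_zero _ hpL) (Nat.cast_ne_zero.mpr hm0), v_pow' G _ hpL, v_coprime' hp G m' hm', add_zero]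

end Aux

private noncomputable def SS (D : KData p ℓ q n J L) (j : J) (c : (ZMod ℓ)ˣ) : L := -∑ i, D.β ((j, c), i)

omit [NeZero ℓ] [FiniteDimensional ℚ L] [IsGalois ℚ L] in
private theorem SS_coe (D : KData p ℓ q n J L) (j : J) (c : (ZMod ℓ)ˣ) :
    ((SS D j c : L) : ℂ) = -∑ i, (D.β ((j, c), i) : ℂ) := by
  simp [SS]

private theorem SS_gal (D : KData p ℓ q n J L) [Fintype (ZMod ℓ)ˣ] (γ : L ≃ₐ[ℚ] L) (j : J) :
    γ (∏ c : (ZMod ℓ)ˣ, SS D j c) = ∏ c : (ZMod ℓ)ˣ, SS D j c := by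
  obtain ⟨a, ha⟩ := D.exists_pow γ
  have h1 : ∀ c : (ZMod ℓ)ˣ, γ (SS D j c) = SS D j (a * c) := by
    intro c
    obtain ⟨π, hπ⟩ := D.gal γ a ha j c
    unfold SS
    rw [map_neg, map_sum]
    congr 1
    rw [← Equiv.sum_comp π (fun i => D.β ((j, a * c), i))]
    exact Finset.sum_congr rfl fun i _ => hπ i
  rw [map_prod, ← Equiv.prod_comp (Equiv.mulLeft a) (fun c => SS D j c)]
  exact Finset.prod_congr rfl fun c _ => h1 c

omit [NeZero ℓ] [FiniteDimensional ℚ L] [IsGalois ℚ L] in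
private theorem SS_integral (D : KData p ℓ q n J L) (j : J) (c : (ZMod ℓ)ˣ) : IsIntegral ℤ (SS D j c) := by
  unfold SS
  exact (IsIntegral.sum _ fun i _ => D.int ((j, c), i)).neg

private theorem exists_norm' (D : KData p ℓ q n J L) [Fintype (ZMod ℓ)ˣ] (j : J) :
    ∃ N : ℤ, (N : L) = ∏ c : (ZMod ℓ)ˣ, SS D j c := by
  have h1 : (∏ c : (ZMod ℓ)ˣ, SS D j c) ∈ (⊥ : IntermediateField ℚ L) := by
    rw [IsGalois.mem_bot_iff_fixed]
    intro γ
    exact SS_gal D γ j
  rw [IntermediateField.mem_bot] at h1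
  obtain ⟨r, hr⟩ := h1
  have h2 : IsIntegral ℤ (algebraMap ℚ L r) := by
    rw [hr]
    exact IsIntegral.prod _ fun c _ => SS_integral D j c
  have h3 : IsIntegral ℤ r := (isIntegral_algebraMap_iff (algebraMap ℚ L).injective).mp h2
  obtain ⟨N, hN⟩ := IsIntegrallyClosed.isIntegral_iff.mp h3
  refine ⟨N, ?_⟩
  rw [← hr, ← hN]
  simp

theorem KData.exists_norm (D : KData p ℓ q n J L) [Fintype (ZMod ℓ)ˣ] (j : J) :
    ∃ N : ℤ, (N : ℂ) = ∏ c : (ZMod ℓ)ˣ, -∑ i, (D.β ((j, c), i) : ℂ) := by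
  obtain ⟨N, hN⟩ := exists_norm' D j
  refine ⟨N, ?_⟩
  have h := congrArg (fun x : L => (x : ℂ)) hN
  push_cast at h
  rw [h]
  exact Finset.prod_congr rfl fun c _ => SS_coe D j c

theorem KData.v_intCast (D : KData p ℓ q n J L) (N : ℤ) (hN : N ≠ 0) :
    D.fr.v (N : L) = padicValInt p N * D.fr.v (p : L) := by
  have hn : N.natAbs ≠ 0 := Int.natAbs_ne_zero.mpr hN
  have h1 := v_natCast' D.hp D.fr N.natAbs hn
  unfold padicValInt
  rw [← h1]
  rcases Int.natAbs_eq N with h | h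
  · conv_lhs => rw [h]
    simp
  · conv_lhs => rw [h]
    rw [← v_neg' D.fr]
    simp

theorem KData.y_eq (D : KData p ℓ q n J L) [Fintype (ZMod ℓ)ˣ] (hs : D.Same) (y : J → ℤ)
    (hy : ∀ j, 0 < y j → ∀ c : (ZMod ℓ)ˣ, ∃ i₀, D.mu (D.β ((j, c), i₀)) = -y j ∧
      ∀ i, i ≠ i₀ → -y j < D.mu (D.β ((j, c), i)))
    (j j' : J) (hj : 0 < y j) (hj' : 0 < y j') : y j = y j' := by
  have hp : p.Prime := D.hp
  have hqn : q ≠ 0 := by
    rw [D.hq]
    exact pow_ne_zero _ hp.ne_zero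
  have hq0 : (q : L) ≠ 0 := Nat.cast_ne_zero.mpr hqn
  have hcard : Fintype.card (ZMod ℓ)ˣ = ℓ - 1 := by
    have := Fact.mk D.hℓ
    convert ZMod.card_units ℓ
  have main : ∀ j, 0 < y j → ∃ N : ℤ, N ≠ 0 ∧ (N : ℂ) = ∏ c : (ZMod ℓ)ˣ, -∑ i, (D.β ((j, c), i) : ℂ) ∧
      2 * D.fr.v (N : L) = ((ℓ - 1 : ℕ) : ℤ) * (D.fr.v (q : L) - y j) ∧
      ¬ ((q : ℤ) ^ (ℓ - 1) ∣ N ^ 2) := by
    intro j hj
    have h1 : ∀ c : (ZMod ℓ)ˣ, SS D j c ≠ 0 ∧
        2 * D.fr.v (SS D j c) = D.fr.v (q : L) - y j := by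
      intro c
      obtain ⟨i₀, hi₀, hi⟩ := hy j hj c
      have h2 := v_sum_eq' D.fr (fun i => D.β ((j, c), i)) (fun i => D.beta_ne_zero _)
        (D.fr.v (D.β ((j, c), i₀))) i₀ rfl (by
          intro i hne
          have h3 := hi i hne
          unfold KData.mu at h3 hi₀
          omega)
      refine ⟨?_, ?_⟩
      · unfold SS
        exact neg_ne_zero.mpr h2.1
      · unfold SS
        rw [v_neg', h2.2]
        unfold KData.mu at hi₀
        omega
    obtain ⟨N, hN⟩ := exists_norm' D j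
    have hNL : (N : L) ≠ 0 := by
      rw [hN]
      exact Finset.prod_ne_zero_iff.mpr fun c _ => (h1 c).1
    have hN0 : N ≠ 0 := by
      rintro rfl
      exact hNL (by simp)
    have hv : 2 * D.fr.v (N : L) = ((ℓ - 1 : ℕ) : ℤ) * (D.fr.v (q : L) - y j) := by
      rw [hN, v_prod' D.fr _ _ fun c => (h1 c).1, Finset.mul_sum, Finset.sum_congr rfl fun c _ => (h1 c).2,
        Finset.sum_const, Finset.card_univ, hcard, nsmul_eq_mul]
    refine ⟨N, hN0, ?_, hv, ?_⟩
    · have h := congrArg (fun x : L => (x : ℂ)) hN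
      push_cast at h
      rw [h]
      exact Finset.prod_congr rfl fun c _ => SS_coe D j c
    · rintro ⟨M, hM⟩
      have hM0 : M ≠ 0 := by
        rintro rfl
        rw [mul_zero] at hM
        exact pow_ne_zero 2 hN0 hM
      have hML : (N : L) ^ 2 = (q : L) ^ (ℓ - 1) * (M : L) := by
        have := congrArg (fun z : ℤ => (z : L)) hM
        push_cast at this
        exact this
      have h4 := congrArg D.fr.v hML
      rw [v_pow' D.fr _ hNL, D.fr.v_mul _ _ (pow_ne_zero _ hq0) (Int.cast_ne_zero.mpr hM0), v_pow' D.fr _ hq0] at h4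
      have h5 := v_int_nonneg' D.fr M hM0
      have h6 : 0 < ((ℓ - 1 : ℕ) : ℤ) := by
        have := D.hℓ.two_le
        omega
      have h7 : ((ℓ - 1 : ℕ) : ℤ) * y j ≤ 0 := by
        push_cast at h4
        nlinarith
      nlinarith
  obtain ⟨N, hN0, hN, hv, hd⟩ := main j hj
  obtain ⟨N', hN0', hN', hv', hd'⟩ := main j' hj'
  have h1 := hs j j' N N' hN hN' hd hd'
  have h2 := D.v_intCast N hN0
  have h3 := D.v_intCast N' hN0'
  rw [h1, ← h3] at h2
  rw [h2, hv'] at hv
  have h6 : ((ℓ - 1 : ℕ) : ℤ) ≠ 0 := by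
    have := D.hℓ.two_le
    omega
  have h7 := mul_left_cancel₀ h6 hv
  omega

end Pool.Agent.Helper78.KUM
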