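import Pool.Agent.Helper78.AST.CDefs
import Pool.Agent.Helper78.AST.OrthT

/-!
# KUM-21 OrthS: orthogonality (short; compare `orth_of_trans`, `one_of_zero` in `Pool/Agent/Helper78/AST/OrthT.lean`)

* `orth_of_shift`: `T i = ∑_γ φ i γ φ' i' γ = ∑_γ φ i (γ g) φ' i' (γ g) = ∑_γ φ k γ φ' i' γ = T k` (`Equiv.mulRight g`), so `T` does not depend on `i` and
  `card I * T i = ∑_k T k = ∑_γ (∑_k φ k γ) φ' i' γ = 0`.
* `one_of_const`: if `φ = 0`: every `Pi.single i 1` is in `oneGen` (`AST.one_of_zero`, import it); if `t` is constant, `t = t i • 1`.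
-/

set_option autoImplicit false

namespace Pool.Agent.Helper78.KUM

open Pool.Agent.Helper78.AST (oneGen Equi Orth)

theorem orth_of_shift {G I : Type} [Group G] [Fintype G] [Fintype I] (φ φ' : I → G → ℤ)
    (hsum : ∀ γ, ∑ i, φ i γ = 0)
    (h : ∀ i k, ∃ g : G, (∀ γ, φ i (γ * g) = φ k γ) ∧ ∀ i' γ, φ' i' (γ * g) = φ' i' γ) : Orth φ φ' := by
  intro i i'
  have h1 : ∀ k, ∑ γ, φ k γ * φ' i' γ = ∑ γ, φ i γ * φ' i' γ := by
    intro k
    obtain ⟨g, hg, hg'⟩ := h i k
    rw [← Equiv.sum_comp (Equiv.mulRight g) (fun γ => φ i γ * φ' i' γ)]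
    refine Finset.sum_congr rfl fun γ _ => ?_
    rw [Equiv.coe_mulRight, hg, hg']
  have h2 : ∑ k, ∑ γ, φ k γ * φ' i' γ = 0 := by
    rw [Finset.sum_comm]
    refine Finset.sum_eq_zero fun γ _ => ?_
    rw [← Finset.sum_mul, hsum, zero_mul]
  simp only [h1, Finset.sum_const, Finset.card_univ, nsmul_eq_mul] at h2
  rcases mul_eq_zero.1 h2 with h3 | h3
  · have h4 : 0 < Fintype.card I := Fintype.card_pos_iff.2 ⟨i⟩
    have h5 : Fintype.card I = 0 := by exact_mod_cast h3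
    omega
  · exact h3

theorem one_of_const {G I : Type} [Fintype I] (φ : I → G → ℤ) (t : I → ℤ)
    (h : (∀ i γ, φ i γ = 0) ∨ ∀ i k, t i = t k) : t ∈ AddSubgroup.closure (oneGen φ) := by
  rcases h with h | h
  · exact Pool.Agent.Helper78.AST.one_of_zero φ h t
  · rcases isEmpty_or_nonempty I with hI | ⟨⟨i₀⟩⟩
    · have h0 : t = 0 := funext fun i => (hI.false i).elim
      rw [h0]
      exact AddSubgroup.zero_mem _
    · have h2 : t = t i₀ • (fun _ : I => (1 : ℤ)) := by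
        funext i
        rw [Pi.smul_apply, smul_eq_mul, mul_one, h i i₀]
      have h3 : (fun _ : I => (1 : ℤ)) ∈ oneGen φ := Or.inr rfl
      rw [h2]
      exact AddSubgroup.zsmul_mem _ (AddSubgroup.subset_closure h3) _

end Pool.Agent.Helper78.KUM
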