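import Pool.Agent.Helper78.AST.CDefs

/-!
# KUM-20 PrimAct: primitive actions (Mathlib and `AST.CDefs`)

`N` a group, `ρ : N →* Perm (Fin n)`, `TT ρ`: doubly transitive, or transitive with `n` prime.

* `trans_of_normal`: `H` a normal subgroup of `N` with an element which moves a point. Then `H` is transitive. The action of `N` on `Fin n` through `ρ` (`MulAction.compHom`, or work with the subgroup `ρ.range` of
  `Perm (Fin n)` and the normal subgroup `H.map ρ.rangeRestrict`) is preprimitive: `MulAction.isPreprimitive_of_is_two_pretransitive` (`MulAction.is_two_pretransitive_iff`), or `MulAction.IsPreprimitive.of_prime_card`;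
  a preprimitive action is quasi-preprimitive: `MulAction.IsQuasiPreprimitive.isPretransitive_of_normal`. Direct proof for the doubly transitive case: `h ∈ H` with `ρ h i₀ ≠ i₀`; for `i ≠ k` choose `g` with `ρ g i₀ = i`,
  `ρ g (ρ h i₀) = k`; then `g h g⁻¹ ∈ H` maps `i` to `k`.
* `const_of_rel`: `φ i (ν ν') = φ (ρ ν' i) ν`, `∑_i φ i ν = 0`, and a relation `∑ t i φ i ν = 0` for all `ν`: then `φ = 0` or `t` is constant.
  Doubly transitive: the proof of `card_mul_eq` and `one_of_twoTrans` in `Pool/Agent/Helper78/AST/OrthT.lean` (which shows: if `φ ≠ 0` all `t i` are equal; copy it).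
  `n` prime, `N` transitive: `φ i₁ ν₁ ≠ 0` for some `i₁`, `ν₁`; put `f i = φ i ν₁`, so `∑_i t i f (ρ ν i) = 0` for all `ν` (`φ i (ν₁ ν) = f (ρ ν i)`), `∑ f = 0`, `f ≠ 0`. The group `ρ.range` (finite) is transitive on `n` points, so `n ∣` its
  order (orbit-stabilizer), so it has an element `σ = ρ g` of order `n` (Cauchy: `exists_prime_orderOf_dvd_card`), which is an `n`-cycle (`Equiv.Perm.isCycle_of_prime_order'`-like, or: its orbits have size `1` or `n`, and it is not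
  the identity). So `k ↦ σ ^ k i₁`, `k < n`, is a bijection `e : ZMod n ≃ Fin n` (or `Fin n`) with `σ (e k) = e (k + 1)`. Let `ω = exp (2 π i / n)`, `T = ∑_k t (e k) ω ^ (-k)`, `G = ∑_k f (e k) ω ^ k`. From
  `∑_k t (e k) f (e (k + m)) = 0` for all `m`: `0 = ∑_m ω ^ m ∑_k t (e k) f (e (k + m)) = T G`. If `G = 0`: the polynomial `∑_k f (e k) X ^ k` over `ℚ`, of degree `< n`, vanishes at the primitive `n`-th root of unity `ω`, so it is divisible by
  the cyclotomic polynomial `1 + X + .. + X ^ (n - 1)` (`Polynomial.cyclotomic_prime`, `minpoly.dvd`, `Polynomial.cyclotomic_eq_minpoly_rat`), so it is a multiple of it: `f` is constant, `∑ f = 0` gives `f = 0`, a contradiction. So `T = 0`, and in the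
  same way `t` is constant.
-/

set_option autoImplicit false

namespace Pool.Agent.Helper78.KUM

/-- Doubly transitive, or transitive of prime degree. -/
def TT {N : Type} [Group N] {n : ℕ} (ρ : N →* Equiv.Perm (Fin n)) : Prop :=
  (∀ i i' k k', i ≠ i' → k ≠ k' → ∃ g : N, ρ g i = k ∧ ρ g i' = k') ∨
    (n.Prime ∧ ∀ i k, ∃ g : N, ρ g i = k)

theorem trans_of_normal {N : Type} [Group N] {n : ℕ} (ρ : N →* Equiv.Perm (Fin n)) (h : TT ρ)
    (H : Subgroup N) [H.Normal] (h₀ : N) (hh : h₀ ∈ H) (i₀ : Fin n) (hi : ρ h₀ i₀ ≠ i₀) (i k : Fin n) :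
    ∃ g ∈ H, ρ g i = k := by
  rcases h with h | ⟨hn, h⟩
  · by_cases hik : i = k
    · refine ⟨1, H.one_mem, ?_⟩
      rw [map_one, Equiv.Perm.one_apply, hik]
    · obtain ⟨g, hg1, hg2⟩ := h i₀ (ρ h₀ i₀) i k (Ne.symm hi) hik
      refine ⟨g * h₀ * g⁻¹, Subgroup.Normal.conj_mem inferInstance h₀ hh g, ?_⟩
      have e1 : ρ g⁻¹ i = i₀ := by
        rw [← hg1, ← Equiv.Perm.mul_apply, ← map_mul, inv_mul_cancel, map_one, Equiv.Perm.one_apply]
      rw [map_mul, map_mul, Equiv.Perm.mul_apply, Equiv.Perm.mul_apply, e1, hg2]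
  · let _ : MulAction N (Fin n) := MulAction.compHom (Fin n) ρ
    have hsm : ∀ (g : N) (x : Fin n), g • x = ρ g x := fun _ _ => rfl
    have hT : MulAction.IsPretransitive N (Fin n) := ⟨fun x y => by
      obtain ⟨g, hg⟩ := h x y
      exact ⟨g, hg⟩⟩
    have hP : MulAction.IsPreprimitive N (Fin n) := by
      refine MulAction.IsPreprimitive.of_prime_card ?_
      rw [Nat.card_eq_fintype_card, Fintype.card_fin]
      exact hn
    have hQ : MulAction.IsPretransitive H (Fin n) := by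
      refine MulAction.IsQuasiPreprimitive.isPretransitive_of_normal (G := N) (X := Fin n) ?_
      intro h1
      have h2 : i₀ ∈ MulAction.fixedPoints H (Fin n) := by
        rw [h1]
        exact Set.mem_univ _
      exact hi (h2 ⟨h₀, hh⟩)
    obtain ⟨⟨g, hgH⟩, hg⟩ := hQ.exists_smul_eq i k
    exact ⟨g, hgH, hg⟩

private theorem card_mul_eq {N I : Type} [Group N] [Fintype N] [Fintype I] (φ : I → N → ℤ)
    (ρ : N →* Equiv.Perm I) (hρ : ∀ i ν ν', φ i (ν * ν') = φ (ρ ν' i) ν) (hsum : ∀ ν, ∑ i, φ i ν = 0)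
    (h : ∀ i i' k k', i ≠ i' → k ≠ k' → ∃ g : N, ρ g i = k ∧ ρ g i' = k') (t : I → ℤ)
    (ht : ∀ ν, ∑ i, t i * φ i ν = 0) {i k₀ : I} (hk₀ : k₀ ≠ i) {ν : N} (hν : φ i ν ≠ 0) :
    (Fintype.card I : ℤ) * t i = ∑ k, t k := by
  classical
  obtain ⟨S, hS⟩ : ∃ S : Finset N, S = Finset.univ.filter fun g => ρ g i = i := ⟨_, rfl⟩
  have hmS : ∀ g, g ∈ S ↔ ρ g i = i := by
    intro g
    rw [hS, Finset.mem_filter]
    simp
  obtain ⟨A, hA⟩ : ∃ A : I → ℤ, A = fun k => ∑ g ∈ S, φ (ρ g k) ν := ⟨_, rfl⟩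
  have hAi : A i = (S.card : ℤ) * φ i ν := by
    rw [hA]
    beta_reduce
    rw [Finset.sum_congr rfl fun g hg => by rw [(hmS g).1 hg], Finset.sum_const, nsmul_eq_mul]
  have hconst : ∀ k, k ≠ i → A k = A k₀ := by
    intro k hk
    obtain ⟨u, hu1, hu2⟩ := h i k₀ i k (Ne.symm hk₀) (Ne.symm hk)
    rw [hA]
    beta_reduce
    -- replace g by g * u
    refine Finset.sum_bij (fun g _ => g * u) ?_ ?_ ?_ ?_
    · intro g hg
      rw [hmS, map_mul, Equiv.Perm.mul_apply, hu1, (hmS g).1 hg]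
    · intro g _ g' _ e
      exact mul_right_cancel e
    · intro g hg
      refine ⟨g * u⁻¹, ?_, by rw [inv_mul_cancel_right]⟩
      have e1 : (ρ u⁻¹) i = i := by
        have e2 : ρ u⁻¹ (ρ u i) = i := by
          rw [← Equiv.Perm.mul_apply, ← map_mul, inv_mul_cancel, map_one, Equiv.Perm.one_apply]
        rwa [hu1] at e2
      rw [hmS, map_mul, Equiv.Perm.mul_apply, e1, (hmS g).1 hg]
    · intro g _
      rw [map_mul, Equiv.Perm.mul_apply, hu2]
  have hsumA : ∑ k, A k = 0 := by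
    rw [hA]
    rw [Finset.sum_comm]
    refine Finset.sum_eq_zero fun g _ => ?_
    rw [Equiv.sum_comp (ρ g) (fun k => φ k ν)]
    exact hsum ν
  have htA : ∑ k, t k * A k = 0 := by
    rw [hA]
    simp only [Finset.mul_sum]
    rw [Finset.sum_comm]
    refine Finset.sum_eq_zero fun g _ => ?_
    have e1 := ht (ν * g)
    simp only [hρ] at e1
    exact e1
  have e1 : ∑ k, A k = A i + ((Fintype.card I : ℤ) - 1) * A k₀ := by
    rw [← Finset.add_sum_erase _ _ (Finset.mem_univ i)]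
    congr 1
    rw [Finset.sum_congr rfl fun k hk => hconst k (Finset.ne_of_mem_erase hk), Finset.sum_const,
      Finset.card_erase_of_mem (Finset.mem_univ i), Finset.card_univ, nsmul_eq_mul]
    have : 1 ≤ Fintype.card I := Fintype.card_pos_iff.2 ⟨i⟩
    push_cast [Nat.cast_sub this]
    ring
  have e2 : ∑ k, t k * A k = t i * A i + (∑ k, t k - t i) * A k₀ := by
    rw [← Finset.add_sum_erase _ _ (Finset.mem_univ i)]
    congr 1
    rw [Finset.sum_congr rfl fun k hk => by rw [hconst k (Finset.ne_of_mem_erase hk)],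
      ← Finset.sum_mul, ← Finset.add_sum_erase _ t (Finset.mem_univ i), add_sub_cancel_left]
  have hS1 : (S.card : ℤ) ≠ 0 := by
    have h1 : (1 : N) ∈ S := by
      rw [hmS, map_one, Equiv.Perm.one_apply]
    have h2 := Finset.card_pos.2 ⟨_, h1⟩
    exact_mod_cast h2.ne'
  have hAne : A i ≠ 0 := by
    rw [hAi]
    exact mul_ne_zero hS1 hν
  rw [e1] at hsumA
  rw [e2] at htA
  have hk0 : A k₀ ≠ 0 := by
    intro h0
    rw [h0, mul_zero, add_zero] at hsumA
    exact hAne hsumA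
  have e3 : A k₀ * ((Fintype.card I : ℤ) * t i - ∑ k, t k) = 0 := by
    have e4 : A i = -(((Fintype.card I : ℤ) - 1) * A k₀) := by linarith
    rw [e4] at htA
    linear_combination -htA
  have e5 := (mul_eq_zero.1 e3).resolve_left hk0
  linarith

private theorem const_of_root {n : ℕ} (hn : n.Prime) (ω : ℂ) (hω : IsPrimitiveRoot ω n)
    (c : Fin n → ℤ) (h : ∑ k, (c k : ℂ) * ω ^ (k : ℕ) = 0) (k l : Fin n) : c k = c l := by
  have hn1 : 1 < n := hn.one_lt
  have hn0 : 0 < n := hn.pos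
  obtain ⟨a, ha⟩ : ∃ a : Fin n, (a : ℕ) = n - 1 := ⟨⟨n - 1, by omega⟩, rfl⟩
  obtain ⟨P, hP⟩ : ∃ P : Polynomial ℚ, P = ∑ k : Fin n,
      Polynomial.monomial (k : ℕ) ((c k : ℚ) - (c a : ℚ)) := ⟨_, rfl⟩
  have hcoef : ∀ j : Fin n, P.coeff (j : ℕ) = (c j : ℚ) - (c a : ℚ) := by
    intro j
    rw [hP, Polynomial.finsetSum_coeff, Finset.sum_eq_single j]
    · rw [Polynomial.coeff_monomial, if_pos rfl]
    · intro b _ hb
      rw [Polynomial.coeff_monomial, if_neg]
      intro e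
      exact hb (Fin.ext e)
    · intro h1
      exact absurd (Finset.mem_univ j) h1
  have hdeg : P.natDegree < n - 1 ∨ P = 0 := by
    by_contra hcon
    push Not at hcon
    obtain ⟨h1, h2⟩ := hcon
    have h3 : P.coeff P.natDegree ≠ 0 := by
      rw [Polynomial.coeff_natDegree]
      exact Polynomial.leadingCoeff_ne_zero.2 h2
    by_cases h4 : P.natDegree < n
    · have h5 : P.natDegree = n - 1 := by omega
      rw [h5, ← ha, hcoef a, sub_self] at h3
      exact h3 rfl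
    · apply h3
      rw [hP, Polynomial.finsetSum_coeff]
      refine Finset.sum_eq_zero fun j _ => ?_
      rw [← hP, Polynomial.coeff_monomial, if_neg]
      intro e
      have := j.2
      omega
  have hroot : Polynomial.aeval ω P = 0 := by
    have h1 : Polynomial.aeval ω P = ∑ k : Fin n, ((c k : ℂ) - (c a : ℂ)) * ω ^ (k : ℕ) := by
      rw [hP, map_sum]
      refine Finset.sum_congr rfl fun j _ => ?_
      rw [Polynomial.aeval_monomial]
      simp
    rw [h1]
    simp only [sub_mul]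
    rw [Finset.sum_sub_distrib, h, ← Finset.mul_sum, Fin.sum_univ_eq_sum_range (fun k => ω ^ k) n,
      hω.geom_sum_eq_zero hn1, mul_zero, sub_zero]
  have hP0 : P = 0 := by
    rcases hdeg with h1 | h1
    · by_contra h2
      have h3 : minpoly ℚ ω = Polynomial.cyclotomic n ℚ := (Polynomial.cyclotomic_eq_minpoly_rat hω hn0).symm
      have h4 := Polynomial.natDegree_le_of_dvd (minpoly.dvd ℚ ω hroot) h2
      rw [h3, Polynomial.natDegree_cyclotomic, Nat.totient_prime hn] at h4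
      omega
    · exact h1
  have hall : ∀ j : Fin n, c j = c a := by
    intro j
    have h1 := hcoef j
    rw [hP0, Polynomial.coeff_zero] at h1
    have h2 : (c j : ℚ) = (c a : ℚ) := by linarith
    exact_mod_cast h2
  rw [hall k, hall l]

private theorem const_of_prime {N : Type} [Group N] [Finite N] {n : ℕ} (hn : n.Prime)
    (ρ : N →* Equiv.Perm (Fin n)) (h : ∀ i k, ∃ g : N, ρ g i = k) (f t : Fin n → ℤ)
    (hf : ∑ i, f i = 0) (i₁ : Fin n) (hf1 : f i₁ ≠ 0) (ht : ∀ g, ∑ i, t i * f (ρ g i) = 0) (i k : Fin n) :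
    t i = t k := by
  have : Fact n.Prime := ⟨hn⟩
  have : NeZero n := ⟨hn.ne_zero⟩
  -- an element of order n
  obtain ⟨g, hg⟩ : ∃ g : N, orderOf (ρ g) = n := by
    have hT : MulAction.IsPretransitive ρ.range (Fin n) := ⟨fun x y => by
      obtain ⟨g, hg⟩ := h x y
      exact ⟨⟨ρ g, ⟨g, rfl⟩⟩, hg⟩⟩
    have h1 := MulAction.index_stabilizer_of_transitive ρ.range i₁
    rw [Nat.card_eq_fintype_card, Fintype.card_fin] at h1
    have h2 : n ∣ Nat.card ρ.range := by
      have h3 := Subgroup.index_dvd_card (MulAction.stabilizer ρ.range i₁)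
      rwa [h1] at h3
    obtain ⟨x, hx⟩ := exists_prime_orderOf_dvd_card' n h2
    obtain ⟨g, hg⟩ := x.2
    refine ⟨g, ?_⟩
    rw [hg, Subgroup.orderOf_coe, hx]
  have hcyc : (ρ g).IsCycle := by
    refine Equiv.Perm.isCycle_of_prime_order'' ?_ ?_
    · rw [Fintype.card_fin]
      exact hn
    · rw [Fintype.card_fin]
      exact hg
  have hsupp : ∀ x, ρ g x ≠ x := by
    have h1 := hcyc.orderOf
    rw [hg] at h1
    have h2 : (ρ g).support = Finset.univ := by
      rw [← Finset.card_eq_iff_eq_univ, Fintype.card_fin]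
      exact h1.symm
    intro x
    rw [← Equiv.Perm.mem_support, h2]
    exact Finset.mem_univ x
  obtain ⟨σ, hσ⟩ : ∃ σ : Equiv.Perm (Fin n), σ = ρ g := ⟨_, rfl⟩
  rw [← hσ] at hcyc hg hsupp
  have hpow : ∀ m : ℕ, σ ^ (m % n) = σ ^ m := by
    intro m
    have h1 := pow_mod_orderOf σ m
    rwa [hg] at h1
  have hbij : ∀ x : Fin n, Function.Bijective fun m : Fin n => (σ ^ (m : ℕ)) x := by
    intro x
    rw [← Finite.surjective_iff_bijective]
    intro y
    obtain ⟨m, hm⟩ := hcyc.exists_pow_eq (hsupp x) (hsupp y)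
    refine ⟨⟨m % n, Nat.mod_lt _ hn.pos⟩, ?_⟩
    beta_reduce
    rw [hpow m, hm]
  obtain ⟨ω, hω⟩ : ∃ ω : ℂ, IsPrimitiveRoot ω n := ⟨_, Complex.isPrimitiveRoot_exp n hn.ne_zero⟩
  have hω0 : ω ≠ 0 := hω.ne_zero hn.ne_zero
  -- the function W
  obtain ⟨W, hW⟩ : ∃ W : Fin n → ℂ, ∀ m : ℕ, W ((σ ^ m) i₁) = ω ^ m := by
    obtain ⟨e, he⟩ : ∃ e : Fin n ≃ Fin n, ∀ m : Fin n, e m = (σ ^ (m : ℕ)) i₁ :=
      ⟨Equiv.ofBijective _ (hbij i₁), fun _ => rfl⟩
    refine ⟨fun x => ω ^ ((e.symm x : Fin n) : ℕ), fun m => ?_⟩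
    have h1 : (σ ^ m) i₁ = e ⟨m % n, Nat.mod_lt _ hn.pos⟩ := by
      rw [he]
      change (σ ^ m) i₁ = (σ ^ (m % n)) i₁
      rw [hpow m]
    rw [h1]
    beta_reduce
    rw [Equiv.symm_apply_apply]
    change ω ^ (m % n) = ω ^ m
    have h2 := pow_mod_orderOf ω m
    rwa [← hω.eq_orderOf] at h2
  have hWσ : ∀ (m : ℕ) (x : Fin n), W ((σ ^ m) x) = ω ^ m * W x := by
    intro m x
    obtain ⟨j, hj⟩ := (hbij i₁).2 x
    beta_reduce at hj
    rw [← hj, ← Equiv.Perm.mul_apply, ← pow_add, hW, hW, pow_add]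
  have hW0 : ∀ x, W x ≠ 0 := by
    intro x
    obtain ⟨j, hj⟩ := (hbij i₁).2 x
    beta_reduce at hj
    rw [← hj, hW]
    exact pow_ne_zero _ hω0
  obtain ⟨G, hG⟩ : ∃ G : ℂ, G = ∑ x, (f x : ℂ) * W x := ⟨_, rfl⟩
  obtain ⟨T, hT⟩ : ∃ T : ℂ, T = ∑ x, (t x : ℂ) * (W x)⁻¹ := ⟨_, rfl⟩
  have hTG : T * G = 0 := by
    have h1 : ∑ m : Fin n, ω ^ (m : ℕ) * (∑ x, (t x : ℂ) * (f ((σ ^ (m : ℕ)) x) : ℂ)) = 0 := by
      refine Finset.sum_eq_zero fun m _ => ?_
      have h2 := ht (g ^ (m : ℕ))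
      rw [map_pow, ← hσ] at h2
      have h3 : (∑ x, (t x : ℂ) * (f ((σ ^ (m : ℕ)) x) : ℂ)) = 0 := by
        exact_mod_cast congrArg (Int.cast : ℤ → ℂ) h2
      rw [h3, mul_zero]
    rw [← h1, hT, Finset.sum_mul]
    simp only [Finset.mul_sum]
    rw [Finset.sum_comm (s := (Finset.univ : Finset (Fin n))) (t := (Finset.univ : Finset (Fin n)))
      (f := fun (m x : Fin n) => ω ^ (m : ℕ) * ((t x : ℂ) * (f ((σ ^ (m : ℕ)) x) : ℂ)))]
    refine Finset.sum_congr rfl fun x _ => ?_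
    rw [hG, ← (hbij x).sum_comp (fun y => (f y : ℂ) * W y), Finset.mul_sum]
    refine Finset.sum_congr rfl fun m _ => ?_
    rw [hWσ]
    have := hW0 x
    field_simp
  -- sums along the cycle
  have hsumW : ∀ (F : Fin n → ℂ), ∑ x, F x = ∑ m : Fin n, F ((σ ^ (m : ℕ)) i₁) := by
    intro F
    rw [← (hbij i₁).sum_comp F]
  rcases mul_eq_zero.1 hTG with h0 | h0
  · have h1 := const_of_root hn ω⁻¹ hω.inv (fun m => t ((σ ^ (m : ℕ)) i₁)) (by
      rw [← h0, hT, hsumW fun x => (t x : ℂ) * (W x)⁻¹]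
      refine Finset.sum_congr rfl fun m _ => ?_
      rw [hW, inv_pow])
    obtain ⟨a, ha⟩ := (hbij i₁).2 i
    obtain ⟨b, hb⟩ := (hbij i₁).2 k
    have h2 := h1 a b
    beta_reduce at h2 ha hb
    rw [ha, hb] at h2
    exact h2
  · exfalso
    have h1 := const_of_root hn ω hω (fun m => f ((σ ^ (m : ℕ)) i₁)) (by
      rw [← h0, hG, hsumW fun x => (f x : ℂ) * W x]
      refine Finset.sum_congr rfl fun m _ => ?_
      rw [hW])
    have h2 : ∀ x, f x = f i₁ := by
      intro x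
      obtain ⟨a, ha⟩ := (hbij i₁).2 x
      obtain ⟨b, hb⟩ := (hbij i₁).2 i₁
      have h2 := h1 a b
      beta_reduce at h2 ha hb
      rw [ha, hb] at h2
      exact h2
    rw [Finset.sum_congr rfl fun x _ => h2 x, Finset.sum_const, Finset.card_univ, Fintype.card_fin,
      nsmul_eq_mul] at hf
    rcases mul_eq_zero.1 hf with h3 | h3
    · exact hn.ne_zero (by exact_mod_cast h3)
    · exact hf1 h3

theorem const_of_rel {N : Type} [Group N] [Finite N] {n : ℕ} (φ : Fin n → N → ℤ)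
    (ρ : N →* Equiv.Perm (Fin n)) (h : TT ρ) (hρ : ∀ i ν ν', φ i (ν * ν') = φ (ρ ν' i) ν)
    (hsum : ∀ ν, ∑ i, φ i ν = 0) (t : Fin n → ℤ) (ht : ∀ ν, ∑ i, t i * φ i ν = 0) :
    (∀ i ν, φ i ν = 0) ∨ ∀ i k, t i = t k := by
  by_cases hz : ∀ i ν, φ i ν = 0
  · exact Or.inl hz
  refine Or.inr ?_
  push Not at hz
  obtain ⟨i₀, ν₀, hi₀⟩ := hz
  rcases h with h | ⟨hn, h⟩
  · let _ : Fintype N := Fintype.ofFinite N
    have hk : ∃ k₀, k₀ ≠ i₀ := by
      by_contra hcon
      push Not at hcon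
      apply hi₀
      have h1 := hsum ν₀
      rwa [Finset.sum_eq_single i₀ (fun j _ hj => absurd (hcon j) hj)
        (fun h2 => absurd (Finset.mem_univ i₀) h2)] at h1
    obtain ⟨k₀, hk₀⟩ := hk
    have hall : ∀ i, (Fintype.card (Fin n) : ℤ) * t i = ∑ k, t k := by
      intro i
      have hex : ∃ j, j ≠ i := by
        by_cases hi : i = i₀
        · exact ⟨k₀, by rw [hi]; exact hk₀⟩
        · exact ⟨i₀, Ne.symm hi⟩
      obtain ⟨j, hj⟩ := hex
      obtain ⟨g, hg, -⟩ := h i j i₀ k₀ (Ne.symm hj) (Ne.symm hk₀)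
      refine card_mul_eq φ ρ hρ hsum h t ht hj (ν := ν₀ * g) ?_
      rw [hρ, hg]
      exact hi₀
    have hcard : (Fintype.card (Fin n) : ℤ) ≠ 0 := by
      have h4 : 0 < Fintype.card (Fin n) := Fintype.card_pos_iff.2 ⟨i₀⟩
      exact_mod_cast h4.ne'
    intro i k
    have h1 := (hall i).trans (hall k).symm
    exact mul_left_cancel₀ hcard h1
  · refine const_of_prime hn ρ h (fun i => φ i ν₀) t (hsum ν₀) i₀ hi₀ ?_
    intro g
    have h1 := ht (ν₀ * g)
    simp only [hρ] at h1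
    exact h1

end Pool.Agent.Helper78.KUM
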