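import Pool.Agent.Helper78.KUM.SlopeB
import Pool.Agent.Helper78.KUM.ActHom
import Pool.Agent.Helper78.KUM.PrimAct
import Pool.Agent.Helper78.KUM.OrthS
import Pool.Agent.Helper78.AST.ClosureRel

/-!
# KUM-22 CaseB: independent blocks (compare `Pool/Agent/Helper78/AST/CaseB.lean`)

`G = Gal(L/ℚ)`. An automorphism `s` of `ℂ` with `Fixes ℓ s` restricts to `γ ∈ NN` (`AST.restrictL`; `(ζ : ℂ) ^ ℓ = 1`).

* `h2` for the block `b = (j, c)`: if the `β (b, i)` are not distinct then they are all equal. Doubly transitive: `β (b, i) = β (b, i')`, `i ≠ i'`; for `k ≠ k'` there is `γ ∈ NN` with `γ β (b, i) = β (b, k)`, `γ β (b, i') = β (b, k')`.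
  `n` prime, transitive: the classes `{i' | β (b, i') = β (b, i)}` have the same size (`γ ∈ NN` permutes the numbers `β (b, ·)` by a permutation `π` of the indices (`gal` with `a = 1`) and is transitive on them), which divides `n`.
  If they are all equal then `Φ (b, i) γ` does not depend on `i` and `∑_i Φ (b, i) γ = 0` (`sum_zeroG`), so `Φ (b, ·) = 0`: both claims are trivial for `b` (`one_of_const`, `Orth` with a zero factor).
* If they are distinct: `exists_rho` gives `ρ`, and `TT ρ` (from `h2`: `s` restricts to `ν ∈ NN` with `ν β (b, i) = β (b, k)`, so `ρ ν i = k` by injectivity).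
* One block: for every `γ`: the functions `ν ↦ Φ (b, i) (γ ν)` on `NN` (finite) satisfy the hypotheses of `const_of_rel`. If `t` is not constant they all vanish, so `Φ (b, i) γ = 0` (`ν = 1`) for all `γ`. `one_of_const`.
* Two blocks `b = (j, c)`, `b' = (j', c')`: equal: `AST.equi_refl`; `b' = (j, -c)`: `conjBlock` (`Equi` with the sign `-1`). Otherwise, if the `β (b, i)` are distinct: let `H ≤ NN` be the subgroup of the `ν` with `ν β (b', i') = β (b', i')` for all `i'`;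
  it is normal (elements of `NN` permute the `β (b', ·)`: `gal` with `a = 1`). `Independent` gives `ν ∈ H` which moves some `β (b, i₀)`, i.e. `ρ ν i₀ ≠ i₀`. By `trans_of_normal` for all `i`, `k` there is `g ∈ H` with `ρ g i = k`, so
  `Φ (b, i) (γ g) = Φ (b, k) γ` and `Φ (b', i') (γ g) = Φ (b', i') γ`: `orth_of_shift`.
-/

set_option autoImplicit false

open Polynomial

namespace Pool.Agent.Helper78.KUM

open Pool.Agent.Helper78.AST (oneGen Equi Orth restrictL)

variable {p ℓ q n : ℕ} [NeZero ℓ] {J : Type} {L : IntermediateField ℚ ℂ} [FiniteDimensional ℚ L] [IsGalois ℚ L]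

private theorem cb_exists (D : KData p ℓ q n J L) (s : ℂ ≃+* ℂ) (hs : Fixes ℓ s) :
    ∃ γ : D.NN, ∀ x : L, (((γ : L ≃ₐ[ℚ] L) x : L) : ℂ) = s (x : ℂ) := by
  obtain ⟨γ, hγ⟩ := restrictL L s
  refine ⟨⟨γ, ?_⟩, hγ⟩
  have h : γ D.ζ = D.ζ := by
    apply Subtype.ext
    rw [hγ]
    apply hs
    have h1 := congrArg (algebraMap L ℂ) D.hζ.pow_eq_one
    rw [map_pow, map_one] at h1
    exact h1
  exact h

omit [FiniteDimensional ℚ L] [IsGalois ℚ L] in
private theorem cb_gal (D : KData p ℓ q n J L) (γ : D.NN) (j : J) (c : (ZMod ℓ)ˣ) :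
    ∃ π : Equiv.Perm (Fin n), ∀ i, (γ : L ≃ₐ[ℚ] L) (D.β ((j, c), i)) = D.β ((j, c), π i) := by
  have : Fact (1 < ℓ) := ⟨D.hℓ.one_lt⟩
  obtain ⟨π, hπ⟩ := D.gal (γ : L ≃ₐ[ℚ] L) 1 (by
    rw [Units.val_one, ZMod.val_one, pow_one]
    exact γ.2) j c
  refine ⟨π, fun i => ?_⟩
  rw [hπ i, one_mul]

private theorem cb_tr (D : KData p ℓ q n J L) (ht : Transitive ℓ (fun x => (D.β x : ℂ)))
    (j : J) (c : (ZMod ℓ)ˣ) (i k : Fin n) :
    ∃ γ : D.NN, (γ : L ≃ₐ[ℚ] L) (D.β ((j, c), i)) = D.β ((j, c), k) := by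
  obtain ⟨s, hs, hs1⟩ := ht (j, c) i k
  obtain ⟨γ, hγ⟩ := cb_exists D s hs
  refine ⟨γ, ?_⟩
  apply Subtype.ext
  rw [hγ]
  exact hs1

private theorem cb_const (D : KData p ℓ q n J L)
    (h2 : TwoTransitive ℓ (fun x => (D.β x : ℂ)) ∨ (n.Prime ∧ Transitive ℓ (fun x => (D.β x : ℂ))))
    (j : J) (c : (ZMod ℓ)ˣ) (hinj : ¬ Function.Injective fun i => D.β ((j, c), i)) :
    ∀ k k', D.β ((j, c), k) = D.β ((j, c), k') := by
  classical
  unfold Function.Injective at hinj
  push Not at hinj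
  obtain ⟨i₀, i₁, h01, hne⟩ := hinj
  rcases h2 with h2 | ⟨hn, ht⟩
  · intro k k'
    by_cases hk : k = k'
    · rw [hk]
    · obtain ⟨s, _, hs1, hs2⟩ := h2 (j, c) i₀ i₁ k k' hne hk
      apply Subtype.ext
      simp only at hs1 hs2
      rw [← hs1, ← hs2, h01]
  · let f : Fin n → L := fun i => D.β ((j, c), i)
    let m : Fin n → ℕ := fun i => (Finset.univ.filter (fun i' => f i' = f i)).card
    have hle : ∀ i k, m i ≤ m k := by
      intro i k
      obtain ⟨γ, hγ⟩ := cb_tr D ht j c i k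
      obtain ⟨π, hπ⟩ := cb_gal D γ j c
      refine Finset.card_le_card_of_injOn π ?_ (π.injective.injOn)
      intro i' hi'
      rw [Finset.mem_coe, Finset.mem_filter] at hi' ⊢
      refine ⟨Finset.mem_univ _, ?_⟩
      have h1 : D.β ((j, c), i') = D.β ((j, c), i) := hi'.2
      change D.β ((j, c), π i') = D.β ((j, c), k)
      rw [← hπ, h1, hγ]
    have hm : ∀ i k, m i = m k := fun i k => le_antisymm (hle i k) (hle k i)
    have hcard : n = (Finset.univ.image f).card * m i₀ := by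
      have h1 := Finset.card_eq_sum_card_image f (Finset.univ : Finset (Fin n))
      rw [Finset.card_univ, Fintype.card_fin] at h1
      refine h1.trans ?_
      rw [Finset.sum_congr rfl (g := fun _ => m i₀), Finset.sum_const, smul_eq_mul]
      intro z hz
      rw [Finset.mem_image] at hz
      obtain ⟨i, -, rfl⟩ := hz
      exact hm i i₀
    have hm2 : 2 ≤ m i₀ := by
      have h1 : ({i₀, i₁} : Finset (Fin n)) ⊆ Finset.univ.filter (fun i' => f i' = f i₀) := by
        intro x hx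
        rw [Finset.mem_insert, Finset.mem_singleton] at hx
        rw [Finset.mem_filter]
        refine ⟨Finset.mem_univ _, ?_⟩
        rcases hx with rfl | rfl
        · rfl
        · exact h01.symm
      have h3 := Finset.card_le_card h1
      rw [Finset.card_pair hne] at h3
      exact h3
    have hdvd : m i₀ ∣ n := Dvd.intro_left _ hcard.symm
    have hmn : m i₀ = n := by
      rcases (Nat.dvd_prime hn).1 hdvd with h | h
      · omega
      · exact h
    have hall : Finset.univ.filter (fun i' => f i' = f i₀) = Finset.univ := by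
      rw [← Finset.card_eq_iff_eq_univ, Fintype.card_fin]
      exact hmn
    have hall2 : ∀ k, f k = f i₀ := by
      intro k
      have h4 : k ∈ Finset.univ.filter (fun i' => f i' = f i₀) := by
        rw [hall]
        exact Finset.mem_univ _
      exact (Finset.mem_filter.1 h4).2
    intro k k'
    exact (hall2 k).trans (hall2 k').symm

private theorem cb_zero (D : KData p ℓ q n J L)
    (h2 : TwoTransitive ℓ (fun x => (D.β x : ℂ)) ∨ (n.Prime ∧ Transitive ℓ (fun x => (D.β x : ℂ))))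
    (j : J) (c : (ZMod ℓ)ˣ) (hinj : ¬ Function.Injective fun i => D.β ((j, c), i)) (i : Fin n)
    (γ : L ≃ₐ[ℚ] L) : D.Φ ((j, c), i) γ = 0 := by
  have hall := cb_const D h2 j c hinj
  have hphi : ∀ k, D.Φ ((j, c), k) γ = D.Φ ((j, c), i) γ := by
    intro k
    unfold KData.Φ
    rw [hall k i]
  have hsum := D.sum_zeroG j c γ
  rw [Finset.sum_congr rfl fun k _ => hphi k, Finset.sum_const, Finset.card_univ,
    Fintype.card_fin, nsmul_eq_mul, mul_eq_zero] at hsum
  rcases hsum with h | h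
  · exact absurd h (by
      have := Fin.pos i
      exact_mod_cast this.ne')
  · exact h

private theorem cb_TT (D : KData p ℓ q n J L)
    (h2 : TwoTransitive ℓ (fun x => (D.β x : ℂ)) ∨ (n.Prime ∧ Transitive ℓ (fun x => (D.β x : ℂ))))
    (j : J) (c : (ZMod ℓ)ˣ) (hinj : Function.Injective fun i => D.β ((j, c), i))
    (ρ : D.NN →* Equiv.Perm (Fin n))
    (hρ : ∀ (ν : D.NN) i, (ν : L ≃ₐ[ℚ] L) (D.β ((j, c), i)) = D.β ((j, c), ρ ν i)) : TT ρ := by
  rcases h2 with h2 | ⟨hn, ht⟩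
  · left
    intro i i' k k' hi hk
    obtain ⟨s, hs, hs1, hs2⟩ := h2 (j, c) i i' k k' hi hk
    obtain ⟨γ, hγ⟩ := cb_exists D s hs
    simp only at hs1 hs2
    refine ⟨γ, hinj ?_, hinj ?_⟩
    · change D.β ((j, c), ρ γ i) = D.β ((j, c), k)
      rw [← hρ]
      apply Subtype.ext
      rw [hγ, hs1]
    · change D.β ((j, c), ρ γ i') = D.β ((j, c), k')
      rw [← hρ]
      apply Subtype.ext
      rw [hγ, hs2]
  · right
    refine ⟨hn, fun i k => ?_⟩
    obtain ⟨γ, hγ⟩ := cb_tr D ht j c i k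
    refine ⟨γ, hinj ?_⟩
    change D.β ((j, c), ρ γ i) = D.β ((j, c), k)
    rw [← hρ, hγ]

/-- the elements of `NN` which fix a block elementwise -/
private def cbH (D : KData p ℓ q n J L) (j' : J) (c' : (ZMod ℓ)ˣ) : Subgroup D.NN where
  carrier := {ν | ∀ i, (ν : L ≃ₐ[ℚ] L) (D.β ((j', c'), i)) = D.β ((j', c'), i)}
  mul_mem' := by
    intro a b ha hb i
    have h1 : ((a * b : D.NN) : L ≃ₐ[ℚ] L) (D.β ((j', c'), i)) =
      (a : L ≃ₐ[ℚ] L) ((b : L ≃ₐ[ℚ] L) (D.β ((j', c'), i))) := rfl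
    rw [h1, hb i, ha i]
  one_mem' := by
    intro i
    rfl
  inv_mem' := by
    intro a ha i
    have h1 : ((a⁻¹ : D.NN) : L ≃ₐ[ℚ] L) ((a : L ≃ₐ[ℚ] L) (D.β ((j', c'), i))) =
      ((a⁻¹ * a : D.NN) : L ≃ₐ[ℚ] L) (D.β ((j', c'), i)) := rfl
    rw [ha i, inv_mul_cancel] at h1
    exact h1

private theorem cbH_normal (D : KData p ℓ q n J L) (j' : J) (c' : (ZMod ℓ)ˣ) :
    (cbH D j' c').Normal := by
  refine ⟨fun γ hγ ν₀ i' => ?_⟩
  obtain ⟨π, hπ⟩ := cb_gal D ν₀⁻¹ j' c'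
  have h5 : ((ν₀ * γ * ν₀⁻¹ : D.NN) : L ≃ₐ[ℚ] L) (D.β ((j', c'), i')) =
      (ν₀ : L ≃ₐ[ℚ] L) ((γ : L ≃ₐ[ℚ] L)
        (((ν₀⁻¹ : D.NN) : L ≃ₐ[ℚ] L) (D.β ((j', c'), i')))) := rfl
  have h6 : (ν₀ : L ≃ₐ[ℚ] L) (((ν₀⁻¹ : D.NN) : L ≃ₐ[ℚ] L) (D.β ((j', c'), i'))) =
      D.β ((j', c'), i') := by
    have h7 : (ν₀ : L ≃ₐ[ℚ] L) (((ν₀⁻¹ : D.NN) : L ≃ₐ[ℚ] L) (D.β ((j', c'), i'))) =
      ((ν₀ * ν₀⁻¹ : D.NN) : L ≃ₐ[ℚ] L) (D.β ((j', c'), i')) := rfl
    rw [h7, mul_inv_cancel]
    rfl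
  rw [h5, hπ i', hγ (π i'), ← hπ i', h6]

theorem KData.caseB (D : KData p ℓ q n J L) [Fintype (L ≃ₐ[ℚ] L)]
    (h2 : TwoTransitive ℓ (fun x => (D.β x : ℂ)) ∨ (n.Prime ∧ Transitive ℓ (fun x => (D.β x : ℂ))))
    (hi : Independent ℓ (fun x => (D.β x : ℂ))) :
    (∀ b b' : J × (ZMod ℓ)ˣ, Equi (fun i => D.Φ (b, i)) (fun i => D.Φ (b', i)) ∨
      Orth (fun i => D.Φ (b, i)) (fun i => D.Φ (b', i))) ∧
    ∀ (b : J × (ZMod ℓ)ˣ) (t : Fin n → ℤ), (∀ γ, ∑ i, t i * D.Φ (b, i) γ = 0) →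
      t ∈ AddSubgroup.closure (oneGen (fun i => D.Φ (b, i))) := by
  refine ⟨?_, ?_⟩
  · rintro ⟨j, c⟩ ⟨j', c'⟩
    by_cases h : j' = j ∧ (c' = c ∨ c' = -c)
    · left
      obtain ⟨rfl, h | h⟩ := h
      · subst h
        refine ⟨1, 1, Or.inl rfl, fun i ν => ?_⟩
        rw [one_mul]
        rfl
      · subst h
        obtain ⟨π, hπ⟩ := D.conjBlock j' c
        refine ⟨-1, π, Or.inr rfl, fun i ν => ?_⟩
        rw [neg_one_mul]
        exact hπ i ν
    · right
      by_cases hinj : Function.Injective fun i => D.β ((j, c), i)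
      · obtain ⟨ρ, hρ1, hρ2, hρ3⟩ := D.exists_rho j c hinj
        obtain ⟨s, hs, ⟨i₀, hi₀⟩, hs'⟩ := hi j j' c c' h
        obtain ⟨γ, hγ⟩ := cb_exists D s hs
        simp only at hi₀ hs'
        have hγ' : γ ∈ cbH D j' c' := by
          intro i
          apply Subtype.ext
          rw [hγ, hs']
        have hk₀ : ρ γ i₀ ≠ i₀ := by
          intro hc
          apply hi₀
          rw [← hγ, hρ1, hc]
        haveI := cbH_normal D j' c'
        refine orth_of_shift _ _ (fun ν => D.sum_zeroG j c ν) fun i k => ?_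
        obtain ⟨g, hg, hgk⟩ := trans_of_normal ρ (cb_TT D h2 j c hinj ρ hρ1) (cbH D j' c') γ hγ'
          i₀ hk₀ i k
        refine ⟨(g : L ≃ₐ[ℚ] L), fun ν => ?_, fun i' ν => ?_⟩
        · have h3 := hρ3 i ν g
          rw [hgk] at h3
          exact h3
        · have h8 : D.Φ ((j', c'), i') (ν * (g : L ≃ₐ[ℚ] L)) =
              D.mu (ν ((g : L ≃ₐ[ℚ] L) (D.β ((j', c'), i')))) := rfl
          change D.Φ ((j', c'), i') (ν * (g : L ≃ₐ[ℚ] L)) = D.Φ ((j', c'), i') ν
          rw [h8, hg i']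
          rfl
      · intro i i'
        refine Finset.sum_eq_zero fun ν _ => ?_
        change D.Φ ((j, c), i) ν * _ = 0
        rw [cb_zero D h2 j c hinj i ν, zero_mul]
  · rintro ⟨j, c⟩ t ht
    apply one_of_const
    by_cases hinj : Function.Injective fun i => D.β ((j, c), i)
    · obtain ⟨ρ, hρ1, hρ2, hρ3⟩ := D.exists_rho j c hinj
      by_cases htc : ∀ i k, t i = t k
      · exact Or.inr htc
      · left
        intro i γ
        have h5 := const_of_rel (fun i (ν : D.NN) => D.Φ ((j, c), i) (γ * (ν : L ≃ₐ[ℚ] L))) ρ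
          (cb_TT D h2 j c hinj ρ hρ1) (fun i ν ν' => ?_) (fun ν => D.sum_zeroG j c _) t
          (fun ν => ht _)
        · rcases h5 with h5 | h5
          · have h6 := h5 i 1
            have h7 : γ * ((1 : D.NN) : L ≃ₐ[ℚ] L) = γ := by
              rw [Subgroup.coe_one, mul_one]
            rw [h7] at h6
            exact h6
          · exact absurd h5 htc
        · rw [Subgroup.coe_mul, ← mul_assoc]
          exact hρ3 i (γ * (ν : L ≃ₐ[ℚ] L)) ν'
    · left
      intro i γ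
      exact cb_zero D h2 j c hinj i γ

end Pool.Agent.Helper78.KUM
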