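import Mathlib
import Pool.Agent.Helper78.AST.Defs

/-!
# KUM: definitions (cyclic covers `y ^ ℓ = ∏ (x - a_i) ^ e_i` of the line)

* `charSum χ a e E`: the sum of `χ(N_{E/F} ∏ (x - a_i) ^ e_i)` over the elements `x` of the finite extension `E` of `F`.
* `IsEigen χ a e b`: the `b i` are the Frobenius eigenvalues on the part of the first cohomology of the cover
  on which the covering group acts through the character `χ`.
* `jac χ a e`: the sum of `∏ χ(u_i) ^ e_i` over the `u` with `∑ u_i / ∏_{j ≠ i} (a_i - a_j) = 1` (a Jacobi sum).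
* `AST.IsRel q b m`: a power of the monomial `∏ b x ^ m x` is a power of `q`; `AST.block a`: the exponents which are `1` on the
  block `a` and `0` on the others; `AST.shortRels q b`: the relations of length at most two, and the blocks.
-/

set_option autoImplicit false

open Polynomial

namespace Pool.Agent.Helper78.KUM

/-- The character sum over the finite extension `E` of `F`. -/
noncomputable def charSum {F : Type} [Field F] (χ : MulChar F ℂ) {k : ℕ} (a : Fin k → F) (e : Fin k → ℕ)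
    (E : Type) [Field E] [Fintype E] [Algebra F E] : ℂ :=
  ∑ x : E, χ (Algebra.norm F (∏ i, (x - algebraMap F E (a i)) ^ e i))

/-- The Frobenius eigenvalues of the `χ`-part of the first cohomology of `y ^ ℓ = ∏ (x - a_i) ^ e_i`. -/
def IsEigen {F : Type} [Field F] (χ : MulChar F ℂ) {k : ℕ} (a : Fin k → F) (e : Fin k → ℕ) {n : ℕ}
    (b : Fin n → ℂ) : Prop :=
  ∀ (E : Type) [Field E] [Fintype E] [Algebra F E],
    charSum χ a e E = -∑ i, b i ^ Module.finrank F E

open Classical in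
/-- The sum of `∏ χ(u_i) ^ e_i` over the `u` with `∑ u_i / ∏_{j ≠ i} (a_i - a_j) = 1`. -/
noncomputable def jac {F : Type} [Field F] [Fintype F] (χ : MulChar F ℂ) {k : ℕ} (a : Fin k → F)
    (e : Fin k → ℕ) : ℂ :=
  ∑ u ∈ (Finset.univ : Finset (Fin k → F)).filter
    (fun u => ∑ i, u i / ∏ j ∈ Finset.univ.erase i, (a i - a j) = 1), ∏ i, χ (u i) ^ e i

/-- The norms of the sums `charSum χ (a j) (e j) F` whose squares are not divisible by `q ^ (ℓ - 1)` have the same
`p`-adic valuation. -/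
def SameSlope (p ℓ : ℕ) [NeZero ℓ] {F : Type} [Field F] [Fintype F] (χ : MulChar F ℂ) {J : Type} {k : ℕ}
    (a : J → Fin k → F) (e : J → Fin k → ℕ) : Prop :=
  ∀ (j j' : J) (N N' : ℤ), (N : ℂ) = ∏ c : (ZMod ℓ)ˣ, charSum (χ ^ (c : ZMod ℓ).val) (a j) (e j) F →
    (N' : ℂ) = ∏ c : (ZMod ℓ)ˣ, charSum (χ ^ (c : ZMod ℓ).val) (a j') (e j') F →
    ¬ ((Fintype.card F : ℤ) ^ (ℓ - 1) ∣ N ^ 2) → ¬ ((Fintype.card F : ℤ) ^ (ℓ - 1) ∣ N' ^ 2) →
    padicValInt p N = padicValInt p N'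

/-- `p` is a primitive root modulo `ℓ`. -/
def Prim (p ℓ : ℕ) : Prop := ∀ a : (ZMod ℓ)ˣ, ∃ k : ℕ, (p : ZMod ℓ) ^ k = a

/-- The automorphisms of `ℂ` which fix the `ℓ`-th roots of unity. -/
def Fixes (ℓ : ℕ) (s : ℂ ≃+* ℂ) : Prop := ∀ z : ℂ, z ^ ℓ = 1 → s z = z

/-- The automorphisms of `ℂ` over the `ℓ`-th cyclotomic field act transitively on each block. -/
def Transitive (ℓ : ℕ) {B I : Type} (b : B × I → ℂ) : Prop :=
  ∀ (a : B) (i k : I), ∃ s : ℂ ≃+* ℂ, Fixes ℓ s ∧ s (b (a, i)) = b (a, k)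

/-- The automorphisms of `ℂ` over the `ℓ`-th cyclotomic field act doubly transitively on each block. -/
def TwoTransitive (ℓ : ℕ) {B I : Type} (b : B × I → ℂ) : Prop :=
  ∀ (a : B) (i i' k k' : I), i ≠ i' → k ≠ k' →
    ∃ s : ℂ ≃+* ℂ, Fixes ℓ s ∧ s (b (a, i)) = b (a, k) ∧ s (b (a, i')) = b (a, k')

/-- Of two blocks `(j, c)`, `(j', c')` which are not equal or complex conjugate, some automorphism of `ℂ`
over the `ℓ`-th cyclotomic field moves the first and fixes the second elementwise. -/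
def Independent (ℓ : ℕ) [NeZero ℓ] {J I : Type} (b : (J × (ZMod ℓ)ˣ) × I → ℂ) : Prop :=
  ∀ (j j' : J) (c c' : (ZMod ℓ)ˣ), ¬ (j' = j ∧ (c' = c ∨ c' = -c)) →
    ∃ s : ℂ ≃+* ℂ, Fixes ℓ s ∧ (∃ i, s (b ((j, c), i)) ≠ b ((j, c), i)) ∧
      ∀ i, s (b ((j', c'), i)) = b ((j', c'), i)

end Pool.Agent.Helper78.KUM
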