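import Pool.Agent.Helper78.KUM.LDefs
import Pool.Agent.Helper78.AST.Mon

/-!
# KUM-03 Top: the last coefficient of the L-function is a Jacobi sum (Lagrange interpolation)

`a : Fin (n + 1) → F` injective, `ω i = ∏_{j ≠ i} (a i - a j)`.

`lagrange_iff`: over any field `K`: for `u : Fin (n + 1) → K`: `∑ u_i / ω_i = 1` iff there is a monic polynomial `g` of degree `n` with `g(a_i) = u_i` for all `i`, and it is unique.
(→) `g = Lagrange.interpolate Finset.univ a u`, of degree `≤ n` (`Lagrange.degree_interpolate_le`, `Lagrange.eval_interpolate_at_node`); its coefficient at `n` is `∑ u_i / ω_i`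
(`Lagrange.coeff_eq_sum` with `s = Finset.univ`, card `n + 1`), so it is `1`: `g` is monic of degree `n`. (←) `Lagrange.coeff_eq_sum`/`Lagrange.leadingCoeff_eq_sum` for `g`.
Uniqueness: `Polynomial.eq_of_degrees_lt_of_eval_finset_eq`-like (`Lagrange` file), both of degree `< n + 1`.

`asum_top`: the sum over the monic `g` of degree `n` (parametrized by `AST.mon`: `mon_injective`, `mon_surjective`, `mon_monic`, `mon_natDegree`) of `∏ χ(g(a_i)) ^ e_i`, reindexed by the bijection
`g ↦ (g(a_i))_i` onto the set in `jac` (`Finset.sum_bij`).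
-/

set_option autoImplicit false

open Polynomial

namespace Pool.Agent.Helper78.KUM

open Pool.Agent.Helper78.AST (asum ssum mon)

private theorem coeff_sum {K : Type} [Field K] (n : ℕ) (a : Fin (n + 1) → K) (ha : Function.Injective a)
    {g : K[X]} (hg : g.degree < ((n + 1 : ℕ) : WithBot ℕ)) :
    g.coeff n = ∑ i, g.eval (a i) / ∏ j ∈ Finset.univ.erase i, (a i - a j) := by
  have h1 := Lagrange.coeff_eq_sum (s := (Finset.univ : Finset (Fin (n + 1)))) (v := a) ha.injOn (P := g) (by
    rw [Finset.card_univ, Fintype.card_fin]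
    exact hg)
  rw [Finset.card_univ, Fintype.card_fin, Nat.add_sub_cancel] at h1
  exact h1

private theorem deg_lt {K : Type} [Field K] {n : ℕ} {g : K[X]} (hg : g.natDegree = n) :
    g.degree < ((n + 1 : ℕ) : WithBot ℕ) := by
  refine lt_of_le_of_lt Polynomial.degree_le_natDegree ?_
  rw [hg]
  exact_mod_cast Nat.lt_succ_self n

private theorem sum_of_monic {K : Type} [Field K] (n : ℕ) (a : Fin (n + 1) → K) (ha : Function.Injective a)
    {g : K[X]} (hg : g.Monic) (hd : g.natDegree = n) :
    ∑ i, g.eval (a i) / ∏ j ∈ Finset.univ.erase i, (a i - a j) = 1 := by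
  rw [← coeff_sum n a ha (deg_lt hd), ← hd]
  exact hg

private theorem uniq {K : Type} [Field K] (n : ℕ) (a : Fin (n + 1) → K) (ha : Function.Injective a)
    {g g' : K[X]} (hd : g.natDegree = n) (hd' : g'.natDegree = n) (h : ∀ i, g.eval (a i) = g'.eval (a i)) :
    g = g' := by
  refine Polynomial.eq_of_degrees_lt_of_eval_index_eq (s := (Finset.univ : Finset (Fin (n + 1)))) (v := a)
    ha.injOn ?_ ?_ fun i _ => h i
  · rw [Finset.card_univ, Fintype.card_fin]
    exact deg_lt hd
  · rw [Finset.card_univ, Fintype.card_fin]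
    exact deg_lt hd'

theorem lagrange_iff {K : Type} [Field K] (n : ℕ) (a : Fin (n + 1) → K) (ha : Function.Injective a)
    (u : Fin (n + 1) → K) :
    ∑ i, u i / ∏ j ∈ Finset.univ.erase i, (a i - a j) = 1 ↔
      ∃! g : K[X], g.Monic ∧ g.natDegree = n ∧ ∀ i, g.eval (a i) = u i := by
  constructor
  · intro h
    have hd : (Lagrange.interpolate Finset.univ a u).degree < ((n + 1 : ℕ) : WithBot ℕ) := by
      have h1 := Lagrange.degree_interpolate_lt (s := (Finset.univ : Finset (Fin (n + 1)))) (v := a) u ha.injOn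
      rwa [Finset.card_univ, Fintype.card_fin] at h1
    have he : ∀ i, (Lagrange.interpolate Finset.univ a u).eval (a i) = u i := fun i =>
      Lagrange.eval_interpolate_at_node u ha.injOn (Finset.mem_univ i)
    have hc : (Lagrange.interpolate Finset.univ a u).coeff n = 1 := by
      rw [coeff_sum n a ha hd, ← h]
      exact Finset.sum_congr rfl fun i _ => by rw [he i]
    have hd' : (Lagrange.interpolate Finset.univ a u).natDegree ≤ n := by
      rw [Polynomial.natDegree_le_iff_degree_le]
      exact Order.lt_succ_iff.1 (by exact_mod_cast hd)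
    have hn : (Lagrange.interpolate Finset.univ a u).natDegree = n :=
      Polynomial.natDegree_eq_of_le_of_coeff_ne_zero hd' (by rw [hc]; exact one_ne_zero)
    refine ⟨Lagrange.interpolate Finset.univ a u, ⟨?_, hn, he⟩, ?_⟩
    · unfold Polynomial.Monic Polynomial.leadingCoeff
      rw [hn, hc]
    · rintro g ⟨_, hgn, hge⟩
      exact uniq n a ha hgn hn fun i => by rw [hge i, he i]
  · rintro ⟨g, ⟨hg, hn, he⟩, _⟩
    rw [← sum_of_monic n a ha hg hn]
    exact Finset.sum_congr rfl fun i _ => by rw [he i]

theorem asum_top {F : Type} [Field F] [Fintype F] (χ : MulChar F ℂ) (n : ℕ) (a : Fin (n + 1) → F)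
    (ha : Function.Injective a) (e : Fin (n + 1) → ℕ) : asum (pch χ a e) n = jac χ a e := by
  classical
  unfold asum jac
  refine Finset.sum_bij (fun c _ => fun i => (mon c).eval (a i)) ?_ ?_ ?_ ?_
  · intro c _
    rw [Finset.mem_filter]
    exact ⟨Finset.mem_univ _, sum_of_monic n a ha (AST.mon_monic c) (AST.mon_natDegree c)⟩
  · intro c _ c' _ h
    apply AST.mon_injective
    exact uniq n a ha (AST.mon_natDegree c) (AST.mon_natDegree c') fun i => congrFun h i
  · intro u hu
    obtain ⟨g, ⟨hg, hn, he⟩, _⟩ := (lagrange_iff n a ha u).1 (Finset.mem_filter.1 hu).2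
    have h1 : ∃ c : Fin n → F, mon c = g := by
      rw [← hn]
      exact AST.mon_surjective g hg
    obtain ⟨c, hc⟩ := h1
    refine ⟨c, Finset.mem_univ _, ?_⟩
    funext i
    rw [hc, he i]
  · intro c _
    rfl

end Pool.Agent.Helper78.KUM
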