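import Pool.Agent.Helper78.KUM.LDefs
import Pool.Agent.Helper78.AST.Mon

/-!
# KUM-02 Vanish: the coefficients of the L-function beyond the number of points vanish (short)

`a : Fin k → F` injective, `χ ^ e i₀ ≠ 1` for an index `i₀`, `k ≤ m`. Claim: `asum (pch χ a e) m = 0`.

Let `h = ∏_{j ≠ i₀} (X - a_j)`, of degree `k - 1 < m`, `h(a_j) = 0` for `j ≠ i₀`, `h(a_{i₀}) = w ≠ 0`. For `t : F` the map `g ↦ g + C t * h` is a bijection of the set of the
monic polynomials of degree `m` onto itself (`AST.mon` is a bijection of `Fin m → F` onto this set: `mon_injective`, `mon_surjective`, `mon_monic`, `mon_natDegree` in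
`Pool/Agent/Helper78/AST/Mon.lean`; a convenient finset: `Finset.univ.image mon`), so
`S = ∑_g ∏_i χ(g(a_i)) ^ e_i = ∑_g χ(g(a_{i₀}) + t w) ^ (e i₀) ∏_{i ≠ i₀} χ(g(a_i)) ^ e_i`. Sum over `t : F`: `q S = ∑_g (∏_{i ≠ i₀} ..) ∑_t χ(g(a_{i₀}) + t w) ^ (e i₀)` and the inner sum is
`∑_{y : F} (χ ^ e i₀) y = 0` (`MulChar.sum_eq_zero_of_ne_one`; note `χ y ^ e = (χ ^ e) y` holds for `e ≠ 0` (`MulChar.pow_apply'`), and `e i₀ ≠ 0` because `χ ^ e i₀ ≠ 1`).
-/

set_option autoImplicit false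

open Polynomial

namespace Pool.Agent.Helper78.KUM

open Pool.Agent.Helper78.AST (asum ssum mon)

private lemma mon_eval {F : Type} [Field F] {m : ℕ} (v : Fin m → F) (x : F) :
    (mon v).eval x = x ^ m + ∑ i : Fin m, v i * x ^ (m - 1 - (i : ℕ)) := by
  rw [mon, Polynomial.eval_add, Polynomial.eval_pow, Polynomial.eval_X, Polynomial.eval_finsetSum]
  congr 1
  refine Finset.sum_congr rfl fun i _ => ?_
  rw [Polynomial.eval_mul, Polynomial.eval_C, Polynomial.eval_pow, Polynomial.eval_X]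

private lemma exists_dir {F : Type} [Field F] {k : ℕ} (a : Fin k → F) (ha : Function.Injective a)
    (i₀ : Fin k) (m : ℕ) (hm : k ≤ m) :
    ∃ w : Fin m → F, ∀ (t : F) (v : Fin m → F) (i : Fin k),
      (mon (v + t • w)).eval (a i) = (mon v).eval (a i) + (if i = i₀ then t else 0) := by
  classical
  obtain ⟨h, hh⟩ : ∃ h : F[X], h = Lagrange.basis Finset.univ a i₀ := ⟨_, rfl⟩
  have hdeg : h.natDegree < m := by
    have h1 : h.natDegree = (Finset.univ : Finset (Fin k)).card - 1 := by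
      rw [hh]
      exact Lagrange.natDegree_basis (fun x _ y _ hxy => ha hxy) (Finset.mem_univ _)
    rw [h1, Finset.card_univ, Fintype.card_fin]
    have := i₀.pos
    omega
  refine ⟨fun i => h.coeff (m - 1 - (i : ℕ)), fun t v i => ?_⟩
  have h2 : h.eval (a i) = ∑ l : Fin m, h.coeff (m - 1 - (l : ℕ)) * (a i) ^ (m - 1 - (l : ℕ)) := by
    rw [Polynomial.eval_eq_sum_range' hdeg,
      ← Finset.sum_range_reflect (fun l => h.coeff l * (a i) ^ l) m,
      Finset.sum_range (fun j => h.coeff (m - 1 - j) * (a i) ^ (m - 1 - j))]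
  have h3 : h.eval (a i) = if i = i₀ then 1 else 0 := by
    by_cases hi : i = i₀
    · rw [if_pos hi, hi, hh]
      exact Lagrange.eval_basis_self (fun x _ y _ hxy => ha hxy) (Finset.mem_univ _)
    · rw [if_neg hi, hh]
      exact Lagrange.eval_basis_of_ne (fun h => hi h.symm) (Finset.mem_univ _)
  rw [mon_eval, mon_eval, add_assoc]
  congr 1
  have h4 : ∑ l : Fin m, (v + t • fun l : Fin m => h.coeff (m - 1 - (l : ℕ))) l *
      (a i) ^ (m - 1 - (l : ℕ)) = ∑ l : Fin m, v l * (a i) ^ (m - 1 - (l : ℕ)) +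
        t * ∑ l : Fin m, h.coeff (m - 1 - (l : ℕ)) * (a i) ^ (m - 1 - (l : ℕ)) := by
    rw [Finset.mul_sum, ← Finset.sum_add_distrib]
    refine Finset.sum_congr rfl fun l _ => ?_
    rw [Pi.add_apply, Pi.smul_apply, smul_eq_mul]
    ring
  rw [h4, ← h2, h3]
  congr 1
  by_cases hi : i = i₀
  · rw [if_pos hi, if_pos hi, mul_one]
  · rw [if_neg hi, if_neg hi, mul_zero]

theorem asum_eq_zero {F : Type} [Field F] [Fintype F] (χ : MulChar F ℂ) {k : ℕ} (a : Fin k → F)
    (ha : Function.Injective a) (e : Fin k → ℕ) (i₀ : Fin k) (h : χ ^ e i₀ ≠ 1) (m : ℕ) (hm : k ≤ m) :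
    asum (pch χ a e) m = 0 := by
  classical
  obtain ⟨w, hw⟩ := exists_dir a ha i₀ m hm
  have he : e i₀ ≠ 0 := fun h0 => h (by rw [h0, pow_zero])
  have hsum : ∀ y : F, ∑ t : F, χ (y + t) ^ e i₀ = 0 := by
    intro y
    have h1 : ∑ t : F, χ (y + t) ^ e i₀ = ∑ t : F, χ t ^ e i₀ :=
      Equiv.sum_comp (Equiv.addLeft y) (fun t => χ t ^ e i₀)
    rw [h1]
    have h2 : ∑ t : F, (χ ^ e i₀) t = 0 := MulChar.sum_eq_zero_of_ne_one h
    rw [← h2]
    refine Finset.sum_congr rfl fun t _ => ?_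
    rw [MulChar.pow_apply' χ he]
  have hS : ∀ t : F, asum (pch χ a e) m = ∑ v : Fin m → F, pch χ a e (mon (v + t • w)) := by
    intro t
    rw [asum]
    exact (Equiv.sum_comp (Equiv.addRight (t • w)) (fun v => pch χ a e (mon v))).symm
  have hp : ∀ (t : F) (v : Fin m → F), pch χ a e (mon (v + t • w)) =
      χ ((mon v).eval (a i₀) + t) ^ e i₀ *
        ∏ i ∈ Finset.univ.erase i₀, χ ((mon v).eval (a i)) ^ e i := by
    intro t v
    rw [pch, ← Finset.mul_prod_erase Finset.univ _ (Finset.mem_univ i₀), hw, if_pos rfl]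
    congr 1
    refine Finset.prod_congr rfl fun i hi => ?_
    rw [hw, if_neg (Finset.ne_of_mem_erase hi), add_zero]
  have hq : (Fintype.card F : ℂ) * asum (pch χ a e) m = 0 := by
    calc (Fintype.card F : ℂ) * asum (pch χ a e) m = ∑ _t : F, asum (pch χ a e) m := by
          rw [Finset.sum_const, Finset.card_univ, nsmul_eq_mul]
      _ = ∑ t : F, ∑ v : Fin m → F, χ ((mon v).eval (a i₀) + t) ^ e i₀ *
          ∏ i ∈ Finset.univ.erase i₀, χ ((mon v).eval (a i)) ^ e i := by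
          refine Finset.sum_congr rfl fun t _ => ?_
          rw [hS t]
          exact Finset.sum_congr rfl fun v _ => hp t v
      _ = ∑ v : Fin m → F, ∑ t : F, χ ((mon v).eval (a i₀) + t) ^ e i₀ *
          ∏ i ∈ Finset.univ.erase i₀, χ ((mon v).eval (a i)) ^ e i := Finset.sum_comm
      _ = 0 := by
          refine Finset.sum_eq_zero fun v _ => ?_
          rw [← Finset.sum_mul, hsum, zero_mul]
  rcases mul_eq_zero.mp hq with h1 | h1
  · exact absurd h1 (Nat.cast_ne_zero.mpr Fintype.card_ne_zero)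
  · exact h1

end Pool.Agent.Helper78.KUM
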