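import Pool.Agent.Helper78.KUM.NormSumF
import Pool.Agent.Helper78.KUM.Vanish
import Pool.Agent.Helper78.KUM.Top
import Pool.Agent.Helper78.AST.Euler
import Pool.Agent.Helper78.AST.Newton

/-!
# KUM-05 Eigen: the eigenvalues are the roots of an explicit polynomial (assembly; adapt `Pool/Agent/Helper78/AST/Eigen.lean`)

`k = n + 1` points, `χ (-1) = 1`, `χ ^ e i₀ ≠ 1` for an index.

* `isEigen_iff`: `AST.newton` with `A = asum (pch χ a e)`, `S = ssum (pch χ a e)`, `N = n`: `A 0 = 1` (one function `Fin 0 → F`, `mon _ = 1`, `pch_one`), the recursion is `AST.euler` (`pch_one`, `pch_mul`),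
  `A m = 0` for `m > n` (`asum_eq_zero`). `IsEigen` is equivalent to `∀ m ≥ 1, S m = - ∑ b_i ^ m`: (←) `sum_norm` (`m = finrank F E ≥ 1`); (→) for `m ≥ 1` apply `IsEigen` to
  `E = FiniteField.Extension F p m` as in `AST/Eigen.lean` (`p` the characteristic of `F`: `CharP.exists`, `FiniteField.card'`) or any extension of degree `m`.
* `lpoly` is monic of degree `n` (`A 0 = 1`), `ℂ` is algebraically closed: existence.
* `prod_eigen`: the constant coefficient of `∏ (X - b_i)` is `(-1) ^ n ∏ b_i`, that of `lpoly` is `asum n = jac` (`asum_top`).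
-/

set_option autoImplicit false

open Polynomial

namespace Pool.Agent.Helper78.KUM

open Pool.Agent.Helper78.AST (asum ssum mon)

variable {F : Type} [Field F] [Fintype F]

private theorem asum_zero (χ : MulChar F ℂ) {k : ℕ} (a : Fin k → F) (e : Fin k → ℕ) :
    asum (pch χ a e) 0 = 1 := by
  have h : ∀ v : Fin 0 → F, pch χ a e (mon v) = 1 := by
    intro v
    have : mon v = (1 : F[X]) := by simp [mon]
    rw [this, pch_one]
  rw [asum, Finset.sum_congr rfl fun v _ => h v]
  simp

theorem lpoly_monic (χ : MulChar F ℂ) {k : ℕ} (a : Fin k → F) (e : Fin k → ℕ) (n : ℕ) :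
    (lpoly χ a e n).Monic ∧ (lpoly χ a e n).natDegree = n := by
  have hc : (lpoly χ a e n).coeff n = 1 := by
    rw [lpoly, Polynomial.finsetSum_coeff]
    rw [Finset.sum_eq_single 0]
    · rw [Polynomial.coeff_C_mul, asum_zero]
      simp
    · intro k hk hk0
      rw [Polynomial.coeff_C_mul, Polynomial.coeff_X_pow, if_neg, mul_zero]
      have := Finset.mem_range.1 hk
      omega
    · intro h
      exact absurd (Finset.mem_range.2 (by omega)) h
  have hd : (lpoly χ a e n).natDegree ≤ n := by
    rw [lpoly]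
    apply Polynomial.natDegree_sum_le_of_forall_le
    intro k hk
    refine (Polynomial.natDegree_C_mul_X_pow_le _ _).trans ?_
    omega
  refine ⟨Polynomial.monic_of_natDegree_le_of_coeff_eq_one n hd hc, ?_⟩
  exact le_antisymm hd (Polynomial.le_natDegree_of_ne_zero (by rw [hc]; exact one_ne_zero))

theorem isEigen_iff (χ : MulChar F ℂ) (h1 : χ (-1) = 1) (n : ℕ) (a : Fin (n + 1) → F)
    (ha : Function.Injective a) (e : Fin (n + 1) → ℕ) (i₀ : Fin (n + 1)) (h : χ ^ e i₀ ≠ 1) (b : Fin n → ℂ) :
    IsEigen χ a e b ↔ ∏ i, (X - C (b i)) = lpoly χ a e n := by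
  have hnw := Pool.Agent.Helper78.AST.newton (asum (pch χ a e)) (ssum (pch χ a e)) n
    (asum_zero χ a e) ?_ ?_ b
  · rw [lpoly, ← hnw]
    constructor
    · intro hE k hk
      obtain ⟨p, hp⟩ := CharP.exists F
      have : CharP F p := hp
      have : Fact p.Prime := ⟨CharP.char_is_prime F p⟩
      have : NeZero k := ⟨by omega⟩
      let _ : Fintype (FiniteField.Extension F p k) := Fintype.ofFinite _
      have h2 := hE (FiniteField.Extension F p k)
      rw [sum_norm _ χ h1, FiniteField.finrank_extension] at h2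
      exact h2
    · intro hS E _ _ _
      rw [sum_norm _ χ h1]
      exact hS _ Module.finrank_pos
  · intro k hk
    exact Pool.Agent.Helper78.AST.euler (pch χ a e) (pch_one χ a e)
      (fun E E' _ _ => pch_mul χ a e E E') k hk
  · intro k hk
    exact asum_eq_zero χ a ha e i₀ h k hk

theorem exists_isEigen (χ : MulChar F ℂ) (h1 : χ (-1) = 1) (n : ℕ) (a : Fin (n + 1) → F)
    (ha : Function.Injective a) (e : Fin (n + 1) → ℕ) (i₀ : Fin (n + 1)) (h : χ ^ e i₀ ≠ 1) :
    ∃ b : Fin n → ℂ, IsEigen χ a e b := by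
  obtain ⟨hm, hd⟩ := lpoly_monic χ a e n
  have hs := IsAlgClosed.splits (lpoly χ a e n)
  have hcard : (lpoly χ a e n).roots.card = n := by
    exact hs.natDegree_eq_card_roots.symm.trans hd
  obtain ⟨l, hl, hlen⟩ : ∃ l : List ℂ, (lpoly χ a e n).roots = (l : Multiset ℂ) ∧ l.length = n :=
    ⟨(lpoly χ a e n).roots.toList, by simp, by rw [Multiset.length_toList]; exact hcard⟩
  have key : ∀ (b : Fin n → ℂ), (List.ofFn b = l) → ∏ i, (X - C (b i)) = lpoly χ a e n := by
    intro b hb
    have h2 := hs.eq_prod_roots_of_monic hm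
    rw [h2, hl]
    simp only [Multiset.map_coe, Multiset.prod_coe]
    rw [← List.prod_ofFn, ← hb, List.map_ofFn]
    rfl
  refine ⟨fun i => l.get (Fin.cast hlen.symm i), (isEigen_iff χ h1 n a ha e i₀ h _).2 (key _ ?_)⟩
  apply List.ext_get
  · rw [List.length_ofFn, hlen]
  · intro m hm1 hm2
    simp

theorem prod_eigen (χ : MulChar F ℂ) (h1 : χ (-1) = 1) (n : ℕ) (a : Fin (n + 1) → F)
    (ha : Function.Injective a) (e : Fin (n + 1) → ℕ) (i₀ : Fin (n + 1)) (h : χ ^ e i₀ ≠ 1) (b : Fin n → ℂ)
    (hb : IsEigen χ a e b) : ∏ i, b i = (-1) ^ n * jac χ a e := by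
  have h2 := (isEigen_iff χ h1 n a ha e i₀ h b).1 hb
  have h3 := congrArg (Polynomial.eval 0) h2
  rw [Polynomial.eval_prod] at h3
  simp only [Polynomial.eval_sub, Polynomial.eval_X, Polynomial.eval_C, zero_sub] at h3
  have h4 : (lpoly χ a e n).eval 0 = jac χ a e := by
    rw [lpoly, Polynomial.eval_finsetSum, Finset.sum_eq_single n]
    · rw [Polynomial.eval_mul, Polynomial.eval_C, Nat.sub_self, pow_zero, Polynomial.eval_one,
        mul_one, asum_top χ n a ha e]
    · intro k hk hkn
      have hlt : k < n + 1 := Finset.mem_range.1 hk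
      rw [Polynomial.eval_mul, Polynomial.eval_pow, Polynomial.eval_X, zero_pow (by omega), mul_zero]
    · intro hn
      exact absurd (Finset.mem_range.2 (by omega)) hn
  rw [h4, Finset.prod_neg] at h3
  rw [← h3, Finset.card_univ, Fintype.card_fin, ← mul_assoc, ← pow_add, ← two_mul, pow_mul]
  simp

end Pool.Agent.Helper78.KUM
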