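import Mathlib

/-!
# KUM-13 Frob: a Frobenius element (short, Mathlib only)

`L / ℚ` finite Galois, `P` a prime of `𝓞 L` with `p ∈ P`, `p` prime, `p ∤ ℓ`, `ζ ^ ℓ = 1`. `Gal(L/ℚ)` acts on `𝓞 L` with invariants `ℤ` (see
`exists_gal_prime` in `Pool/Agent/Helper78/AST/Transit.lean` for the instances, `galRestrict`), and there is an arithmetic Frobenius element: `IsArithFrobAt.exists_of_isInvariant` in
`Mathlib/RingTheory/Frobenius.lean` (`R = ℤ`, `S = 𝓞 L`, `G = L ≃ₐ[ℚ] L`, `Q = P.asIdeal`; `Finite (S ⧸ Q)`: `Ideal.finiteQuotientOfFreeOfNeBot` or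
`NumberField`-instances). `AlgHom.IsArithFrobAt.comap_eq` gives the second statement; `AlgHom.IsArithFrobAt.apply_of_pow_eq_one` gives `δ ζ = ζ ^ Nat.card (ℤ ⧸ Q.under ℤ)`, and `Q.under ℤ = span {p}`, card `p`
(`ℓ ∉ Q`: else `1 ∈ Q` by Bezout).
-/

set_option autoImplicit false

open NumberField IsDedekindDomain

namespace Pool.Agent.Helper78.KUM

theorem exists_frob {L : Type} [Field L] [NumberField L] [IsGalois ℚ L] (p : ℕ) (hp : p.Prime) (ℓ : ℕ)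
    (hℓ : ¬ p ∣ ℓ) (ζ : L) (hζ : ζ ^ ℓ = 1) (P : HeightOneSpectrum (𝓞 L)) (hP : (p : 𝓞 L) ∈ P.asIdeal) :
    ∃ δ : L ≃ₐ[ℚ] L, δ ζ = ζ ^ p ∧ ∀ x y : 𝓞 L, (y : L) = δ x → (x ∈ P.asIdeal ↔ y ∈ P.asIdeal) := by
  have hPp := P.isPrime
  have hfin : Finite (𝓞 L ⧸ P.asIdeal) := Ideal.finiteQuotientOfFreeOfNeBot P.asIdeal P.ne_bot
  obtain ⟨σ, hσ⟩ := IsArithFrobAt.exists_of_isInvariant ℤ (L ≃ₐ[ℚ] L) P.asIdeal
  have hcoe : ∀ x : 𝓞 L, ((MulSemiringAction.toAlgHom ℤ (𝓞 L) σ x : 𝓞 L) : L) = σ x :=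
    fun x => rfl
  refine ⟨σ, ?_, ?_⟩
  · have hℓ0 : 0 < ℓ := Nat.pos_of_ne_zero fun h => hℓ (h ▸ dvd_zero p)
    have hint : IsIntegral ℤ ζ := IsIntegral.of_pow hℓ0 (by rw [hζ]; exact isIntegral_one)
    let z : 𝓞 L := ⟨ζ, hint⟩
    have hz : z ^ ℓ = 1 := by
      apply RingOfIntegers.ext
      exact hζ
    have hℓP : ((ℓ : ℕ) : 𝓞 L) ∉ P.asIdeal := by
      intro h
      have hco : IsCoprime (p : ℤ) (ℓ : ℤ) :=
        Nat.isCoprime_iff_coprime.2 ((Nat.Prime.coprime_iff_not_dvd hp).2 hℓ)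
      obtain ⟨a, b, hab⟩ := hco
      apply hPp.ne_top
      rw [Ideal.eq_top_iff_one]
      have h1 : (1 : 𝓞 L) = (a : 𝓞 L) * (p : 𝓞 L) + (b : 𝓞 L) * (ℓ : 𝓞 L) := by
        exact_mod_cast congrArg (fun n : ℤ => (n : 𝓞 L)) hab.symm
      rw [h1]
      exact Ideal.add_mem _ (Ideal.mul_mem_left _ _ hP) (Ideal.mul_mem_left _ _ h)
    have hpr : Prime (p : ℤ) := Nat.prime_iff_prime_int.1 hp
    have hover : P.asIdeal.LiesOver (Ideal.span {(p : ℤ)}) :=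
      (Ideal.liesOver_span_iff Ideal.IsPrime.ne_top' hpr).2 (by simpa using hP)
    have hcard : Nat.card (ℤ ⧸ P.asIdeal.under ℤ) = p := by
      rw [← hover.over, Nat.card_congr (Int.quotientSpanNatEquivZMod p).toEquiv, Nat.card_zmod]
    have h2 := hσ.apply_of_pow_eq_one hz hℓP
    rw [hcard] at h2
    have h3 := congrArg (fun w : 𝓞 L => (w : L)) h2
    exact h3
  · intro x y hxy
    have h1 : y = MulSemiringAction.toAlgHom ℤ (𝓞 L) σ x := by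
      apply RingOfIntegers.ext
      rw [hcoe, hxy]
    have h2 := hσ.comap_eq
    rw [h1]
    conv_lhs => rw [← h2]
    exact Ideal.mem_comap

end Pool.Agent.Helper78.KUM
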