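import Pool.Agent.Helper78.KUM.GDefs
import Pool.Agent.Helper78.KUM.Frob
import Pool.Agent.Helper78.AST.PrimeVal
import Pool.Agent.Helper78.AST.Transit

/-!
# KUM-14 FrameEx: existence of the frame (short; adapt `exists_frame` in `Pool/Agent/Helper78/AST/FrameEx.lean`)

Only the field `lift` is different: `exists_frob` gives `δ` with `δ ζ = ζ ^ p` and `v ∘ δ = v` (`AST.pval_gal` with `P' = P`); then `δ ^ k` has `(δ ^ k) ζ = ζ ^ (p ^ k)` and `v ∘ δ ^ k = v` (induction on `k`).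
`ℓ ≥ 1` is not needed: `¬ p ∣ ℓ` excludes `ℓ = 0`.
-/

set_option autoImplicit false

open NumberField IsDedekindDomain

namespace Pool.Agent.Helper78.KUM

private theorem ke_prime (p : ℕ) [hp : Fact p.Prime] (L : Type) [Field L] [NumberField L] :
    ∃ P : HeightOneSpectrum (𝓞 L), (p : 𝓞 L) ∈ P.asIdeal := by
  have hpr : Prime (p : ℤ) := Nat.prime_iff_prime_int.1 hp.out
  have : (Ideal.span {(p : ℤ)}).IsMaximal :=
    PrincipalIdealRing.isMaximal_of_irreducible hpr.irreducible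
  obtain ⟨Q, hQ, hQp⟩ := Ideal.exists_maximal_ideal_liesOver_of_isIntegral (S := 𝓞 L)
    (Ideal.span {(p : ℤ)})
  have hmem : (p : 𝓞 L) ∈ Q := by
    have := (Ideal.liesOver_span_iff (P := Q) hQ.ne_top hpr).1 hQp
    simpa using this
  have hp0 : (p : 𝓞 L) ≠ 0 := Nat.cast_ne_zero.2 hp.out.ne_zero
  have hne : Q ≠ ⊥ := by
    rintro rfl
    exact hp0 (by simpa using hmem)
  exact ⟨⟨Q, hQ.isPrime, hne⟩, hmem⟩

private theorem ke_integral (p : ℕ) [hp : Fact p.Prime] (L : Type) [Field L] [NumberField L]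
    [IsGalois ℚ L] (P : HeightOneSpectrum (𝓞 L)) (hP : (p : 𝓞 L) ∈ P.asIdeal) (x : L)
    (hx : x ≠ 0) (hk : ∃ k : ℕ, IsIntegral ℤ ((p : L) ^ k * x))
    (h : ∀ γ : L ≃ₐ[ℚ] L, 0 ≤ AST.pval P (γ x)) : IsIntegral ℤ x := by
  apply AST.integral_of_pval x hx
  intro Q
  by_cases hQ : (p : 𝓞 L) ∈ Q.asIdeal
  · obtain ⟨γ, hγ⟩ := AST.exists_gal_prime p Q P hQ hP
    have h1 := AST.pval_gal Q P γ hγ x
    rw [← h1]
    exact h γ
  · obtain ⟨k, hk⟩ := hk
    have hp0 : p ≠ 0 := hp.out.ne_zero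
    have hpk : p ^ k ≠ 0 := pow_ne_zero _ hp0
    have hpL : ((p ^ k : ℕ) : L) ≠ 0 := Nat.cast_ne_zero.2 hpk
    have h1 : ((p ^ k : ℕ) : 𝓞 L) ∉ Q.asIdeal := by
      intro hmem
      rw [Nat.cast_pow] at hmem
      exact hQ (Q.isPrime.mem_of_pow_mem k hmem)
    have h2 := AST.pval_natCast_zero Q (p ^ k) hpk h1
    have h3 : ((p ^ k : ℕ) : L) * x = (p : L) ^ k * x := by rw [Nat.cast_pow]
    have h4 : 0 ≤ AST.pval Q (((p ^ k : ℕ) : L) * x) := by
      apply AST.pval_nonneg Q _ (mul_ne_zero hpL hx)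
      rw [h3]
      exact hk
    rw [AST.pval_mul Q _ _ hpL hx, h2, zero_add] at h4
    exact h4

theorem exists_frame (p : ℕ) (hp : p.Prime) (ℓ : ℕ) (hℓ : ¬ p ∣ ℓ) (L : IntermediateField ℚ ℂ)
    [FiniteDimensional ℚ L] [IsGalois ℚ L] (ζ : L) (hζ : ζ ^ ℓ = 1) : Nonempty (Frame p L ζ) := by
  have : NumberField L := ⟨⟩
  have : Fact p.Prime := ⟨hp⟩
  obtain ⟨P, hP⟩ := ke_prime p L
  obtain ⟨δ, hδ, hδP⟩ := exists_frob p hp ℓ hℓ ζ hζ P hP
  exact ⟨{
    v := AST.pval P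
    v_mul := fun x y hx hy => AST.pval_mul P x y hx hy
    v_add := fun x y hx hy hxy => AST.pval_add P x y hx hy hxy
    v_p := AST.pval_natCast_pos P p hp.ne_zero hP
    v_int := fun x hx hi => AST.pval_nonneg P x hx hi
    lift := fun k => by
      refine ⟨δ ^ k, ?_, ?_⟩
      · induction k with
        | zero => intro x; simp
        | succ k ih =>
          intro x
          rw [pow_succ, AlgEquiv.mul_apply, ih, AST.pval_gal P P δ hδP x]
      · induction k with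
        | zero => simp
        | succ k ih =>
          rw [pow_succ, AlgEquiv.mul_apply, hδ, map_pow, ih, ← pow_mul, pow_succ]
    integral := fun x hx hk h => ke_integral p L P hP x hx hk h }⟩

end Pool.Agent.Helper78.KUM
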