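import Pool.Agent.Helper78.KUM.Defs
import Pool.Agent.Helper78.AST.CDefs

/-!
# KUM: the data of the Galois side

`L` is a finite Galois extension of `ℚ` inside `ℂ` which contains an `ℓ`-th root of unity `ζ` and all eigenvalues;
`Frame p L ζ`: the valuation of a prime of `L` over `p`, with a Frobenius element and its powers (`lift`); `KData`: the frame and
the eigenvalues, permuted in blocks by the Galois group (`gal`), with `p ^ k = -1` modulo `ℓ` for some `k` (`neg`);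
`D.mu x = 2 v(x) - v(q)`; `D.Φ x γ = mu (γ β_x)` on the whole group, `D.φ x ν` the same on the group `D.NN` of the automorphisms of `L`
over `ℚ(ζ)`.
-/

set_option autoImplicit false

open Polynomial

namespace Pool.Agent.Helper78.KUM

/-- A prime of `L` over `p`. -/
structure Frame (p : ℕ) (L : IntermediateField ℚ ℂ) (ζ : L) where
  v : L → ℤ
  v_mul : ∀ x y : L, x ≠ 0 → y ≠ 0 → v (x * y) = v x + v y
  v_add : ∀ x y : L, x ≠ 0 → y ≠ 0 → x + y ≠ 0 → min (v x) (v y) ≤ v (x + y)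
  v_p : 0 < v (p : L)
  v_int : ∀ x : L, x ≠ 0 → IsIntegral ℤ x → 0 ≤ v x
  lift : ∀ k : ℕ, ∃ δ : L ≃ₐ[ℚ] L, (∀ x, v (δ x) = v x) ∧ δ ζ = ζ ^ (p ^ k)
  integral : ∀ x : L, x ≠ 0 → (∃ k : ℕ, IsIntegral ℤ ((p : L) ^ k * x)) →
    (∀ γ : L ≃ₐ[ℚ] L, 0 ≤ v (γ x)) → IsIntegral ℤ x

/-- The data of the proof. -/
structure KData (p ℓ q n : ℕ) (J : Type) (L : IntermediateField ℚ ℂ) where
  hp : p.Prime
  hℓ : ℓ.Prime
  h2 : ℓ ≠ 2
  s : ℕ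
  hs : 0 < s
  hq : q = p ^ s
  neg : ∃ k : ℕ, (p : ZMod ℓ) ^ k = -1
  ζ : L
  hζ : IsPrimitiveRoot ζ ℓ
  β : (J × (ZMod ℓ)ˣ) × Fin n → L
  gal : ∀ (γ : L ≃ₐ[ℚ] L) (a : (ZMod ℓ)ˣ), γ ζ = ζ ^ (a : ZMod ℓ).val → ∀ (j : J) (c : (ZMod ℓ)ˣ),
    ∃ π : Equiv.Perm (Fin n), ∀ i, γ (β ((j, c), i)) = β ((j, a * c), π i)
  int : ∀ x, IsIntegral ℤ (β x)
  norm : ∀ x, ‖(β x : ℂ)‖ ^ 2 = (q : ℝ)
  fr : Frame p L ζ

section

variable {p ℓ q n : ℕ} {J : Type} {L : IntermediateField ℚ ℂ}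

/-- `2 v(x) - v(q)`. -/
noncomputable def KData.mu (D : KData p ℓ q n J L) (x : L) : ℤ := 2 * D.fr.v x - D.fr.v (q : L)

/-- The automorphisms of `L` over `ℚ(ζ)`. -/
def KData.NN (D : KData p ℓ q n J L) : Subgroup (L ≃ₐ[ℚ] L) where
  carrier := {γ | γ D.ζ = D.ζ}
  mul_mem' := by
    intro a b ha hb
    simp only [Set.mem_ofPred_eq, AlgEquiv.mul_apply] at ha hb ⊢
    rw [hb, ha]
  one_mem' := by simp
  inv_mem' := by
    intro a ha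
    simp only [Set.mem_ofPred_eq] at ha ⊢
    calc a⁻¹ D.ζ = a⁻¹ (a D.ζ) := by rw [ha]
      _ = (a⁻¹ * a) D.ζ := rfl
      _ = D.ζ := by simp

/-- The function `γ ↦ mu (γ β_x)` on the Galois group. -/
noncomputable def KData.Φ (D : KData p ℓ q n J L) (x : (J × (ZMod ℓ)ˣ) × Fin n) (γ : L ≃ₐ[ℚ] L) : ℤ :=
  D.mu (γ (D.β x))

/-- The function `ν ↦ mu (ν β_x)` on the group `NN`. -/
noncomputable def KData.φ (D : KData p ℓ q n J L) (x : (J × (ZMod ℓ)ˣ) × Fin n) (ν : D.NN) : ℤ :=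
  D.mu ((ν : L ≃ₐ[ℚ] L) (D.β x))

/-- The norms of the traces of the blocks whose squares are not divisible by `q ^ (ℓ - 1)` have the same `p`-adic valuation. -/
def KData.Same (D : KData p ℓ q n J L) [Fintype (ZMod ℓ)ˣ] : Prop :=
  ∀ (j j' : J) (N N' : ℤ), (N : ℂ) = ∏ c : (ZMod ℓ)ˣ, -∑ i, (D.β ((j, c), i) : ℂ) →
    (N' : ℂ) = ∏ c : (ZMod ℓ)ˣ, -∑ i, (D.β ((j', c), i) : ℂ) →
    ¬ ((q : ℤ) ^ (ℓ - 1) ∣ N ^ 2) → ¬ ((q : ℤ) ^ (ℓ - 1) ∣ N' ^ 2) → padicValInt p N = padicValInt p N'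

end

end Pool.Agent.Helper78.KUM
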