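import Mathlib

/-!
# KUM-06 HassePow: Hasse derivatives of a power (short, Mathlib only)

Claim, for all `m` and `k`: there is `H` with `natDegree H ≤ (D - 1) k`, `D = f.natDegree ≥ 1`, and `f ^ k * hasseDeriv k (f ^ m) = f ^ m * H`.

First for `m = 1`: `k = 0`: `H = 1`; `k ≥ 1`: `H = f ^ (k - 1) * hasseDeriv k f`, `natDegree ≤ D (k - 1) + (D - k) ≤ (D - 1) k` if `k ≤ D` (`Polynomial.natDegree_hasseDeriv_le`), and `H = 0` if
`k > D` (`hasseDeriv_eq_zero_of_lt_natDegree`). Induction on `m` (`m = 0`: `hasseDeriv k 1 = 0` for `k ≥ 1`): `Polynomial.hasseDeriv_mul`: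
`f ^ k * hasseDeriv k (f ^ m * f) = ∑_{(i, j) ∈ antidiagonal k} (f ^ i * hasseDeriv i (f ^ m)) * (f ^ j * hasseDeriv j f) = ∑ f ^ m H_i * (f H'_j)`, and `natDegree (H_i H'_j) ≤ (D - 1) (i + j)`
(`natDegree_sum_le_of_forall_le`, `natDegree_mul_le`).
-/

set_option autoImplicit false

open Polynomial

namespace Pool.Agent.Helper78.KUM

private theorem hp_one {L : Type} [Field L] (f : L[X]) (hf : 1 ≤ f.natDegree) (k : ℕ) :
    ∃ H : L[X], H.natDegree ≤ (f.natDegree - 1) * k ∧ f ^ k * hasseDeriv k f = f * H := by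
  rcases Nat.eq_zero_or_pos k with rfl | hk
  · refine ⟨1, by simp, ?_⟩
    rw [pow_zero, one_mul, hasseDeriv_zero, mul_one]
    rfl
  · obtain ⟨j, rfl⟩ : ∃ j, k = j + 1 := ⟨k - 1, by omega⟩
    obtain ⟨D, hD⟩ : ∃ D, f.natDegree = D + 1 := ⟨f.natDegree - 1, by omega⟩
    refine ⟨f ^ j * hasseDeriv (j + 1) f, ?_, by ring⟩
    rcases Nat.lt_or_ge f.natDegree (j + 1) with h | h
    · rw [hasseDeriv_eq_zero_of_lt_natDegree f (j + 1) h, mul_zero, natDegree_zero]
      exact Nat.zero_le _
    · refine natDegree_mul_le.trans ?_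
      have h1 := natDegree_pow_le (p := f) (n := j)
      have h2 := natDegree_hasseDeriv_le f (j + 1)
      rw [hD] at h1 h2 h ⊢
      have e1 : j * (D + 1) + (D + 1 - (j + 1)) = (D + 1 - 1) * (j + 1) := by
        obtain ⟨r, hr⟩ : ∃ r, D = j + r := ⟨D - j, by omega⟩
        subst hr
        have : j + r + 1 - (j + 1) = r := by omega
        rw [this, Nat.add_sub_cancel]
        ring
      rw [← e1]
      exact add_le_add h1 h2

theorem hasse_pow {L : Type} [Field L] (f : L[X]) (hf : 1 ≤ f.natDegree) (m k : ℕ) :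
    ∃ H : L[X], H.natDegree ≤ (f.natDegree - 1) * k ∧ f ^ k * hasseDeriv k (f ^ m) = f ^ m * H := by
  induction m generalizing k with
  | zero =>
    rcases Nat.eq_zero_or_pos k with rfl | hk
    · refine ⟨1, by simp, ?_⟩
      rw [pow_zero, hasseDeriv_zero, one_mul, one_mul]
      rfl
    · refine ⟨0, by simp, ?_⟩
      rw [pow_zero, hasseDeriv_apply_one k hk, mul_zero, mul_zero]
  | succ m ih =>
    choose A hA1 hA2 using ih
    choose B hB1 hB2 using hp_one f hf
    refine ⟨∑ x ∈ Finset.HasAntidiagonal.antidiagonal k, A x.1 * B x.2, ?_, ?_⟩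
    · apply natDegree_sum_le_of_forall_le
      intro x hx
      rw [Finset.HasAntidiagonal.mem_antidiagonal] at hx
      refine natDegree_mul_le.trans ?_
      rw [← hx, mul_add]
      exact add_le_add (hA1 _) (hB1 _)
    · rw [pow_succ, hasseDeriv_mul, Finset.mul_sum, Finset.mul_sum]
      apply Finset.sum_congr rfl
      intro x hx
      rw [Finset.HasAntidiagonal.mem_antidiagonal] at hx
      calc f ^ k * (hasseDeriv x.1 (f ^ m) * hasseDeriv x.2 f)
          = (f ^ x.1 * hasseDeriv x.1 (f ^ m)) * (f ^ x.2 * hasseDeriv x.2 f) := by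
            rw [← hx, pow_add]
            ring
        _ = f ^ m * f * (A x.1 * B x.2) := by
            rw [hA2, hB2]
            ring

end Pool.Agent.Helper78.KUM
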