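import Pool.Agent.Helper78.KUM.Eigen

/-!
# KUM-12 IntGal: the eigenvalues are integral, and the Galois group permutes the blocks (compare `AST/IntEigen.lean`, `AST/GalBlock.lean`)

`ℓ` prime, `orderOf χ = ℓ`, `χ (-1) = 1`, `ℓ ∤ e i₀`; for a unit `c` of `ZMod ℓ` put `χ_c = χ ^ c.val`: then `χ_c ^ e i₀ ≠ 1` and `χ_c (-1) = 1`, so `isEigen_iff` applies to `χ_c`.

* `isIntegral_eigen`: `b i` is a root of the monic polynomial `lpoly χ_c a e n`, whose coefficients are sums of products of values of `χ`, i.e. of roots of unity or `0`, so integral (`IsIntegral` is transitive: the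
  integral closure of `ℤ` in `ℂ` is integrally closed, as in `AST/IntEigen.lean`).
* `gal_block`: `χ y ∈ {0} ∪ {ζ ^ t}` (for `y ≠ 0`, `(χ y) ^ ℓ = 1` and `ζ` is a primitive `ℓ`-th root of unity in `L ⊂ ℂ`: `IsPrimitiveRoot.eq_pow_of_pow_eq_one`), so `χ y = ((z y : L) : ℂ)` with `z y = 0` or `ζ ^ t`, and for
  every `m : ℕ`: `γ (z y ^ m) = z y ^ (m * x.val)` (`m ≥ 1` if `y = 0`; `x.val ≥ 1`). `A_k(c) = asum (pch χ_c a e) k = ∑_g ∏_i (χ_c (g(a_i))) ^ e_i` is the image of `B_k(c) = ∑_g ∏_i (z (g(a_i)) ^ c.val) ^ e_i ∈ L`, and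
  `γ (B_k(c)) = B_k(x c)` because `z y ^ (c.val * x.val) = z y ^ (x * c).val` (`ζ ^ ℓ = 1`, `(x * c).val = x.val * c.val % ℓ`; both exponents `≥ 1` for `y = 0`). If `e i = 0` for some `i` the factor is `1` in both.
  By `isEigen_iff` for `c` and `x c` in `L[X]` (`Polynomial.map_injective` for `L → ℂ`): `∏ (X - β i) = ∑ B_k(c) X ^ (n - k)`, apply `γ` to the coefficients: `∏ (X - γ (β i)) = ∏ (X - β' i)`; equal products of linear factors:
  a permutation (`AST/GalBlock.lean`: roots multisets; `Multiset.map_univ_eq_iff`-like).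
-/

set_option autoImplicit false

open Polynomial

namespace Pool.Agent.Helper78.KUM

variable {F : Type} [Field F] [Fintype F] (ℓ : ℕ) [Fact ℓ.Prime]

private theorem ig_val_ne (c : (ZMod ℓ)ˣ) : (c : ZMod ℓ).val ≠ 0 := by
  rw [Ne, ZMod.val_eq_zero]
  exact c.ne_zero

private theorem ig_not_dvd (c : (ZMod ℓ)ˣ) : ¬ ℓ ∣ (c : ZMod ℓ).val := fun h =>
  ig_val_ne ℓ c (Nat.eq_zero_of_dvd_of_lt h (ZMod.val_lt _))

private theorem ig_neg (χ : MulChar F ℂ) (h1 : χ (-1) = 1) (c : (ZMod ℓ)ˣ) :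
    (χ ^ (c : ZMod ℓ).val) (-1) = 1 := by
  rw [MulChar.pow_apply' χ (ig_val_ne ℓ c), h1, one_pow]

private theorem ig_ne (χ : MulChar F ℂ) (hχ : orderOf χ = ℓ) {m : ℕ} (h : ¬ ℓ ∣ m)
    (c : (ZMod ℓ)ˣ) : (χ ^ (c : ZMod ℓ).val) ^ m ≠ 1 := by
  intro h2
  rw [← pow_mul, ← orderOf_dvd_iff_pow_eq_one, hχ] at h2
  rcases (Fact.out : ℓ.Prime).dvd_mul.1 h2 with h3 | h3
  · exact ig_not_dvd ℓ c h3
  · exact h h3

private theorem ig_pow (χ : MulChar F ℂ) (hχ : orderOf χ = ℓ) {y : F} (hy : y ≠ 0) :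
    (χ y) ^ ℓ = 1 := by
  rw [← MulChar.pow_apply' χ (Fact.out : ℓ.Prime).ne_zero, ← hχ, pow_orderOf_eq_one]
  exact MulChar.one_apply (Ne.isUnit hy)

private theorem ig_int (χ : MulChar F ℂ) (hχ : orderOf χ = ℓ) (y : F) : IsIntegral ℤ (χ y) := by
  by_cases hy : y = 0
  · rw [hy, MulChar.map_zero]
    exact isIntegral_zero
  · exact IsIntegral.of_pow (n := ℓ) (Fact.out : ℓ.Prime).pos
      (by rw [ig_pow ℓ χ hχ hy]; exact isIntegral_one)

theorem isIntegral_eigen (χ : MulChar F ℂ) (hχ : orderOf χ = ℓ) (h1 : χ (-1) = 1) (n : ℕ)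
    (a : Fin (n + 1) → F) (ha : Function.Injective a) (e : Fin (n + 1) → ℕ) (i₀ : Fin (n + 1))
    (h : ¬ ℓ ∣ e i₀) (c : (ZMod ℓ)ˣ) (b : Fin n → ℂ) (hb : IsEigen (χ ^ (c : ZMod ℓ).val) a e b) (i : Fin n) :
    IsIntegral ℤ (b i) := by
  classical
  have hl := (isEigen_iff (χ ^ (c : ZMod ℓ).val) (ig_neg ℓ χ h1 c) n a ha e i₀
    (ig_ne ℓ χ hχ h c) b).1 hb
  have hc : ∀ k, IsIntegral ℤ (AST.asum (pch (χ ^ (c : ZMod ℓ).val) a e) k) := by
    intro k
    unfold AST.asum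
    refine IsIntegral.sum _ fun e' _ => ?_
    unfold pch
    refine IsIntegral.prod _ fun j _ => ?_
    rw [MulChar.pow_apply' χ (ig_val_ne ℓ c)]
    exact ((ig_int ℓ χ hχ _).pow _).pow _
  let A := integralClosure ℤ ℂ
  let P : A[X] := ∑ k ∈ Finset.range (n + 1),
    C (⟨AST.asum (pch (χ ^ (c : ZMod ℓ).val) a e) k, hc k⟩ : A) * X ^ (n - k)
  have hP : P.map (algebraMap A ℂ) = lpoly (χ ^ (c : ZMod ℓ).val) a e n := by
    simp only [P, lpoly, Polynomial.map_sum, Polynomial.map_mul, Polynomial.map_C, Polynomial.map_pow,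
      Polynomial.map_X]
    rfl
  have hmon : P.Monic := by
    refine Polynomial.monic_of_injective (f := algebraMap A ℂ) Subtype.val_injective ?_
    rw [hP]
    exact (lpoly_monic _ a e n).1
  have hroot : IsIntegral A (b i) := by
    refine ⟨P, hmon, ?_⟩
    rw [← Polynomial.eval_map, hP, ← hl, Polynomial.eval_prod]
    refine Finset.prod_eq_zero (Finset.mem_univ i) ?_
    simp
  exact isIntegral_trans (A := A) (b i) hroot

private theorem ig_perm {K : Type} [Field K] {m : ℕ} (u w : Fin m → K)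
    (h : ∏ i, (Polynomial.X - Polynomial.C (u i)) = ∏ i, (Polynomial.X - Polynomial.C (w i))) :
    ∃ π : Equiv.Perm (Fin m), ∀ i, u i = w (π i) := by
  classical
  have h1 : (Finset.univ : Finset (Fin m)).val.map u = (Finset.univ : Finset (Fin m)).val.map w := by
    have hu := Polynomial.roots_multiset_prod_X_sub_C ((Finset.univ : Finset (Fin m)).val.map u)
    have hw := Polynomial.roots_multiset_prod_X_sub_C ((Finset.univ : Finset (Fin m)).val.map w)
    rw [← hu, ← hw, Multiset.map_map, Multiset.map_map]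
    exact congrArg Polynomial.roots h
  have h2 : ∀ z : K, Fintype.card {i // u i = z} = Fintype.card {i // w i = z} := by
    intro z
    have h3 := congrArg (Multiset.count z) h1
    rw [Multiset.count_map, Multiset.count_map] at h3
    rw [Fintype.card_subtype, Fintype.card_subtype]
    have e1 : ∀ v : Fin m → K, (Finset.univ.filter (fun i => v i = z)).card =
        (Multiset.filter (fun a => z = v a) (Finset.univ : Finset (Fin m)).val).card := by
      intro v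
      have : (Finset.univ.filter (fun i => v i = z)) = Finset.univ.filter (fun i => z = v i) := by
        ext i; simp [eq_comm]
      rw [this]
      rfl
    rw [e1 u, e1 w]
    exact h3
  refine ⟨Equiv.ofFiberEquiv (f := u) (g := w) (fun z => Fintype.equivOfCardEq (h2 z)), ?_⟩
  intro i
  exact (Equiv.ofFiberEquiv_map (f := u) (g := w) (fun z => Fintype.equivOfCardEq (h2 z)) i).symm

/-- the coefficient in `L` -/
private noncomputable def igco {L : IntermediateField ℚ ℂ} (z : F → L) {N : ℕ} (a : Fin N → F)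
    (e : Fin N → ℕ) (m k : ℕ) : L :=
  ∑ e' : Fin k → F, ∏ i, (z ((AST.mon e').eval (a i)) ^ m) ^ e i

private noncomputable def igpo {L : IntermediateField ℚ ℂ} (z : F → L) {N : ℕ} (a : Fin N → F)
    (e : Fin N → ℕ) (m n : ℕ) : L[X] :=
  ∑ k ∈ Finset.range (n + 1), Polynomial.C (igco z a e m k) * Polynomial.X ^ (n - k)

private theorem igpo_map {L : IntermediateField ℚ ℂ} (z : F → L) (χ : MulChar F ℂ)
    (hz : ∀ y, (z y : ℂ) = χ y) {N : ℕ} (a : Fin N → F) (e : Fin N → ℕ) {m : ℕ} (hm : m ≠ 0)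
    (n : ℕ) : (igpo z a e m n).map (algebraMap L ℂ) = lpoly (χ ^ m) a e n := by
  unfold igpo lpoly
  rw [Polynomial.map_sum]
  apply Finset.sum_congr rfl
  intro k _
  rw [Polynomial.map_mul, Polynomial.map_C, Polynomial.map_pow, Polynomial.map_X]
  congr 2
  unfold igco AST.asum pch
  rw [map_sum]
  refine Finset.sum_congr rfl fun e' _ => ?_
  rw [map_prod]
  refine Finset.prod_congr rfl fun i _ => ?_
  rw [map_pow, map_pow, MulChar.pow_apply' χ hm]
  congr 2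
  exact hz _

private theorem igpo_gal {L : IntermediateField ℚ ℂ} (z : F → L) (γ : L ≃ₐ[ℚ] L) {N : ℕ}
    (a : Fin N → F) (e : Fin N → ℕ) {m m' : ℕ} (hg : ∀ y, γ (z y ^ m) = z y ^ m')
    (n : ℕ) : (igpo z a e m n).map (γ : L →+* L) = igpo z a e m' n := by
  unfold igpo
  rw [Polynomial.map_sum]
  apply Finset.sum_congr rfl
  intro k _
  rw [Polynomial.map_mul, Polynomial.map_C, Polynomial.map_pow, Polynomial.map_X]
  congr 2
  show γ (igco z a e m k) = igco z a e m' k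
  unfold igco
  rw [map_sum]
  refine Finset.sum_congr rfl fun e' _ => ?_
  rw [map_prod]
  refine Finset.prod_congr rfl fun i _ => ?_
  rw [map_pow, hg]

theorem gal_block (χ : MulChar F ℂ) (hχ : orderOf χ = ℓ) (h1 : χ (-1) = 1) (n : ℕ)
    (a : Fin (n + 1) → F) (ha : Function.Injective a) (e : Fin (n + 1) → ℕ) (i₀ : Fin (n + 1))
    (h : ¬ ℓ ∣ e i₀) (L : IntermediateField ℚ ℂ) (ζ : L) (hζ : IsPrimitiveRoot ζ ℓ) (γ : L ≃ₐ[ℚ] L)
    (x : (ZMod ℓ)ˣ) (hx : γ ζ = ζ ^ (x : ZMod ℓ).val) (c : (ZMod ℓ)ˣ) (β β' : Fin n → L)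
    (hβ : IsEigen (χ ^ (c : ZMod ℓ).val) a e (fun i => (β i : ℂ)))
    (hβ' : IsEigen (χ ^ ((x * c : (ZMod ℓ)ˣ) : ZMod ℓ).val) a e (fun i => (β' i : ℂ))) :
    ∃ π : Equiv.Perm (Fin n), ∀ i, γ (β i) = β' (π i) := by
  classical
  have hzC : IsPrimitiveRoot (ζ : ℂ) ℓ := hζ.map_of_injective (f := algebraMap L ℂ)
    (algebraMap L ℂ).injective
  have hzex : ∀ y : F, ∃ z : L, (z : ℂ) = χ y ∧ (z = 0 ∨ ∃ t : ℕ, z = ζ ^ t) := by
    intro y
    by_cases hy : y = 0
    · exact ⟨0, by rw [hy, MulChar.map_zero]; rfl, Or.inl rfl⟩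
    · obtain ⟨t, -, ht⟩ := hzC.eq_pow_of_pow_eq_one (ig_pow ℓ χ hχ hy)
      exact ⟨ζ ^ t, by rw [← ht]; push_cast; rfl, Or.inr ⟨t, rfl⟩⟩
  choose z hz hz' using hzex
  have hg : ∀ y, γ (z y ^ (c : ZMod ℓ).val) = z y ^ ((x * c : (ZMod ℓ)ˣ) : ZMod ℓ).val := by
    intro y
    rcases hz' y with h0 | ⟨t, ht⟩
    · rw [h0, zero_pow (ig_val_ne ℓ c), zero_pow (ig_val_ne ℓ (x * c)), map_zero]
    · rw [ht, map_pow, map_pow, hx, Units.val_mul, ZMod.val_mul]
      have h2 : (ζ ^ t) ^ ℓ = 1 := by rw [← pow_mul, mul_comm, pow_mul, hζ.pow_eq_one, one_pow]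
      have h3 : (ζ ^ t) ^ ((x : ZMod ℓ).val * (c : ZMod ℓ).val % ℓ) =
          (ζ ^ t) ^ ((x : ZMod ℓ).val * (c : ZMod ℓ).val) := (pow_eq_pow_mod _ h2).symm
      rw [h3]
      ring
  have hpo : ∀ (d : (ZMod ℓ)ˣ) (δ : Fin n → L),
      IsEigen (χ ^ (d : ZMod ℓ).val) a e (fun i => (δ i : ℂ)) →
      ∏ i, (Polynomial.X - Polynomial.C (δ i)) = igpo z a e (d : ZMod ℓ).val n := by
    intro d δ hδ
    apply Polynomial.map_injective (algebraMap L ℂ) (algebraMap L ℂ).injective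
    rw [igpo_map z χ hz a e (ig_val_ne ℓ d), Polynomial.map_prod,
      ← (isEigen_iff (χ ^ (d : ZMod ℓ).val) (ig_neg ℓ χ h1 d) n a ha e i₀
        (ig_ne ℓ χ hχ h d) _).1 hδ]
    refine Finset.prod_congr rfl fun i _ => ?_
    rw [Polynomial.map_sub, Polynomial.map_X, Polynomial.map_C]
    rfl
  apply ig_perm (fun i => γ (β i)) β'
  have h2 := congrArg (Polynomial.map (γ : L →+* L)) (hpo c β hβ)
  rw [igpo_gal z γ a e hg, Polynomial.map_prod] at h2
  rw [hpo (x * c) β' hβ', ← h2]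
  refine Finset.prod_congr rfl fun i _ => ?_
  rw [Polynomial.map_sub, Polynomial.map_X, Polynomial.map_C]
  rfl

end Pool.Agent.Helper78.KUM
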