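import Pool.Agent.Helper78.KUM.Defs
import Pool.Agent.Helper78.AST.LDefs

/-!
# KUM: definitions for the L-function

`pch χ a e g = ∏ χ(g(a_i)) ^ e_i`, a completely multiplicative function of the polynomial `g`; `AST.asum (pch χ a e) m` (the sum over the monic
polynomials `AST.mon` of degree `m`) is the `m`-th coefficient of the L-function; `lpoly χ a e n = ∑_{m ≤ n} asum m X ^ (n - m)`.
-/

set_option autoImplicit false

open Polynomial

namespace Pool.Agent.Helper78.KUM

open Pool.Agent.Helper78.AST (asum ssum mon)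

/-- `∏ χ(g(a_i)) ^ e_i`. -/
noncomputable def pch {F : Type} [Field F] (χ : MulChar F ℂ) {k : ℕ} (a : Fin k → F) (e : Fin k → ℕ)
    (g : F[X]) : ℂ :=
  ∏ i, χ (g.eval (a i)) ^ e i

/-- The L-polynomial. -/
noncomputable def lpoly {F : Type} [Field F] [Fintype F] (χ : MulChar F ℂ) {k : ℕ} (a : Fin k → F)
    (e : Fin k → ℕ) (n : ℕ) : ℂ[X] :=
  ∑ m ∈ Finset.range (n + 1), C (asum (pch χ a e) m) * X ^ (n - m)

end Pool.Agent.Helper78.KUM
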