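import Pool.Agent.Helper78.KUM.Weil
import Pool.Agent.Helper78.KUM.IntGal
import Pool.Agent.Helper78.KUM.FrameEx
import Pool.Agent.Helper78.KUM.CaseA
import Pool.Agent.Helper78.KUM.CaseB
import Pool.Agent.Helper78.AST.ClosureRel
import Pool.Agent.Helper78.AST.FrameEx

/-!
# KUM-23 Main: the relations (assembly; helper78)
-/

set_option autoImplicit false

open Polynomial

namespace Pool.Agent.Helper78.KUM

open Pool.Agent.Helper78.AST (IsRel block shortRels phiGen oneGen Equi Orth closure_rel exists_field)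

section Char

variable {F : Type} [Field F] [Fintype F] (ℓ : ℕ) [Fact ℓ.Prime]

omit [Fintype F] in
theorem char_neg_one (h2 : ℓ ≠ 2) (χ : MulChar F ℂ) (hχ : orderOf χ = ℓ) : χ (-1) = 1 := by
  have hℓ : ℓ.Prime := Fact.out
  have h3 : χ ^ ℓ = 1 := by rw [← hχ]; exact pow_orderOf_eq_one χ
  have h4 : χ (-1) ^ ℓ = 1 := by
    have h5 := congrArg (fun ψ : MulChar F ℂ => ψ (-1)) h3
    have h6 : IsUnit (-1 : F) := isUnit_one.neg
    simp only [MulChar.pow_apply' χ hℓ.ne_zero, MulChar.one_apply h6] at h5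
    exact h5
  have h5 : χ (-1) ^ 2 = 1 := by
    rw [← map_pow]
    simp
  have hodd : Odd ℓ := hℓ.odd_of_ne_two h2
  obtain ⟨k, hk⟩ := hodd
  rw [hk, pow_succ, pow_mul, h5, one_pow, one_mul] at h4
  exact h4

theorem char_pow_ne (χ : MulChar F ℂ) (hχ : orderOf χ = ℓ) (c : (ZMod ℓ)ˣ) (m : ℕ) (hm : ¬ ℓ ∣ m) :
    (χ ^ (c : ZMod ℓ).val) ^ m ≠ 1 := by
  have hℓ : ℓ.Prime := Fact.out
  intro h
  rw [← pow_mul] at h
  have h1 : ℓ ∣ (c : ZMod ℓ).val * m := by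
    have h0 := orderOf_dvd_of_pow_eq_one h
    rwa [hχ] at h0
  rcases hℓ.dvd_mul.mp h1 with h2 | h2
  · have h3 : ((c : ZMod ℓ).val : ZMod ℓ) = 0 := (ZMod.natCast_eq_zero_iff _ _).mpr h2
    rw [ZMod.natCast_zmod_val] at h3
    exact c.ne_zero h3
  · exact hm h2

omit [Fintype F] in
theorem char_pow_pow (χ : MulChar F ℂ) (hχ : orderOf χ = ℓ) (c : (ZMod ℓ)ˣ) :
    (χ ^ (c : ZMod ℓ).val) ^ ℓ = 1 := by
  rw [← pow_mul, mul_comm, pow_mul]
  have : χ ^ ℓ = 1 := by rw [← hχ]; exact pow_orderOf_eq_one χ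
  rw [this, one_pow]

theorem char_pow_neg_one (h2 : ℓ ≠ 2) (χ : MulChar F ℂ) (hχ : orderOf χ = ℓ) (c : (ZMod ℓ)ˣ) :
    (χ ^ (c : ZMod ℓ).val) (-1) = 1 := by
  have h6 : IsUnit (-1 : F) := isUnit_one.neg
  have h7 : (c : ZMod ℓ).val ≠ 0 := by
    intro h
    rw [ZMod.val_eq_zero] at h
    exact c.ne_zero h
  rw [MulChar.pow_apply' χ h7, char_neg_one ℓ h2 χ hχ, one_pow]

end Char

section

variable {F : Type} [Field F] [Fintype F] (ℓ : ℕ) [Fact ℓ.Prime]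

theorem exists_data (h2 : ℓ ≠ 2) (χ : MulChar F ℂ) (hχ : orderOf χ = ℓ) (n : ℕ) {J : Type} [Fintype J]
    (a : J → Fin (n + 1) → F) (ha : ∀ j, Function.Injective (a j)) (e : J → Fin (n + 1) → ℕ)
    (he : ∀ j i, ¬ ℓ ∣ e j i) (hs : ∀ j, ¬ ℓ ∣ ∑ i, e j i) (p : ℕ) [CharP F p]
    (hneg : ∃ k : ℕ, (p : ZMod ℓ) ^ k = -1) (b : (J × (ZMod ℓ)ˣ) × Fin n → ℂ)
    (hb : ∀ (j : J) (c : (ZMod ℓ)ˣ), IsEigen (χ ^ (c : ZMod ℓ).val) (a j) (e j) (fun i => b ((j, c), i))) :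
    ∃ (L : IntermediateField ℚ ℂ) (_ : FiniteDimensional ℚ L) (_ : IsGalois ℚ L)
      (D : KData p ℓ (Fintype.card F) n J L), ∀ x, (D.β x : ℂ) = b x := by
  classical
  have hℓ : ℓ.Prime := Fact.out
  have hp : p.Prime := (CharP.char_is_prime_or_zero F p).resolve_right (CharP.char_ne_zero_of_finite F p)
  have h1 := char_neg_one ℓ h2 χ hχ
  have hint : ∀ x, IsIntegral ℤ (b x) := by
    rintro ⟨⟨j, c⟩, i⟩
    exact isIntegral_eigen ℓ χ hχ h1 n (a j) (ha j) (e j) 0 (he j 0) c _ (hb j c) i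
  have hnorm : ∀ x, ‖b x‖ ^ 2 = (Fintype.card F : ℝ) := by
    rintro ⟨⟨j, c⟩, i⟩
    exact weil ℓ hℓ (χ ^ (c : ZMod ℓ).val) (char_pow_pow ℓ χ hχ c) (char_pow_neg_one ℓ h2 χ hχ c) n (a j)
      (ha j) (e j) (fun i => char_pow_ne ℓ χ hχ c _ (he j i)) (char_pow_ne ℓ χ hχ c _ (hs j)) _ (hb j c) i
  let z : ℂ := Complex.exp (2 * Real.pi * Complex.I / ℓ)
  have hz0 : IsPrimitiveRoot z ℓ := Complex.isPrimitiveRoot_exp ℓ hℓ.ne_zero
  obtain ⟨L, i1, i2, h3⟩ := exists_field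
    (insert z (Finset.univ.image b)) (by
      intro w hw
      rw [Finset.mem_insert, Finset.mem_image] at hw
      rcases hw with rfl | ⟨x, _, rfl⟩
      · exact (hz0.isIntegral hℓ.pos).tower_top
      · exact (hint x).tower_top)
  have hz : z ∈ L := h3 _ (Finset.mem_insert_self _ _)
  have hbL : ∀ x, b x ∈ L := fun x =>
    h3 _ (Finset.mem_insert_of_mem (Finset.mem_image_of_mem _ (Finset.mem_univ x)))
  let ζ : L := ⟨z, hz⟩
  have hζ : IsPrimitiveRoot ζ ℓ := by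
    rw [← IsPrimitiveRoot.coe_submonoidClass_iff]
    exact hz0
  have hpl : ¬ p ∣ ℓ := by
    intro h
    have h4 : p = ℓ := (Nat.prime_dvd_prime_iff_eq hp hℓ).mp h
    subst h4
    obtain ⟨k, hk⟩ := hneg
    have : Fact p.Prime := ⟨hp⟩
    have h5 : ((p : ℕ) : ZMod p) = 0 := ZMod.natCast_self p
    rw [h5] at hk
    rcases Nat.eq_zero_or_pos k with rfl | hk0
    · rw [pow_zero] at hk
      have : Fact (2 < p) := ⟨lt_of_le_of_ne hp.two_le (Ne.symm h2)⟩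
      exact ZMod.neg_one_ne_one hk.symm
    · rw [zero_pow hk0.ne'] at hk
      have h6 : (1 : ZMod p) = 0 := by
        have := congrArg Neg.neg hk
        simpa using this.symm
      exact one_ne_zero h6
  obtain ⟨fr⟩ := exists_frame p hp ℓ hpl L ζ hζ.pow_eq_one
  obtain ⟨s, -, hcard⟩ := FiniteField.card F p
  have hinc : ∀ x : L, IsIntegral ℤ (x : ℂ) → IsIntegral ℤ x := fun x hx =>
    (isIntegral_algebraMap_iff (A := L) (B := ℂ) (algebraMap L ℂ).injective).mp hx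
  refine ⟨L, i1, i2, ⟨hp, hℓ, h2, s, s.pos, hcard, hneg, ζ, hζ, fun x => ⟨b x, hbL x⟩, ?_,
    fun x => hinc _ (hint x), hnorm, fr⟩, fun x => rfl⟩
  intro γ x hx j c
  exact gal_block ℓ χ hχ h1 n (a j) (ha j) (e j) 0 (he j 0) L ζ hζ γ x hx c
    (fun i => ⟨b ((j, c), i), hbL _⟩) (fun i => ⟨b ((j, x * c), i), hbL _⟩) (hb j c) (hb j (x * c))

theorem isRel_block {p q n : ℕ} {J : Type} [Fintype J] [DecidableEq J] {L : IntermediateField ℚ ℂ}
    [FiniteDimensional ℚ L] [IsGalois ℚ L] (D : KData p ℓ q n J L) (a : J × (ZMod ℓ)ˣ) (γ : L ≃ₐ[ℚ] L) :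
    ∑ x, (block a : (J × (ZMod ℓ)ˣ) × Fin n → ℤ) x * D.Φ x γ = 0 := by
  rw [Fintype.sum_prod_type]
  rw [Finset.sum_eq_single a]
  · simp only [block, if_true, one_mul]
    obtain ⟨j, c⟩ := a
    exact D.sum_zeroG j c γ
  · intro b _ hb
    refine Finset.sum_eq_zero fun i _ => ?_
    simp [block, hb]
  · intro h
    exact absurd (Finset.mem_univ a) h

theorem relations (h2 : ℓ ≠ 2) (χ : MulChar F ℂ) (hχ : orderOf χ = ℓ) (n : ℕ) {J : Type} [Fintype J]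
    [DecidableEq J] (a : J → Fin (n + 1) → F) (ha : ∀ j, Function.Injective (a j)) (e : J → Fin (n + 1) → ℕ)
    (he : ∀ j i, ¬ ℓ ∣ e j i) (hs : ∀ j, ¬ ℓ ∣ ∑ i, e j i) (p : ℕ) [CharP F p]
    (hneg : ∃ k : ℕ, (p : ZMod ℓ) ^ k = -1) (b : (J × (ZMod ℓ)ˣ) × Fin n → ℂ)
    (hb : ∀ (j : J) (c : (ZMod ℓ)ˣ), IsEigen (χ ^ (c : ZMod ℓ).val) (a j) (e j) (fun i => b ((j, c), i)))
    (h : (n ≤ 3 ∧ Prim p ℓ ∧ SameSlope p ℓ χ a e) ∨
      ((TwoTransitive ℓ b ∨ (n.Prime ∧ Transitive ℓ b)) ∧ Independent ℓ b))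
    (m : (J × (ZMod ℓ)ˣ) × Fin n → ℤ) :
    IsRel (Fintype.card F) b m ↔ m ∈ AddSubgroup.closure (shortRels (Fintype.card F) b) := by
  classical
  obtain ⟨L, i1, i2, D, hD⟩ := exists_data ℓ h2 χ hχ n a ha e he hs p hneg b hb
  obtain rfl : b = fun x => (D.β x : ℂ) := funext fun x => (hD x).symm
  have : Fintype D.NN := Fintype.ofFinite _
  have : Fintype (L ≃ₐ[ℚ] L) := Fintype.ofFinite _
  constructor
  · intro hm
    rcases h with ⟨h3, hpr, hsl⟩ | ⟨ht, hi⟩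
    · have hS : D.Same := by
        intro j j' N N' hN hN' hd hd'
        have key : ∀ j, ∏ c : (ZMod ℓ)ˣ, charSum (χ ^ (c : ZMod ℓ).val) (a j) (e j) F =
            ∏ c : (ZMod ℓ)ˣ, -∑ i, (D.β ((j, c), i) : ℂ) := by
          intro j
          refine Finset.prod_congr rfl fun c _ => ?_
          rw [hb j c F, Module.finrank_self]
          simp
        refine hsl j j' N N' ?_ ?_ hd hd'
        · rw [hN, key]
        · rw [hN', key]
      have hcase := D.caseA hpr h3 hS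
      have hgen : phiGen D.φ = shortRels (Fintype.card F) (fun x => (D.β x : ℂ)) := by
        ext m'
        simp only [phiGen, shortRels, Set.mem_ofPred_eq, D.rel_iff hpr]
      rw [D.rel_iff hpr] at hm
      rw [← hgen]
      exact closure_rel D.φ hcase.1 hcase.2 m hm
    · have hcase := D.caseB ht hi
      have hgen : phiGen D.Φ = shortRels (Fintype.card F) (fun x => (D.β x : ℂ)) := by
        ext m'
        simp only [phiGen, shortRels, Set.mem_ofPred_eq, D.rel_iffG]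
      rw [D.rel_iffG] at hm
      rw [← hgen]
      exact closure_rel D.Φ hcase.1 hcase.2 m hm
  · intro hm
    have hgen : phiGen D.Φ = shortRels (Fintype.card F) (fun x => (D.β x : ℂ)) := by
      ext m'
      simp only [phiGen, shortRels, Set.mem_ofPred_eq, D.rel_iffG]
    rw [D.rel_iffG]
    rw [← hgen] at hm
    refine AddSubgroup.closure_induction (p := fun m _ => ∀ γ : L ≃ₐ[ℚ] L, ∑ x, m x * D.Φ x γ = 0) ?_ ?_ ?_ ?_ hm
    · rintro m' (⟨hm', _⟩ | ⟨a, rfl⟩) γ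
      · exact hm' γ
      · exact isRel_block ℓ D a γ
    · intro γ
      simp
    · intro m₁ m₂ _ _ h₁ h₂ γ
      simp only [Pi.add_apply, add_mul, Finset.sum_add_distrib, h₁ γ, h₂ γ, add_zero]
    · intro m₁ _ h₁ γ
      simp only [Pi.neg_apply, neg_mul, Finset.sum_neg_distrib, h₁ γ, neg_zero]

end

end Pool.Agent.Helper78.KUM
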