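import Pool.Agent.Helper78.KUM.LDefs
import Pool.Agent.Helper78.AST.PhiP

/-!
# KUM-01 NormSumF: the character sum over an extension in terms of irreducible polynomials

Adapt `Pool/Agent/Helper78/AST/Trace.lean` (`trace_aeval`, `sum_trace`).

`E / F` an extension of finite fields of degree `k`, `x : E`, `π = minpoly F x`, monic irreducible of degree `d ∣ k`.

* `norm_sub`: `N_{E/F}(x - a) = (-1) ^ k * π(a) ^ (k / d)`. E.g. the minimal polynomial of `x - a` is `π(X + a)` (`minpoly.sub_algebraMap`-like), of degree `d`, and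
  `N y = ((-1) ^ d * (minpoly F y).coeff 0) ^ (k / d)` (from `Algebra.norm_eq_norm_adjoin`, `PowerBasis.norm_gen_eq_coeff_zero_minpoly`, or
  `Algebra.norm_eq_prod_roots`, or `Algebra.charpoly`/`minpoly` : the characteristic polynomial of multiplication by `y` is `minpoly ^ (k / d)`), and
  `(-1) ^ (d * (k / d)) = (-1) ^ k`.
* `pch_one`, `pch_mul`: clear (`Polynomial.eval_mul`, `map_mul`, `mul_pow`, `Finset.prod_mul_distrib`).
* `sum_norm`: `χ(N ∏ (x - a_i) ^ e_i) = ∏ χ(N (x - a_i)) ^ e_i = ∏ (χ(-1) ^ k * χ(π(a_i)) ^ (k / d)) ^ e_i = (pch χ a e π) ^ (k / d)` because `χ (-1) = 1`. Then group the `x : E`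
  by their minimal polynomial exactly as in `sum_trace`: every monic irreducible `π` of degree `d ∣ k` has exactly `d` roots in `E`.
-/

set_option autoImplicit false

open Polynomial

namespace Pool.Agent.Helper78.KUM

open Pool.Agent.Helper78.AST (asum ssum mon mon_monic mon_natDegree mon_injective mon_surjective)

variable {F : Type} [Field F]

theorem pch_one (χ : MulChar F ℂ) {k : ℕ} (a : Fin k → F) (e : Fin k → ℕ) : pch χ a e 1 = 1 := by
  unfold pch
  simp

theorem pch_mul (χ : MulChar F ℂ) {k : ℕ} (a : Fin k → F) (e : Fin k → ℕ) (g g' : F[X]) :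
    pch χ a e (g * g') = pch χ a e g * pch χ a e g' := by
  unfold pch
  rw [← Finset.prod_mul_distrib]
  refine Finset.prod_congr rfl fun i _ => ?_
  rw [Polynomial.eval_mul, map_mul, mul_pow]

theorem norm_sub [Fintype F] (E : Type) [Field E] [Fintype E] [Algebra F E] (a : F) (x : E) :
    Algebra.norm F (x - algebraMap F E a) = (-1) ^ Module.finrank F E *
      (minpoly F x).eval a ^ (Module.finrank F E / (minpoly F x).natDegree) := by
  have : FiniteDimensional F E := Module.Finite.of_finite
  have hx : IsIntegral F x := Algebra.IsIntegral.isIntegral x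
  obtain ⟨y, hy⟩ : ∃ y, y = x - algebraMap F E a := ⟨_, rfl⟩
  have hyi : IsIntegral F y := Algebra.IsIntegral.isIntegral y
  have hmin : minpoly F y = (minpoly F x).comp (X + C a) := by
    rw [hy, minpoly.sub_algebraMap]
  have hdeg : (minpoly F y).natDegree = (minpoly F x).natDegree := by
    rw [hmin, natDegree_comp, natDegree_X_add_C, mul_one]
  have hc0 : (minpoly F y).coeff 0 = (minpoly F x).eval a := by
    rw [hmin, coeff_zero_eq_eval_zero, eval_comp]
    simp
  have hfin : Module.finrank F (IntermediateField.adjoin F {y}) = (minpoly F y).natDegree :=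
    IntermediateField.adjoin.finrank hyi
  have htower : Module.finrank F (IntermediateField.adjoin F {y}) *
      Module.finrank (IntermediateField.adjoin F {y}) E = Module.finrank F E :=
    Module.finrank_mul_finrank _ _ _
  have hpos : 0 < (minpoly F y).natDegree := minpoly.natDegree_pos hyi
  have hquot : Module.finrank F E / (minpoly F y).natDegree =
      Module.finrank (IntermediateField.adjoin F {y}) E := by
    rw [← htower, hfin, Nat.mul_div_cancel_left _ hpos]
  obtain ⟨pb, hpb⟩ : ∃ pb, pb = IntermediateField.adjoin.powerBasis hyi := ⟨_, rfl⟩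
  have hgen : pb.gen = IntermediateField.AdjoinSimple.gen F y := by rw [hpb]; rfl
  have hming : minpoly F pb.gen = minpoly F y := by
    rw [hgen, IntermediateField.minpoly_gen]
  have hdim : pb.dim = (minpoly F y).natDegree := by
    rw [← pb.natDegree_minpoly, hming]
  rw [← hy, Algebra.norm_eq_norm_adjoin F y, ← hgen, Algebra.PowerBasis.norm_gen_eq_coeff_zero_minpoly,
    hming, hdim, hc0, mul_pow, ← hquot, ← pow_mul, hdeg]
  congr 2
  rw [Nat.mul_div_cancel' (minpoly.degree_dvd hx)]

theorem root_of_dvd [Fintype F] (E : Type) [Field E] [Fintype E] [Algebra F E] (π : F[X])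
    (hm : π.Monic) (hi : Irreducible π) (hd : π.natDegree ∣ Module.finrank F E) :
    ∃ x : E, minpoly F x = π := by
  have : FiniteDimensional F E := Module.Finite.of_finite
  have hdvd : π ∣ Polynomial.X ^ (Nat.card F) ^ (Module.finrank F E) - Polynomial.X :=
    hi.natDegree_dvd_iff_dvd_X_pow_card_pow_sub_X.mp hd
  have hcard : (Nat.card F) ^ (Module.finrank F E) = Fintype.card E := by
    rw [← Module.natCard_eq_pow_finrank, Nat.card_eq_fintype_card]
  rw [hcard] at hdvd
  have hne : ((Polynomial.X ^ Fintype.card E - Polynomial.X : F[X]).map (algebraMap F E)) ≠ 0 := by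
    rw [Polynomial.map_sub, Polynomial.map_pow, Polynomial.map_X]
    exact FiniteField.X_pow_card_sub_X_ne_zero E Fintype.one_lt_card
  have hs : (π.map (algebraMap F E)).Splits :=
    Splits.of_dvd (FiniteField.isSplittingField_sub E F).splits hne (Polynomial.map_dvd _ hdvd)
  have hdeg : (π.map (algebraMap F E)).degree ≠ 0 := by
    rw [Polynomial.degree_map]
    exact (Polynomial.degree_pos_of_irreducible hi).ne'
  obtain ⟨x, hx⟩ := hs.exists_eval_eq_zero hdeg
  rw [Polynomial.eval_map_algebraMap] at hx
  exact ⟨x, (minpoly.eq_of_irreducible_of_monic hi hx hm).symm⟩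

open Classical in
theorem card_fib [Fintype F] (E : Type) [Field E] [Fintype E] [Algebra F E] (x : E) :
    ((Finset.univ : Finset E).filter fun y => minpoly F y = minpoly F x).card =
      (minpoly F x).natDegree := by
  have : FiniteDimensional F E := Module.Finite.of_finite
  have hsep : (minpoly F x).Separable := Algebra.IsSeparable.isSeparable F x
  have hspl : ((minpoly F x).map (algebraMap F E)).Splits := Normal.splits inferInstance x
  rw [← card_rootSet_eq_natDegree hsep hspl, ← Set.toFinset_card]
  congr 1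
  ext y
  rw [Finset.mem_filter, Set.mem_toFinset, Polynomial.mem_rootSet]
  have hxi : IsIntegral F x := Algebra.IsIntegral.isIntegral x
  have hyi : IsIntegral F y := Algebra.IsIntegral.isIntegral y
  constructor
  · rintro ⟨_, h⟩
    exact ⟨minpoly.ne_zero hxi, by rw [← h]; exact minpoly.aeval F y⟩
  · rintro ⟨_, h⟩
    exact ⟨Finset.mem_univ _,
      (minpoly.eq_of_irreducible_of_monic (minpoly.irreducible hxi) h (minpoly.monic hxi)).symm⟩

theorem sum_norm [Fintype F] (E : Type) [Field E] [Fintype E] [Algebra F E] (χ : MulChar F ℂ)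
    (h1 : χ (-1) = 1) {k : ℕ} (a : Fin k → F) (e : Fin k → ℕ) :
    charSum χ a e E = ssum (pch χ a e) (Module.finrank F E) := by
  classical
  have : FiniteDimensional F E := Module.Finite.of_finite
  have hk : Module.finrank F E ≠ 0 := Module.finrank_pos.ne'
  obtain ⟨g, hg⟩ : ∃ g : F[X] → ℂ, g = fun π =>
    pch χ a e π ^ (Module.finrank F E / π.natDegree) := ⟨_, rfl⟩
  have h0 : ∀ x : E, χ (Algebra.norm F (∏ i, (x - algebraMap F E (a i)) ^ e i)) = g (minpoly F x) := by
    intro x
    rw [map_prod, map_prod, hg]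
    show _ = (∏ i, χ ((minpoly F x).eval (a i)) ^ e i) ^ _
    rw [← Finset.prod_pow]
    refine Finset.prod_congr rfl fun i _ => ?_
    rw [map_pow, map_pow, norm_sub, map_mul, map_pow, map_pow, h1, one_pow, one_mul, ← pow_mul, ← pow_mul, mul_comm]
  unfold charSum
  rw [Finset.sum_congr rfl fun x _ => h0 x, Finset.sum_comp g (fun x : E => minpoly F x)]
  unfold ssum
  simp only [Finset.mul_sum]
  rw [Finset.sum_sigma']
  symm
  refine Finset.sum_bij (fun a _ => mon a.2) ?_ ?_ ?_ ?_
  · rintro ⟨d, c⟩ ha
    rw [Finset.mem_sigma, Finset.mem_filter, Nat.mem_divisors] at ha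
    obtain ⟨x, hx⟩ := root_of_dvd E (mon c) (mon_monic c) ha.2.2
      (by rw [mon_natDegree]; exact ha.1.1)
    rw [Finset.mem_image]
    exact ⟨x, Finset.mem_univ _, hx⟩
  · rintro ⟨d, c⟩ _ ⟨d', c'⟩ _ h
    have hd : d = d' := by
      have h2 : (mon c).natDegree = (mon c').natDegree := congrArg Polynomial.natDegree h
      rwa [mon_natDegree, mon_natDegree] at h2
    subst hd
    have h2 : c = c' := mon_injective h
    rw [h2]
  · intro π hπ
    rw [Finset.mem_image] at hπ
    obtain ⟨x, _, hx⟩ := hπ
    have hxi : IsIntegral F x := Algebra.IsIntegral.isIntegral x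
    obtain ⟨c, he⟩ := mon_surjective (minpoly F x) (minpoly.monic hxi)
    refine ⟨⟨(minpoly F x).natDegree, c⟩, ?_, ?_⟩
    · rw [Finset.mem_sigma, Finset.mem_filter, Nat.mem_divisors]
      refine ⟨⟨minpoly.degree_dvd hxi, hk⟩, Finset.mem_univ _, ?_⟩
      show Irreducible (mon c)
      rw [he]
      exact minpoly.irreducible hxi
    · show mon c = π
      rw [he, hx]
  · rintro ⟨d, c⟩ ha
    rw [Finset.mem_sigma, Finset.mem_filter, Nat.mem_divisors] at ha
    obtain ⟨x, hx⟩ := root_of_dvd E (mon c) (mon_monic c) ha.2.2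
      (by rw [mon_natDegree]; exact ha.1.1)
    show (d : ℂ) * pch χ a e (mon c) ^ (Module.finrank F E / d) =
      ((Finset.univ : Finset E).filter fun y => minpoly F y = mon c).card • g (mon c)
    rw [← hx, card_fib E x, hx, mon_natDegree, hg, nsmul_eq_mul]
    show (d : ℂ) * pch χ a e (mon c) ^ (Module.finrank F E / d) =
      (d : ℂ) * pch χ a e (mon c) ^ (Module.finrank F E / (mon c).natDegree)
    rw [mon_natDegree]

end Pool.Agent.Helper78.KUM
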