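import Pool.Agent.Helper78.KUM.GDefs
import Pool.Agent.Helper78.AST.Kron

/-!
# KUM-15 RelCrit: the relations in terms of the valuations (adapt `Pool/Agent/Helper78/AST/RelCrit.lean`)

* `norm_gal`: `γ ζ = ζ ^ a.val` for a unit `a` (`γ ζ` is a primitive `ℓ`-th root of unity), `gal`, `norm`.
* `rel_iffG`: as `Data.rel_iff` there, with all `γ ∈ Gal(L/ℚ)` on the right side (the step with `mu_lift` is not needed).
* `mu_lift` (`p` a primitive root): as there: `γ ζ = ζ ^ a.val`, `a = p ^ k`, `lift k`: `δ`; `ν = δ⁻¹ γ`.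
* `rel_iff`: from `rel_iffG` and `mu_lift`.
-/

set_option autoImplicit false

open Polynomial

namespace Pool.Agent.Helper78.KUM

open Pool.Agent.Helper78.AST (IsRel kron conjL)

variable {p ℓ q n : ℕ} [NeZero ℓ] {J : Type} {L : IntermediateField ℚ ℂ}

theorem KData.exists_pow (D : KData p ℓ q n J L) (γ : L ≃ₐ[ℚ] L) :
    ∃ a : (ZMod ℓ)ˣ, γ D.ζ = D.ζ ^ (a : ZMod ℓ).val := by
  have hz := D.hζ
  have hp : ℓ.Prime := D.hℓ
  haveI : Fact ℓ.Prime := ⟨hp⟩
  have h1 : (γ D.ζ) ^ ℓ = 1 := by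
    rw [← map_pow, hz.pow_eq_one, map_one]
  obtain ⟨i, hi, hi'⟩ := hz.eq_pow_of_pow_eq_one h1
  have hi0 : (i : ZMod ℓ) ≠ 0 := by
    intro h0
    rw [ZMod.natCast_eq_zero_iff] at h0
    have : i = 0 := Nat.eq_zero_of_dvd_of_lt h0 hi
    rw [this, pow_zero] at hi'
    have h2 : D.ζ = 1 := by
      apply γ.injective
      rw [map_one, ← hi']
    exact hz.ne_one hp.one_lt h2
  refine ⟨Units.mk0 (i : ZMod ℓ) hi0, ?_⟩
  rw [Units.val_mk0, ZMod.val_cast_of_lt hi, hi']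

theorem KData.norm_gal (D : KData p ℓ q n J L) (γ : L ≃ₐ[ℚ] L) (x : (J × (ZMod ℓ)ˣ) × Fin n) :
    ‖((γ (D.β x) : L) : ℂ)‖ ^ 2 = (q : ℝ) := by
  obtain ⟨⟨j, c⟩, i⟩ := x
  obtain ⟨a, ha⟩ := D.exists_pow γ
  obtain ⟨π, hπ⟩ := D.gal γ a ha j c
  rw [hπ i]
  exact D.norm _

private theorem KData.q_pos (D : KData p ℓ q n J L) : 0 < q := by
  rw [D.hq]
  exact pow_pos D.hp.pos _

private theorem KData.q_cast (D : KData p ℓ q n J L) : (q : L) = (p : L) ^ D.s := by
  have h := congrArg (Nat.cast : ℕ → L) D.hq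
  rwa [Nat.cast_pow] at h

theorem KData.beta_ne_zero (D : KData p ℓ q n J L) (x : (J × (ZMod ℓ)ˣ) × Fin n) : D.β x ≠ 0 := by
  intro h
  have h1 := D.norm x
  rw [h] at h1
  have h2 : (0 : ℝ) < (q : ℝ) := by exact_mod_cast D.q_pos
  rw [← h1] at h2
  simp at h2

theorem KData.mu_lift (D : KData p ℓ q n J L) (hpr : Prim p ℓ) (γ : L ≃ₐ[ℚ] L) :
    ∃ ν : D.NN, ∀ x, D.fr.v (γ x) = D.fr.v ((ν : L ≃ₐ[ℚ] L) x) := by
  obtain ⟨a, ha⟩ := D.exists_pow γ
  obtain ⟨k, hk⟩ := hpr a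
  obtain ⟨δ, hδ, hζ0⟩ := D.fr.lift k
  have hζ : δ D.ζ = D.ζ ^ (a : ZMod ℓ).val := by
    rw [hζ0, pow_eq_pow_mod (p ^ k) D.hζ.pow_eq_one]
    congr 1
    rw [← hk, ← Nat.cast_pow, ZMod.val_natCast]
  have h1 : ∀ x, δ ((δ.symm) x) = x := fun x => δ.apply_symm_apply x
  refine ⟨⟨γ.trans δ.symm, ?_⟩, ?_⟩
  · change (γ.trans δ.symm) D.ζ = D.ζ
    rw [AlgEquiv.trans_apply, ha, ← hζ, AlgEquiv.symm_apply_apply]
  · intro x
    change D.fr.v (γ x) = D.fr.v ((γ.trans δ.symm) x)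
    rw [AlgEquiv.trans_apply, ← hδ (δ.symm (γ x)), h1]

section

variable {ζ : L}

private theorem Frame.v_one (fr : Frame p L ζ) : fr.v 1 = 0 := by
  have h := fr.v_mul 1 1 one_ne_zero one_ne_zero
  rw [mul_one] at h
  omega

private theorem Frame.v_npow (fr : Frame p L ζ) (x : L) (hx : x ≠ 0) (k : ℕ) :
    fr.v (x ^ k) = k * fr.v x := by
  induction k with
  | zero => simp [fr.v_one]
  | succ k ih =>
    rw [pow_succ, fr.v_mul _ _ (pow_ne_zero _ hx) hx, ih]
    push_cast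
    ring

private theorem Frame.v_inv (fr : Frame p L ζ) (x : L) (hx : x ≠ 0) : fr.v x⁻¹ = - fr.v x := by
  have h := fr.v_mul x x⁻¹ hx (inv_ne_zero hx)
  rw [mul_inv_cancel₀ hx, fr.v_one] at h
  omega

private theorem Frame.v_zpow (fr : Frame p L ζ) (x : L) (hx : x ≠ 0) (k : ℤ) :
    fr.v (x ^ k) = k * fr.v x := by
  obtain ⟨k, rfl | rfl⟩ := k.eq_nat_or_neg
  · rw [zpow_natCast, fr.v_npow x hx]
  · rw [zpow_neg, zpow_natCast, fr.v_inv _ (pow_ne_zero _ hx), fr.v_npow x hx]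
    ring

private theorem Frame.v_prod (fr : Frame p L ζ) {ι : Type} (s : Finset ι) (g : ι → L)
    (h : ∀ i, g i ≠ 0) : fr.v (∏ i ∈ s, g i) = ∑ i ∈ s, fr.v (g i) := by
  classical
  induction s using Finset.induction_on with
  | empty => simp [fr.v_one]
  | insert a s ha ih =>
    rw [Finset.prod_insert ha, Finset.sum_insert ha,
      fr.v_mul _ _ (h a) (Finset.prod_ne_zero_iff.mpr (fun i _ => h i)), ih]

end

/-- integral after multiplication with a power of `p` -/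
private def PInt (p : ℕ) {K : Type} [Field K] (x : K) : Prop := ∃ k : ℕ, IsIntegral ℤ ((p : K) ^ k * x)

private theorem PInt.mul {K : Type} [Field K] {x y : K} (hx : PInt p x) (hy : PInt p y) : PInt p (x * y) := by
  obtain ⟨k, hk⟩ := hx
  obtain ⟨l, hl⟩ := hy
  refine ⟨k + l, ?_⟩
  have : (p : K) ^ (k + l) * (x * y) = ((p : K) ^ k * x) * ((p : K) ^ l * y) := by ring
  rw [this]
  exact hk.mul hl

private theorem PInt.one {K : Type} [Field K] : PInt p (1 : K) :=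
  ⟨0, by simpa using isIntegral_one⟩

private theorem PInt.of_int {K : Type} [Field K] {x : K} (hx : IsIntegral ℤ x) : PInt p x :=
  ⟨0, by simpa using hx⟩

private theorem PInt.npow {K : Type} [Field K] {x : K} (hx : PInt p x) (k : ℕ) : PInt p (x ^ k) := by
  induction k with
  | zero => rw [pow_zero]; exact PInt.one
  | succ k ih => rw [pow_succ]; exact ih.mul hx

private theorem PInt.zpow {K : Type} [Field K] {x : K} (hx : PInt p x) (hx' : PInt p x⁻¹) (k : ℤ) :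
    PInt p (x ^ k) := by
  obtain ⟨k, rfl | rfl⟩ := k.eq_nat_or_neg
  · rw [zpow_natCast]; exact hx.npow k
  · rw [zpow_neg, zpow_natCast, ← inv_pow]; exact hx'.npow k

private theorem PInt.prod {K : Type} [Field K] {ι : Type} (s : Finset ι) (g : ι → K)
    (h : ∀ i, PInt p (g i)) : PInt p (∏ i ∈ s, g i) := by
  classical
  induction s using Finset.induction_on with
  | empty => rw [Finset.prod_empty]; exact PInt.one
  | insert a s ha ih => rw [Finset.prod_insert ha]; exact (h a).mul ih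

private theorem KData.V_pos (D : KData p ℓ q n J L) : 0 < D.fr.v (q : L) := by
  have hp0 : (p : L) ≠ 0 := by
    exact_mod_cast D.hp.ne_zero
  have h : (q : L) = (p : L) ^ D.s := D.q_cast
  rw [h, D.fr.v_npow _ hp0]
  have := D.fr.v_p
  have h2 := D.hs
  positivity

private theorem KData.card_ne_zero (D : KData p ℓ q n J L) : (q : L) ≠ 0 := by
  exact_mod_cast D.q_pos.ne'

private theorem zpow_sum' {K X : Type} [Field K] (q : K) (hq : q ≠ 0) (s : Finset X) (m : X → ℤ) :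
    q ^ (∑ x ∈ s, m x) = ∏ x ∈ s, q ^ m x := by
  classical
  induction s using Finset.induction_on with
  | empty => simp
  | insert a s ha ih => rw [Finset.sum_insert ha, Finset.prod_insert ha, zpow_add₀ hq, ih]

private theorem KData.norm_prod [Fintype J] (D : KData p ℓ q n J L) (γ : L ≃ₐ[ℚ] L)
    (m : (J × (ZMod ℓ)ˣ) × Fin n → ℤ) :
    ‖∏ x, ((γ (D.β x) : L) : ℂ) ^ m x‖ ^ 2 = (q : ℝ) ^ (∑ x, m x) := by
  have hq : (q : ℝ) ≠ 0 := by exact_mod_cast D.q_pos.ne'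
  rw [_root_.norm_prod, ← Finset.prod_pow, zpow_sum' _ hq]
  apply Finset.prod_congr rfl
  intro x _
  rw [norm_zpow, ← D.norm_gal γ x, ← zpow_natCast, ← zpow_natCast, ← zpow_mul, ← zpow_mul, mul_comm]

theorem KData.rel_iffG [Fintype J] [FiniteDimensional ℚ L] [IsGalois ℚ L] (D : KData p ℓ q n J L)
    (m : (J × (ZMod ℓ)ˣ) × Fin n → ℤ) :
    IsRel q (fun x => (D.β x : ℂ)) m ↔ ∀ γ : L ≃ₐ[ℚ] L, ∑ x, m x * D.Φ x γ = 0 := by
  have hb := D.beta_ne_zero
  have hq1 : 1 < (q : ℝ) := by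
    have h9 : 1 < q := by
      rw [D.hq]
      exact Nat.one_lt_pow D.hs.ne' D.hp.one_lt
    exact_mod_cast h9
  have hq0 : (q : ℝ) ≠ 0 := by positivity
  have hqL := D.card_ne_zero
  have hγb : ∀ (γ : L ≃ₐ[ℚ] L) x, γ (D.β x) ≠ 0 := fun γ x =>
    (map_ne_zero_iff γ γ.injective).mpr (hb x)
  constructor
  · rintro ⟨k, j, hk, h⟩ ν
    have hL : (∏ x, D.β x ^ m x) ^ k = (q : L) ^ j := by
      apply (algebraMap L ℂ).injective
      rw [map_pow, map_prod, map_zpow₀, map_natCast]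
      rw [← h]
      congr 1
    have hν := congrArg (fun y => D.fr.v ((ν) y)) hL
    simp only [map_pow, map_prod, map_zpow₀, map_natCast] at hν
    rw [D.fr.v_npow _ (Finset.prod_ne_zero_iff.mpr (fun x _ => zpow_ne_zero _ (hγb _ x))),
      D.fr.v_prod _ _ (fun x => zpow_ne_zero _ (hγb _ x)), D.fr.v_zpow _ hqL] at hν
    have hs : (∑ x, D.fr.v ((ν) (D.β x) ^ m x)) =
        ∑ x, m x * D.fr.v ((ν) (D.β x)) :=
      Finset.sum_congr rfl (fun x _ => D.fr.v_zpow _ (hγb _ x) _)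
    rw [hs] at hν
    have h1 := congrArg (fun y : ℂ => ‖y‖ ^ 2) h
    have h2 := D.norm_prod AlgEquiv.refl m
    simp only [AlgEquiv.coe_refl, id_eq] at h2
    simp only [norm_pow, norm_zpow, Complex.norm_natCast] at h1
    rw [← pow_mul, mul_comm k 2, pow_mul, h2, ← zpow_natCast, ← zpow_mul, ← zpow_natCast, ← zpow_mul] at h1
    have h3 : (∑ x, m x) * (k : ℤ) = j * ((2 : ℕ) : ℤ) := zpow_right_injective₀ (by positivity) hq1.ne' h1
    have h4 : (k : ℤ) * ∑ x, m x * D.Φ x ν = 0 := by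
      have h5 : ∑ x, m x * D.Φ x ν = 2 * (∑ x, m x * D.fr.v ((ν) (D.β x))) -
          (∑ x, m x) * D.fr.v (q : L) := by
        rw [Finset.mul_sum, Finset.sum_mul, ← Finset.sum_sub_distrib]
        apply Finset.sum_congr rfl
        intro x _
        unfold KData.Φ KData.mu
        ring
      rw [h5]
      push_cast at h3
      linear_combination 2 * hν - D.fr.v (q : L) * h3
    have hk' : (k : ℤ) ≠ 0 := by exact_mod_cast hk.ne'
    exact (mul_eq_zero.mp h4).resolve_left hk'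
  · intro h
    have hγ : ∀ γ : L ≃ₐ[ℚ] L, ∑ x, m x * D.mu (γ (D.β x)) = 0 := by
      intro γ
      exact h γ
    have hcard := D.hq
    obtain ⟨ι, hι⟩ := conjL L
    have hP0 : (∏ x, D.β x ^ m x) ≠ 0 :=
      Finset.prod_ne_zero_iff.mpr (fun x _ => zpow_ne_zero _ (hb x))
    set u : L := (∏ x, D.β x ^ m x) ^ 2 * (q : L) ^ (-(∑ x, m x)) with hu
    have hu0 : u ≠ 0 := mul_ne_zero (pow_ne_zero _ hP0) (zpow_ne_zero _ hqL)
    have hγu : ∀ γ : L ≃ₐ[ℚ] L, γ u = (∏ x, (γ (D.β x)) ^ m x) ^ 2 * (q : L) ^ (-(∑ x, m x)) := by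
      intro γ
      rw [hu]
      simp only [map_mul, map_pow, map_prod, map_zpow₀, map_natCast]
    have hnorm : ∀ γ : L ≃ₐ[ℚ] L, ‖((γ u : L) : ℂ)‖ = 1 := by
      intro γ
      have e : ((γ u : L) : ℂ) = (∏ x, ((γ (D.β x) : L) : ℂ) ^ m x) ^ 2 *
          (q : ℂ) ^ (-(∑ x, m x)) := by
        rw [hγu]
        have : ∀ y : L, (y : ℂ) = algebraMap L ℂ y := fun _ => rfl
        simp only [this]
        simp only [map_mul, map_pow, map_prod, map_zpow₀, map_natCast]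
      rw [e, norm_mul, norm_pow, D.norm_prod γ m, norm_zpow, Complex.norm_natCast, ← zpow_add₀ hq0,
        add_neg_cancel, zpow_zero]
    have hval : ∀ γ : L ≃ₐ[ℚ] L, D.fr.v (γ u) = 0 := by
      intro γ
      rw [hγu, D.fr.v_mul _ _ (pow_ne_zero _ (Finset.prod_ne_zero_iff.mpr (fun x _ =>
        zpow_ne_zero _ (hγb _ x)))) (zpow_ne_zero _ hqL),
        D.fr.v_npow _ (Finset.prod_ne_zero_iff.mpr (fun x _ => zpow_ne_zero _ (hγb _ x))),
        D.fr.v_prod _ _ (fun x => zpow_ne_zero _ (hγb _ x)), D.fr.v_zpow _ hqL]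
      have hs : (∑ x, D.fr.v (γ (D.β x) ^ m x)) = ∑ x, m x * D.fr.v (γ (D.β x)) :=
        Finset.sum_congr rfl (fun x _ => D.fr.v_zpow _ (hγb _ x) _)
      rw [hs]
      have h5 : ∑ x, m x * D.mu (γ (D.β x)) = 2 * (∑ x, m x * D.fr.v (γ (D.β x))) -
          (∑ x, m x) * D.fr.v (q : L) := by
        rw [Finset.mul_sum, Finset.sum_mul, ← Finset.sum_sub_distrib]
        apply Finset.sum_congr rfl
        intro x _
        unfold KData.mu
        ring
      rw [hγ] at h5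
      push_cast
      linear_combination -h5
    have hp0 : (p : L) ≠ 0 := by
      exact_mod_cast D.hp.ne_zero
    have hpi : PInt p (p : L) := PInt.of_int (by
      have := isIntegral_algebraMap (R := ℤ) (A := L) (x := (p : ℤ))
      simpa using this)
    have hpi' : PInt p (p : L)⁻¹ := ⟨1, by
      rw [pow_one, mul_inv_cancel₀ hp0]
      exact isIntegral_one⟩
    have hqi : ∀ k : ℤ, PInt p ((q : L) ^ k) := by
      intro k
      rw [D.q_cast, ← zpow_natCast, ← zpow_mul]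
      exact hpi.zpow hpi' _
    have hbi : ∀ x, PInt p (D.β x) := fun x => PInt.of_int (D.int x)
    have hbi' : ∀ x, PInt p (D.β x)⁻¹ := by
      intro x
      have e1 : D.β x * ι (D.β x) = (q : L) := by
        apply (algebraMap L ℂ).injective
        rw [map_mul, map_natCast]
        have : ∀ y : L, algebraMap L ℂ y = (y : ℂ) := fun _ => rfl
        rw [this, this, hι, Complex.mul_conj, Complex.normSq_eq_norm_sq, D.norm x]
        push_cast
        rfl
      have e2 : (D.β x)⁻¹ = ι (D.β x) * (q : L) ^ (-1 : ℤ) := by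
        rw [zpow_neg_one, ← e1, mul_inv, mul_comm (D.β x)⁻¹, ← mul_assoc,
          mul_inv_cancel₀ (hγb ι x), one_mul]
      rw [e2]
      refine PInt.mul (PInt.of_int ?_) (hqi _)
      exact (D.int x).map (ι.toAlgHom.restrictScalars ℤ)
    have hui : IsIntegral ℤ u := by
      apply D.fr.integral u hu0
      · have : PInt p u := by
          rw [hu]
          exact PInt.mul (PInt.npow (PInt.prod _ _ (fun x => (hbi x).zpow (hbi' x) _)) 2) (hqi _)
        exact this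
      · intro γ
        rw [hval]
    obtain ⟨k, hk, huk⟩ := kron L u hui hnorm
    refine ⟨2 * k, (k : ℤ) * ∑ x, m x, by omega, ?_⟩
    have e3 : (∏ x, D.β x ^ m x) ^ (2 * k) = (q : L) ^ ((k : ℤ) * ∑ x, m x) := by
      rw [hu, mul_pow, ← pow_mul, ← zpow_natCast ((q : L) ^ (-(∑ x, m x))), ← zpow_mul] at huk
      have e4 : (q : L) ^ (-(∑ x, m x) * (k : ℤ)) * (q : L) ^ ((k : ℤ) * ∑ x, m x) = 1 := by
        rw [← zpow_add₀ hqL]
        have : -(∑ x, m x) * (k : ℤ) + (k : ℤ) * ∑ x, m x = 0 := by ring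
        rw [this, zpow_zero]
      calc (∏ x, D.β x ^ m x) ^ (2 * k) = (∏ x, D.β x ^ m x) ^ (2 * k) *
            ((q : L) ^ (-(∑ x, m x) * (k : ℤ)) * (q : L) ^ ((k : ℤ) * ∑ x, m x)) := by
            rw [e4, mul_one]
        _ = (q : L) ^ ((k : ℤ) * ∑ x, m x) := by rw [← mul_assoc, huk, one_mul]
    have e5 := congrArg (algebraMap L ℂ) e3
    rw [map_pow, map_prod, map_zpow₀, map_natCast] at e5
    rw [← e5]
    congr 1

theorem KData.rel_iff [Fintype J] [FiniteDimensional ℚ L] [IsGalois ℚ L] (D : KData p ℓ q n J L)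
    (hpr : Prim p ℓ) (m : (J × (ZMod ℓ)ˣ) × Fin n → ℤ) :
    IsRel q (fun x => (D.β x : ℂ)) m ↔ ∀ ν : D.NN, ∑ x, m x * D.φ x ν = 0 := by
  rw [D.rel_iffG]
  constructor
  · intro h ν
    exact h (ν : L ≃ₐ[ℚ] L)
  · intro h γ
    obtain ⟨ν, hν⟩ := D.mu_lift hpr γ
    rw [← h ν]
    apply Finset.sum_congr rfl
    intro x _
    unfold KData.Φ KData.φ KData.mu
    rw [hν]

end Pool.Agent.Helper78.KUM
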