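import Pool.Agent.Helper78.KUM.RelCrit

/-!
# KUM-16 SlopeB: the slopes of the blocks (adapt `Pool/Agent/Helper78/AST/SlopeB.lean`)

`v = D.fr.v`, `V = v q`, `mu x = 2 v x - V`, `ι` = complex conjugation on `L` (`AST.conjL`): `ι ζ = ζ⁻¹ = ζ ^ (-1 : ZMod ℓ).val`; if `‖x‖ ^ 2 = q` then `x * ι x = q`, so `mu (ι x) = - mu x`.
Let `D.neg` give `k` with `p ^ k = -1` in `ZMod ℓ`, and `δ` from `lift k`: `v ∘ δ = v`, `δ ζ = ζ ^ (p ^ k) = ζ ^ (-1 : ZMod ℓ).val` (`ζ ^ ℓ = 1`).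

* `sym`: `gal` for `δ ι`, `(δ ι) ζ = ζ`: `δ ι β ((j, c), i) = β ((j, c), π i)` and `mu (δ ι x) = mu (ι x) = - mu x`.
* `conjBlock`: `gal` for `ι`: `β ((j, -c), π i) = ι β ((j, c), i)`, and `β * ι β = q`, so for every `γ`: `γ β * γ ι β = q` and `mu (γ ι β) = - mu (γ β)`.
* `tau`: `τ = δ ι ∈ NN`; `y = γ β_x` has `‖y‖ ^ 2 = q` (`norm_gal`), `mu (τ y) = - mu y`.
* `sum_zeroG`: `γ β ((j, c), i) = β ((j, a c), π i)`, so the sum is `∑_i mu (β ((j, a c), i))`, which is its own negative by `sym`. `sum_zero` is the case `γ ∈ NN`.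
* `val`: as in AST (`gal` with `a = 1`).
* `same` (`p` a primitive root): `a = c' c⁻¹ = p ^ k`, `lift k`, `gal`.
-/

set_option autoImplicit false

open Polynomial

namespace Pool.Agent.Helper78.KUM

variable {p ℓ q n : ℕ} [NeZero ℓ] {J : Type} {L : IntermediateField ℚ ℂ} [FiniteDimensional ℚ L] [IsGalois ℚ L]

private theorem sb_pow_eq {ζ : L} (hz : IsPrimitiveRoot ζ ℓ) {k : ℕ} {a : ZMod ℓ}
    (h : (p : ZMod ℓ) ^ k = a) : ζ ^ (p ^ k) = ζ ^ a.val := by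
  rw [pow_eq_pow_mod (p ^ k) hz.pow_eq_one]
  congr 1
  rw [← h, ← Nat.cast_pow, ZMod.val_natCast]

private theorem sb_mu_of_mul (D : KData p ℓ q n J L) (x y : L) (h : x * y = (q : L)) :
    D.mu y = -D.mu x := by
  have hq : ((q : ℕ) : L) ≠ 0 := by
    have h1 : q ≠ 0 := by
      rw [D.hq]
      exact pow_ne_zero _ D.hp.ne_zero
    exact_mod_cast h1
  have hx : x ≠ 0 := by
    rintro rfl
    rw [zero_mul] at h
    exact hq h.symm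
  have hy : y ≠ 0 := by
    rintro rfl
    rw [mul_zero] at h
    exact hq h.symm
  have h1 := D.fr.v_mul x y hx hy
  rw [h] at h1
  unfold KData.mu
  linarith

private theorem sb_mul_conj_eq (ι : L ≃ₐ[ℚ] L)
    (hι : ∀ x : L, ((ι x : L) : ℂ) = (starRingEnd ℂ) (x : ℂ))
    (x : L) (q : ℕ) (hx : ‖(x : ℂ)‖ ^ 2 = (q : ℝ)) : x * ι x = (q : L) := by
  apply Subtype.val_injective
  change ((x * ι x : L) : ℂ) = ((q : L) : ℂ)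
  have h1 : ((x * ι x : L) : ℂ) = (x : ℂ) * ((ι x : L) : ℂ) := rfl
  rw [h1, hι, Complex.mul_conj, Complex.normSq_eq_norm_sq, hx]
  simp

private theorem sb_mul_conj_zeta (D : KData p ℓ q n J L) (ι : L ≃ₐ[ℚ] L)
    (hι : ∀ x : L, ((ι x : L) : ℂ) = (starRingEnd ℂ) (x : ℂ)) : D.ζ * ι D.ζ = 1 := by
  have h := sb_mul_conj_eq ι hι D.ζ 1 (by
    have h1 : ((D.ζ : L) : ℂ) ^ ℓ = 1 := by
      have h2 := congrArg (fun y : L => (y : ℂ)) D.hζ.pow_eq_one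
      simpa using h2
    have h3 : ‖((D.ζ : L) : ℂ)‖ = 1 := by
      have h4 : ‖((D.ζ : L) : ℂ)‖ ^ ℓ = 1 := by rw [← norm_pow, h1, norm_one]
      exact (pow_eq_one_iff_of_nonneg (norm_nonneg _) (NeZero.ne ℓ)).1 h4
    rw [h3]
    simp)
  rw [h, Nat.cast_one]

private theorem sb_conj_zeta (D : KData p ℓ q n J L) (ι : L ≃ₐ[ℚ] L)
    (hι : ∀ x : L, ((ι x : L) : ℂ) = (starRingEnd ℂ) (x : ℂ)) :
    ι D.ζ = D.ζ ^ (((-1 : (ZMod ℓ)ˣ) : ZMod ℓ)).val := by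
  have hz0 : D.ζ ≠ 0 := D.hζ.ne_zero (NeZero.ne ℓ)
  apply mul_left_cancel₀ hz0
  rw [sb_mul_conj_zeta D ι hι, ← pow_succ', eq_comm, D.hζ.pow_eq_one_iff_dvd,
    ← ZMod.natCast_eq_zero_iff]
  rw [Nat.cast_add, ZMod.natCast_zmod_val, Units.val_neg, Units.val_one, Nat.cast_one,
    neg_add_cancel]

private theorem sb_delta (D : KData p ℓ q n J L) (ι : L ≃ₐ[ℚ] L)
    (hι : ∀ x : L, ((ι x : L) : ℂ) = (starRingEnd ℂ) (x : ℂ)) :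
    ∃ δ : L ≃ₐ[ℚ] L, (∀ x, D.fr.v (δ x) = D.fr.v x) ∧ (δ * ι) D.ζ = D.ζ := by
  obtain ⟨k, hk⟩ := D.neg
  obtain ⟨δ, hv, hδ⟩ := D.fr.lift k
  have h1 := sb_conj_zeta D ι hι
  have h2 := sb_mul_conj_zeta D ι hι
  rw [sb_pow_eq D.hζ hk] at hδ
  rw [Units.val_neg, Units.val_one] at h1
  refine ⟨δ, hv, ?_⟩
  have h4 : δ (D.ζ * ι D.ζ) = 1 := by rw [h2, map_one]
  rw [map_mul, hδ, ← h1] at h4
  have h5 : ι D.ζ ≠ 0 := by
    intro h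
    rw [h, mul_zero] at h2
    exact zero_ne_one h2
  apply mul_left_cancel₀ h5
  rw [AlgEquiv.mul_apply, h4, mul_comm, h2]

private theorem sb_gal_one (D : KData p ℓ q n J L) (j : J) (c : (ZMod ℓ)ˣ) (γ : L ≃ₐ[ℚ] L)
    (hγ : γ D.ζ = D.ζ) :
    ∃ π : Equiv.Perm (Fin n), ∀ i, γ (D.β ((j, c), i)) = D.β ((j, c), π i) := by
  have h1 : γ D.ζ = D.ζ ^ (((1 : (ZMod ℓ)ˣ) : ZMod ℓ)).val := by
    have hp1 : Fact (1 < ℓ) := ⟨D.hℓ.one_lt⟩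
    rw [Units.val_one, ZMod.val_one, pow_one]
    exact hγ
  obtain ⟨π, hπ⟩ := D.gal γ 1 h1 j c
  rw [one_mul] at hπ
  exact ⟨π, hπ⟩

private theorem sb_mu_delta (D : KData p ℓ q n J L) {δ : L ≃ₐ[ℚ] L}
    (hv : ∀ x, D.fr.v (δ x) = D.fr.v x) (x : L) : D.mu (δ x) = D.mu x := by
  unfold KData.mu
  rw [hv]

theorem KData.sym (D : KData p ℓ q n J L) (j : J) (c : (ZMod ℓ)ˣ) :
    ∃ π : Equiv.Perm (Fin n), ∀ i, D.mu (D.β ((j, c), π i)) = -D.mu (D.β ((j, c), i)) := by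
  obtain ⟨ι, hι⟩ := Pool.Agent.Helper78.AST.conjL L
  obtain ⟨δ, hv, hδ⟩ := sb_delta D ι hι
  obtain ⟨π, hπ⟩ := sb_gal_one D j c (δ * ι) hδ
  refine ⟨π, fun i => ?_⟩
  rw [← hπ i, AlgEquiv.mul_apply, sb_mu_delta D hv]
  exact sb_mu_of_mul D _ _ (sb_mul_conj_eq ι hι _ _ (D.norm _))

theorem KData.conjBlock (D : KData p ℓ q n J L) (j : J) (c : (ZMod ℓ)ˣ) :
    ∃ π : Equiv.Perm (Fin n), ∀ i γ, D.Φ ((j, -c), i) γ = -D.Φ ((j, c), π i) γ := by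
  obtain ⟨ι, hι⟩ := Pool.Agent.Helper78.AST.conjL L
  obtain ⟨π, hπ⟩ := D.gal ι (-1) (sb_conj_zeta D ι hι) j c
  refine ⟨π.symm, fun i γ => ?_⟩
  have h1 := hπ (π.symm i)
  rw [Equiv.apply_symm_apply, neg_one_mul] at h1
  unfold KData.Φ
  rw [← h1]
  apply sb_mu_of_mul
  rw [← map_mul, sb_mul_conj_eq ι hι _ _ (D.norm _), map_natCast]

theorem KData.tau (D : KData p ℓ q n J L) : ∃ τ : D.NN, ∀ x ν, D.φ x (τ * ν) = -D.φ x ν := by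
  obtain ⟨ι, hι⟩ := Pool.Agent.Helper78.AST.conjL L
  obtain ⟨δ, hv, hδ⟩ := sb_delta D ι hι
  refine ⟨⟨δ * ι, hδ⟩, fun x ν => ?_⟩
  unfold KData.φ
  change D.mu (δ (ι ((ν : L ≃ₐ[ℚ] L) (D.β x)))) = _
  rw [sb_mu_delta D hv]
  exact sb_mu_of_mul D _ _ (sb_mul_conj_eq ι hι _ _ (D.norm_gal _ _))

theorem KData.sum_zeroG (D : KData p ℓ q n J L) (j : J) (c : (ZMod ℓ)ˣ) (γ : L ≃ₐ[ℚ] L) :
    ∑ i, D.Φ ((j, c), i) γ = 0 := by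
  obtain ⟨a, ha⟩ := D.exists_pow γ
  obtain ⟨π, hπ⟩ := D.gal γ a ha j c
  obtain ⟨π', hπ'⟩ := D.sym j (a * c)
  have h1 : ∑ i, D.Φ ((j, c), i) γ = ∑ i, D.mu (D.β ((j, a * c), i)) := by
    rw [← Equiv.sum_comp π (fun i => D.mu (D.β ((j, a * c), i)))]
    apply Finset.sum_congr rfl
    intro i _
    unfold KData.Φ
    rw [hπ]
  have h2 : ∑ i, D.mu (D.β ((j, a * c), i)) = -∑ i, D.mu (D.β ((j, a * c), i)) := by
    rw [← Finset.sum_neg_distrib, ← Equiv.sum_comp π' (fun i => D.mu (D.β ((j, a * c), i)))]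
    apply Finset.sum_congr rfl
    intro i _
    exact hπ' i
  rw [h1]
  linarith

theorem KData.sum_zero (D : KData p ℓ q n J L) (j : J) (c : (ZMod ℓ)ˣ) (ν : D.NN) :
    ∑ i, D.φ ((j, c), i) ν = 0 :=
  D.sum_zeroG j c (ν : L ≃ₐ[ℚ] L)

theorem KData.val (D : KData p ℓ q n J L) (j : J) (c : (ZMod ℓ)ˣ) (ν : D.NN) :
    ∃ π : Equiv.Perm (Fin n), ∀ i, D.φ ((j, c), i) ν = D.φ ((j, c), π i) 1 := by
  obtain ⟨π, hπ⟩ := sb_gal_one D j c (ν : L ≃ₐ[ℚ] L) ν.2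
  refine ⟨π, fun i => ?_⟩
  unfold KData.φ
  rw [hπ]
  rfl

theorem KData.same (D : KData p ℓ q n J L) (hpr : Prim p ℓ) (j : J) (c c' : (ZMod ℓ)ˣ) :
    ∃ π : Equiv.Perm (Fin n), ∀ i, D.mu (D.β ((j, c), i)) = D.mu (D.β ((j, c'), π i)) := by
  obtain ⟨k, hk⟩ := hpr (c' * c⁻¹)
  obtain ⟨δ, hv, hδ⟩ := D.fr.lift k
  rw [sb_pow_eq D.hζ hk] at hδ
  obtain ⟨π, hπ⟩ := D.gal δ (c' * c⁻¹) hδ j c
  rw [inv_mul_cancel_right] at hπ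
  refine ⟨π, fun i => ?_⟩
  rw [← hπ i, sb_mu_delta D hv]

end Pool.Agent.Helper78.KUM
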