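import Pool.Agent.Helper78.KUM.StepEx

/-!
# KUM-09 StepCount: the number of `x` with `f(x) ^ c = w` (elementary inequalities; adapt `Pool/Agent/Helper78/AST/StepCount.lean`)

`D = f.natDegree`, `ℓ ∤ D` (so `D ≥ 1`), `Q = card L = ℓ c + 1`, `K = 2 D ℓ ^ 2`, `J = ⌊√Q⌋` (`Nat.sqrt Q`), `N` the number of `x : L` with `(f.eval x) ^ c = w`, `w ≠ 0`.
Claim: `N ≤ Q / ℓ + 16 D ℓ ^ 2 √Q`.

* If `J < 2 K`: `N ≤ Q`, `√Q < J + 1 ≤ 2 K`, so `Q = √Q √Q ≤ 2 K √Q = 4 D ℓ ^ 2 √Q`.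
* If `J ≥ 2 K`: `M = ℓ (J - K)`, `B = c - J`. `B > 0`: `J ^ 2 ≤ Q = ℓ c + 1` and `J ≥ 4 D ℓ ^ 2`. `M ≤ ℓ J ≤ J ^ 2 ≤ Q`. Dimension condition, `J + B = c`:
  `∑_{k < M} (c + (D - 1) k) ≤ M c + (D - 1) M ^ 2 / 2` (multiply by 2) `= ℓ J c - ℓ K c + (D - 1) M ^ 2 / 2`, to be `< ℓ J (c - J) = ℓ J c - ℓ J ^ 2`, i.e. `(D - 1) M ^ 2 / 2 + ℓ J ^ 2 < ℓ K c`:
  `M ≤ ℓ J`, so the left side is `≤ ℓ J ^ 2 ((D - 1) ℓ / 2 + 1) ≤ ℓ J ^ 2 D ℓ`, and `J ^ 2 ≤ Q < 2 ℓ c` (`ℓ c > 1`), so it is `< 2 D ℓ ^ 3 c = ℓ K c`.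
  `exists_aux`: `∏_x (X - x) ^ M ∣ R` over the `N` elements (`AST/StepCount.lean`), so `N M ≤ natDegree R ≤ c ((ℓ - 1) D + J ℓ) ≤ c ℓ (D + J)`.
  So `N ≤ c (J + D) / (J - K) = c (1 + (D + K) / (J - K)) ≤ c + 2 c (D + K) / J` (`J - K ≥ J / 2`), `c ≤ Q / ℓ`, `Q / J ≤ 2 √Q` (`J ≥ √Q - 1 ≥ √Q / 2`), `D ≤ K`:
  the last term is `≤ 2 (2 K) (2 √Q) / ℓ = 16 D ℓ √Q`.
-/

set_option autoImplicit false

open Polynomial

namespace Pool.Agent.Helper78.KUM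

variable {L : Type} [Field L] [Fintype L] [DecidableEq L]

/-- A nonzero polynomial divisible by the `M`-th powers of `X - x`, `x` in `S`, has degree at least `M * card S`. -/
private theorem kum9_deg {L : Type} [Field L] (S : Finset L) (M : ℕ) (R : L[X]) (hR : R ≠ 0)
    (h : ∀ x ∈ S, (X - C x) ^ M ∣ R) : S.card * M ≤ R.natDegree := by
  have h1 : (∏ x ∈ S, (X - C x) ^ M) ∣ R := by
    apply Finset.prod_dvd_of_coprime
    · intro x _ y _ hxy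
      exact (isCoprime_X_sub_C_of_isUnit_sub (sub_ne_zero.2 hxy).isUnit).pow
    · exact h
  have h2 := natDegree_le_of_dvd h1 hR
  rw [natDegree_prod_of_monic _ _ fun x _ => (monic_X_sub_C x).pow M] at h2
  simpa [natDegree_pow] using h2

/-- A polynomial whose first `M` Hasse derivatives vanish at `x` is divisible by `(X - x) ^ M`. -/
private theorem kum9_dvd {L : Type} [Field L] (x : L) (M : ℕ) (R : L[X])
    (h : ∀ k < M, (hasseDeriv k R).eval x = 0) : (X - C x) ^ M ∣ R := by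
  have h1 : X ^ M ∣ taylor x R := by
    rw [X_pow_dvd_iff]
    intro k hk
    rw [taylor_coeff]
    exact h k hk
  obtain ⟨S, hS⟩ := h1
  refine ⟨taylor (-x) S, ?_⟩
  have h2 := congrArg (taylor (-x)) hS
  rw [taylor_taylor, neg_add_cancel, taylor_zero, taylor_mul, taylor_pow, taylor_X] at h2
  rw [h2]
  congr 2
  rw [C_neg, sub_eq_add_neg]

/-- The dimension condition. -/
private theorem kum9_dim (ℓ d c J K : ℕ) (hl : 2 ≤ ℓ) (hd : 1 ≤ d) (hc : 1 ≤ c)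
    (hK : K = 2 * d * ℓ ^ 2) (hJ : 2 * K ≤ J) (hJc : J ≤ c) (hJQ : J * J ≤ ℓ * c + 1) :
    ∑ k ∈ Finset.range (ℓ * (J - K)), (J + (c - J) + (d - 1) * k) < ℓ * J * (c - J) := by
  obtain ⟨e, rfl⟩ : ∃ e, d = e + 1 := ⟨d - 1, by omega⟩
  obtain ⟨T, hT⟩ : ∃ T, J = T + K := ⟨J - K, by omega⟩
  obtain ⟨B, hB⟩ : ∃ B, c = J + B := ⟨c - J, by omega⟩
  rw [show J - K = T by omega, show c - J = B by omega, ← hB, Nat.add_sub_cancel]
  have hsum : ∀ M : ℕ, 2 * ∑ k ∈ Finset.range M, (c + e * k) ≤ 2 * M * c + e * M ^ 2 := by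
    intro M
    induction M with
    | zero => simp
    | succ M ih =>
      rw [Finset.sum_range_succ, mul_add]
      nlinarith
  have h1 := hsum (ℓ * T)
  have h2 : e * (ℓ * T) ^ 2 + 2 * ℓ * (J * J) < 2 * ℓ * K * c := by
    have hTJ : T ≤ J := by omega
    have h4 : (ℓ * T) ^ 2 ≤ ℓ ^ 2 * (ℓ * c + 1) := by
      rw [mul_pow]
      apply Nat.mul_le_mul_left
      rw [sq]
      exact (Nat.mul_le_mul hTJ hTJ).trans hJQ
    have h5 : e * (ℓ * T) ^ 2 ≤ e * (ℓ ^ 2 * (ℓ * c + 1)) := Nat.mul_le_mul_left _ h4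
    have h6 : 2 * ℓ ≤ ℓ ^ 2 := by rw [sq]; exact Nat.mul_le_mul_right _ hl
    have h7 : 2 * ℓ * (J * J) ≤ ℓ ^ 2 * (ℓ * c + 1) := Nat.mul_le_mul h6 hJQ
    have h8 : ℓ ^ 2 * (ℓ * c + 1) + e * (ℓ ^ 2 * (ℓ * c + 1)) = (e + 1) * ℓ ^ 2 * (ℓ * c + 1) := by
      ring
    have h9 : 1 ≤ ℓ * c := Nat.mul_pos (by omega) (by omega)
    have h10 : (e + 1) * ℓ ^ 2 * (ℓ * c + 1) ≤ (e + 1) * ℓ ^ 2 * (2 * (ℓ * c)) :=
      Nat.mul_le_mul_left _ (by omega)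
    have h11 : 2 * ℓ * K * c = (e + 1) * ℓ ^ 2 * (2 * (ℓ * c)) + (e + 1) * ℓ ^ 2 * (2 * (ℓ * c)) := by
      rw [hK]; ring
    have h12 : 0 < (e + 1) * ℓ ^ 2 * (2 * (ℓ * c)) := by
      have : 0 < ℓ := by omega
      positivity
    omega
  have h10 : 2 * (ℓ * J * B) + 2 * ℓ * (J * J) = 2 * (ℓ * T) * c + 2 * ℓ * K * c := by
    have : c = J + B := hB
    calc 2 * (ℓ * J * B) + 2 * ℓ * (J * J) = 2 * ℓ * J * (J + B) := by ring
      _ = 2 * ℓ * (T + K) * c := by rw [← hT, ← hB]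
      _ = 2 * (ℓ * T) * c + 2 * ℓ * K * c := by ring
  omega

theorem step_count (f : L[X]) (ℓ : ℕ) (hℓ : ℓ.Prime) (hd : ¬ ℓ ∣ f.natDegree) (c : ℕ)
    (hcard : Fintype.card L = ℓ * c + 1) (w : L) (hw : w ≠ 0) :
    (((Finset.univ : Finset L).filter fun x => (f.eval x) ^ c = w).card : ℝ) ≤
      (Fintype.card L : ℝ) / ℓ + 16 * f.natDegree * ℓ ^ 2 * Real.sqrt (Fintype.card L) := by
  obtain ⟨S, hS⟩ : ∃ S : Finset L, S = (Finset.univ : Finset L).filter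
    fun x => (f.eval x) ^ c = w := ⟨_, rfl⟩
  rw [← hS]
  obtain ⟨d, hdd⟩ : ∃ d, d = f.natDegree := ⟨_, rfl⟩
  have hp2 : 2 ≤ ℓ := hℓ.two_le
  have hd1 : 1 ≤ d := by
    rw [Nat.one_le_iff_ne_zero]
    rintro rfl
    exact hd (hdd ▸ dvd_zero ℓ)
  have hc1 : 1 ≤ c := by
    rw [Nat.one_le_iff_ne_zero]
    rintro rfl
    rw [mul_zero, zero_add] at hcard
    have h := Fintype.one_lt_card_iff_nontrivial.2 (inferInstance : Nontrivial L)
    omega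
  obtain ⟨K, hK⟩ : ∃ K, K = 2 * d * ℓ ^ 2 := ⟨_, rfl⟩
  obtain ⟨Q, hQ⟩ : ∃ Q, Q = Fintype.card L := ⟨_, rfl⟩
  obtain ⟨J, hJ⟩ : ∃ J, J = Nat.sqrt Q := ⟨_, rfl⟩
  have hJ1 : J * J ≤ Q := by rw [hJ]; exact Nat.sqrt_le Q
  have hJ2 : Q < (J + 1) * (J + 1) := by rw [hJ]; exact Nat.lt_succ_sqrt Q
  have hp2' : (2 : ℝ) ≤ ℓ := by exact_mod_cast hp2
  have hp0 : (0 : ℝ) < ℓ := by linarith
  rw [← hdd, ← hQ]
  obtain ⟨r, hr⟩ : ∃ r, r = Real.sqrt (Q : ℝ) := ⟨_, rfl⟩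
  have hr0 : 0 ≤ r := by rw [hr]; exact Real.sqrt_nonneg _
  have hrr : r * r = Q := by rw [hr]; exact Real.mul_self_sqrt (Nat.cast_nonneg _)
  rw [← hr]
  have hK' : (K : ℝ) = 2 * d * ℓ ^ 2 := by rw [hK]; push_cast; ring
  have hK0 : (0 : ℝ) ≤ K := Nat.cast_nonneg _
  have hrJ : r ≤ J + 1 := by
    have h1 : r * r < ((J : ℝ) + 1) * ((J : ℝ) + 1) := by
      rw [hrr]
      exact_mod_cast hJ2
    by_contra hcon
    push Not at hcon
    have h2 : (0 : ℝ) ≤ (J : ℝ) + 1 := by positivity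
    nlinarith
  have hgoal : (16 : ℝ) * d * ℓ ^ 2 * r = 8 * K * r := by rw [hK']; ring
  rw [hgoal]
  by_cases hJc : J < 2 * K
  · have h1 : (S.card : ℝ) ≤ Q := by
      rw [hQ]
      exact_mod_cast Finset.card_le_univ S
    have h2 : r ≤ 2 * K := by
      have : (J : ℝ) + 1 ≤ 2 * K := by exact_mod_cast hJc
      linarith
    have h3 : (Q : ℝ) ≤ 2 * K * r := by
      rw [← hrr]
      exact mul_le_mul_of_nonneg_right h2 hr0
    have h4 : (0 : ℝ) ≤ (Q : ℝ) / ℓ := by positivity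
    have h5 : 0 ≤ (K : ℝ) * r := mul_nonneg hK0 hr0
    nlinarith
  · push Not at hJc
    have hl0 : 0 < ℓ := by omega
    have hKpos : 0 < K := by rw [hK]; positivity
    have hpK : ℓ ≤ K := by
      rw [hK, sq, ← mul_assoc]
      exact Nat.le_mul_of_pos_left _ (by positivity)
    have hM : ℓ * (J - K) ≤ Fintype.card L := by
      rw [← hQ]
      calc ℓ * (J - K) ≤ J * J := Nat.mul_le_mul (by omega) (by omega)
        _ ≤ Q := hJ1
    have hJ1' : J * J ≤ ℓ * c + 1 := by rw [← hcard, ← hQ]; exact hJ1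
    have hJlec : J ≤ c := by
      by_contra hcon
      push Not at hcon
      have h1 : (2 * ℓ) * (c + 1) ≤ J * J := Nat.mul_le_mul (by omega) (by omega)
      have h2 : (2 * ℓ) * (c + 1) = 2 * (ℓ * c) + 2 * ℓ := by ring
      omega
    have hdim := kum9_dim ℓ d c J K hp2 hd1 hc1 hK hJc hJlec hJ1'
    rw [hdd] at hdim
    obtain ⟨R, hR0, hRd, hRx⟩ := exists_aux f ℓ hℓ hd c hcard w hw (ℓ * (J - K)) J (c - J) hM
      (by omega) hdim
    have h1 : S.card * (ℓ * (J - K)) ≤ R.natDegree := by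
      apply kum9_deg S _ R hR0
      intro x hx
      rw [hS, Finset.mem_filter] at hx
      exact kum9_dvd x _ R (hRx x hx.2)
    have h2 : S.card * (ℓ * (J - K)) ≤ Q * (J + d) := by
      refine (h1.trans hRd).trans ?_
      rw [hQ, hcard, ← hdd]
      have h3 : (ℓ - 1) * d ≤ ℓ * d := Nat.mul_le_mul_right _ (by omega)
      calc c * ((ℓ - 1) * d + J * ℓ) ≤ c * (ℓ * d + J * ℓ) := Nat.mul_le_mul_left _ (by omega)
        _ = (ℓ * c) * (J + d) := by ring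
        _ ≤ (ℓ * c + 1) * (J + d) := Nat.mul_le_mul_right _ (by omega)
    have h3 : (S.card : ℝ) * (ℓ * ((J : ℝ) - K)) ≤ r * r * (J + d) := by
      have h4 : ((S.card * (ℓ * (J - K)) : ℕ) : ℝ) ≤ ((Q * (J + d) : ℕ) : ℝ) := by exact_mod_cast h2
      rw [Nat.cast_mul, Nat.cast_mul, Nat.cast_sub (by omega)] at h4
      rw [hrr]
      push_cast at h4
      exact h4
    have hJc' : (2 : ℝ) * K ≤ J := by exact_mod_cast hJc
    have hK1 : (1 : ℝ) ≤ K := by exact_mod_cast hKpos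
    have hdK : (d : ℝ) ≤ K := by
      rw [hK']
      have h4 : (1 : ℝ) ≤ (ℓ : ℝ) ^ 2 := by nlinarith
      have hd0 : (0 : ℝ) ≤ d := Nat.cast_nonneg _
      nlinarith
    have hpos : 0 < (ℓ : ℝ) * ((J : ℝ) - K) := mul_pos hp0 (by linarith)
    -- the inequality after multiplication
    have h5 : r * (K + d) ≤ 8 * K * ℓ * ((J : ℝ) - K) := by
      have h6 : r * (K + d) ≤ (2 * J) * (2 * K) := by
        apply mul_le_mul _ _ (by positivity) (by linarith)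
        · linarith
        · linarith
      have h7 : (2 * (J : ℝ)) * (2 * K) ≤ 8 * K * 2 * ((J : ℝ) - K) := by nlinarith
      have h8 : 8 * (K : ℝ) * 2 * ((J : ℝ) - K) ≤ 8 * K * ℓ * ((J : ℝ) - K) := by
        apply mul_le_mul_of_nonneg_right _ (by linarith)
        nlinarith
      linarith
    have h9 : r * r * (J + d) ≤ ((Q : ℝ) / ℓ + 8 * K * r) * (ℓ * ((J : ℝ) - K)) := by
      have h10 : ((Q : ℝ) / ℓ + 8 * K * r) * (ℓ * ((J : ℝ) - K)) =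
          r * r * (J - K) + r * (8 * K * ℓ * ((J : ℝ) - K)) := by
        rw [← hrr]
        field_simp
      rw [h10]
      have h11 := mul_le_mul_of_nonneg_left h5 hr0
      nlinarith
    exact le_of_mul_le_mul_right (h3.trans h9) hpos

end Pool.Agent.Helper78.KUM
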