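import Mathlib

/-!
# KUM-07 StepNon: the auxiliary polynomial is not zero, and its degree (short, Mathlib only; compare `Pool/Agent/Helper78/AST/StepNon.lean`)

`D = f.natDegree`, `ℓ` prime, `ℓ ∤ D`, `J + B ≤ c`, `r i j` of degree `< B`. The term `r i j * f ^ (i c) * X ^ (j (ℓ c + 1))`, if `r i j ≠ 0`, has degree
`natDegree (r i j) + i c D + j (ℓ c + 1) = c (i D + j ℓ) + (j + natDegree (r i j))`, and `j + natDegree (r i j) ≤ J + B - 2 < c`. The numbers `i D + j ℓ` (`i < ℓ`) are distinct for distinct `(i, j)`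
(`ℓ ∣ (i - i') D` gives `i = i'`), so the degrees of the nonzero terms are distinct (division by `c`), and a sum of nonzero polynomials with distinct degrees is not `0`
(`Polynomial.degree_sum_eq_of_disjoint`, or compare the leading term).

`step_degree`: `c (i D + j ℓ) + (j + natDegree (r i j)) ≤ c ((ℓ - 1) D + (J - 1) ℓ) + c ≤ c ((ℓ - 1) D + J ℓ)`.
-/

set_option autoImplicit false

open Polynomial

namespace Pool.Agent.Helper78.KUM

variable {L : Type} [Field L]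

private theorem kum_sn_inj {ℓ d : ℕ} (hℓ : ℓ.Prime) (hd : ¬ ℓ ∣ d) {i i' j j' : ℕ} (hi : i < ℓ)
    (hi' : i' < ℓ) (h : d * i + ℓ * j = d * i' + ℓ * j') : i = i' ∧ j = j' := by
  have h1 : d * i ≡ d * i' [MOD ℓ] := by
    have h2 : d * i + ℓ * j ≡ d * i' + ℓ * j' [MOD ℓ] := by rw [h]
    have h3 : ℓ * j ≡ 0 [MOD ℓ] := (Nat.modEq_zero_iff_dvd).2 (dvd_mul_right ℓ j)
    have h4 : ℓ * j' ≡ 0 [MOD ℓ] := (Nat.modEq_zero_iff_dvd).2 (dvd_mul_right ℓ j')
    exact Nat.ModEq.add_right_cancel (h3.trans h4.symm) h2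
  have hc : Nat.gcd ℓ d = 1 := (Nat.Prime.coprime_iff_not_dvd hℓ).2 hd
  have h2 : i ≡ i' [MOD ℓ] := Nat.ModEq.cancel_left_of_coprime hc h1
  have h3 : i = i' := by
    have h4 : i % ℓ = i' % ℓ := h2
    rwa [Nat.mod_eq_of_lt hi, Nat.mod_eq_of_lt hi'] at h4
  subst h3
  have h5 : ℓ * j = ℓ * j' := by omega
  exact ⟨rfl, Nat.eq_of_mul_eq_mul_left hℓ.pos h5⟩

theorem step_nonzero (f : L[X]) (ℓ : ℕ) (hℓ : ℓ.Prime) (hd : ¬ ℓ ∣ f.natDegree) (c J B : ℕ) (hJB : J + B ≤ c)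
    (r : Fin ℓ → Fin J → L[X]) (hr : ∀ i j, (r i j).degree < (B : ℕ))
    (h : ∑ i : Fin ℓ, ∑ j : Fin J, r i j * f ^ ((i : ℕ) * c) * X ^ ((j : ℕ) * (ℓ * c + 1)) = 0) :
    ∀ i j, r i j = 0 := by
  classical
  have hd1 : 1 ≤ f.natDegree := by
    rcases Nat.eq_zero_or_pos f.natDegree with h0 | h0
    · rw [h0] at hd
      exact absurd (dvd_zero ℓ) hd
    · exact h0
  have hf0 : f ≠ 0 := by
    intro h0
    rw [h0, natDegree_zero] at hd1
    omega
  set w : Fin ℓ × Fin J → ℕ := fun x => f.natDegree * (x.1 : ℕ) + ℓ * (x.2 : ℕ) with hw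
  set t : Fin ℓ × Fin J → L[X] := fun x =>
    r x.1 x.2 * f ^ ((x.1 : ℕ) * c) * X ^ ((x.2 : ℕ) * (ℓ * c + 1)) with ht
  have hdeg : ∀ x : Fin ℓ × Fin J, r x.1 x.2 ≠ 0 →
      (t x).natDegree = c * w x + ((x.2 : ℕ) + (r x.1 x.2).natDegree) := by
    intro x hx
    have h1 : r x.1 x.2 * f ^ ((x.1 : ℕ) * c) ≠ 0 := mul_ne_zero hx (pow_ne_zero _ hf0)
    rw [ht]
    simp only
    rw [natDegree_mul h1 (pow_ne_zero _ X_ne_zero), natDegree_mul hx (pow_ne_zero _ hf0),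
      natDegree_pow, natDegree_pow, natDegree_X, hw]
    ring
  have hsmall : ∀ x : Fin ℓ × Fin J, r x.1 x.2 ≠ 0 →
      (x.2 : ℕ) + (r x.1 x.2).natDegree < c := by
    intro x hx
    have h1 : (r x.1 x.2).natDegree < B := (natDegree_lt_iff_degree_lt hx).2 (hr x.1 x.2)
    have h2 := x.2.2
    omega
  by_contra hcon
  push Not at hcon
  obtain ⟨i₁, j₁, hij⟩ := hcon
  set S : Finset (Fin ℓ × Fin J) := Finset.univ.filter fun x => r x.1 x.2 ≠ 0 with hS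
  have hSne : S.Nonempty := ⟨(i₁, j₁), by rw [hS, Finset.mem_filter]; exact ⟨Finset.mem_univ _, hij⟩⟩
  obtain ⟨x₀, hx₀, hmax⟩ := Finset.exists_max_image S w hSne
  have hx₀r : r x₀.1 x₀.2 ≠ 0 := by
    rw [hS, Finset.mem_filter] at hx₀
    exact hx₀.2
  have hsum : ∑ x : Fin ℓ × Fin J, t x = 0 := by
    rw [Fintype.sum_prod_type]
    exact h
  have hco : ∑ x : Fin ℓ × Fin J, (t x).coeff (t x₀).natDegree = 0 := by
    rw [← finsetSum_coeff, hsum, coeff_zero]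
  have hsingle : ∑ x : Fin ℓ × Fin J, (t x).coeff (t x₀).natDegree = (t x₀).coeff (t x₀).natDegree := by
    refine Finset.sum_eq_single x₀ (fun x _ hne => ?_) (fun hn => absurd (Finset.mem_univ _) hn)
    by_cases hx : r x.1 x.2 = 0
    · have h1 : t x = 0 := by
        rw [ht]
        simp only
        rw [hx, zero_mul, zero_mul]
      rw [h1, coeff_zero]
    · apply coeff_eq_zero_of_natDegree_lt
      rw [hdeg x hx, hdeg x₀ hx₀r]
      have h1 : w x ≤ w x₀ := hmax x (by rw [hS, Finset.mem_filter]; exact ⟨Finset.mem_univ _, hx⟩)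
      have h2 : w x ≠ w x₀ := by
        intro h3
        have h4 := kum_sn_inj hℓ hd x.1.2 x₀.1.2 h3
        exact hne (Prod.ext (Fin.ext h4.1) (Fin.ext h4.2))
      have h3 : w x + 1 ≤ w x₀ := by omega
      have h4 := hsmall x hx
      have h5 : c * (w x + 1) ≤ c * w x₀ := Nat.mul_le_mul_left _ h3
      rw [Nat.mul_add, mul_one] at h5
      omega
  rw [hsingle, coeff_natDegree, leadingCoeff_eq_zero] at hco
  have h1 : t x₀ ≠ 0 := mul_ne_zero (mul_ne_zero hx₀r (pow_ne_zero _ hf0))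
    (pow_ne_zero _ X_ne_zero)
  exact h1 hco

theorem step_degree (f : L[X]) (ℓ : ℕ) (hℓ : 1 ≤ ℓ) (c J B : ℕ) (hJB : J + B ≤ c)
    (r : Fin ℓ → Fin J → L[X]) (hr : ∀ i j, (r i j).degree < (B : ℕ)) :
    (∑ i : Fin ℓ, ∑ j : Fin J, r i j * f ^ ((i : ℕ) * c) * X ^ ((j : ℕ) * (ℓ * c + 1))).natDegree ≤
      c * ((ℓ - 1) * f.natDegree + J * ℓ) := by
  refine natDegree_sum_le_of_forall_le _ _ fun i _ => natDegree_sum_le_of_forall_le _ _ fun j _ => ?_
  have h1 : (r i j).natDegree ≤ B := by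
    by_cases hq : r i j = 0
    · rw [hq, natDegree_zero]
      exact Nat.zero_le _
    · exact ((natDegree_lt_iff_degree_lt hq).2 (hr i j)).le
  have h2 : (f ^ ((i : ℕ) * c)).natDegree ≤ ((i : ℕ) * c) * f.natDegree := natDegree_pow_le
  have h3 : ((X : L[X]) ^ ((j : ℕ) * (ℓ * c + 1))).natDegree ≤ (j : ℕ) * (ℓ * c + 1) :=
    natDegree_X_pow_le _
  refine (natDegree_mul_le_of_le (natDegree_mul_le_of_le h1 h2) h3).trans ?_
  have hi : (i : ℕ) ≤ ℓ - 1 := by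
    have := i.2
    omega
  have hj : (j : ℕ) + 1 ≤ J := j.2
  have h4 : ((i : ℕ) * c) * f.natDegree ≤ c * ((ℓ - 1) * f.natDegree) := by
    calc ((i : ℕ) * c) * f.natDegree = c * ((i : ℕ) * f.natDegree) := by ring
      _ ≤ c * ((ℓ - 1) * f.natDegree) :=
        Nat.mul_le_mul_left _ (Nat.mul_le_mul_right _ hi)
  have h5 : B + (j : ℕ) * (ℓ * c + 1) ≤ c * (J * ℓ) := by
    have h6 : c * (((j : ℕ) + 1) * ℓ) ≤ c * (J * ℓ) :=
      Nat.mul_le_mul_left _ (Nat.mul_le_mul_right _ hj)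
    have h7 : c ≤ ℓ * c := Nat.le_mul_of_pos_left c hℓ
    have h8 : c * (((j : ℕ) + 1) * ℓ) = (j : ℕ) * (ℓ * c) + ℓ * c := by ring
    have h9 : (j : ℕ) * (ℓ * c + 1) = (j : ℕ) * (ℓ * c) + (j : ℕ) := by ring
    omega
  have h10 : c * ((ℓ - 1) * f.natDegree + J * ℓ) =
      c * ((ℓ - 1) * f.natDegree) + c * (J * ℓ) := Nat.mul_add _ _ _
  rw [h10]
  omega

end Pool.Agent.Helper78.KUM
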