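import Pool.Agent.Helper78.KUM.HassePow
import Pool.Agent.Helper78.KUM.StepNon
import Pool.Agent.Helper31.AR.StepExist

/-!
# KUM-08 StepEx: existence of the auxiliary polynomial (Stepanov's method; adapt `Pool/Agent/Helper78/AST/StepEx.lean`)

`L` a finite field with `Q = ℓ c + 1` elements, `D = f.natDegree ≥ 1` prime to `ℓ`, `w ≠ 0` in `L`, `M ≤ Q`, `J + B ≤ c`,
`∑_{k < M} (J + B + (D - 1) k) < ℓ J B`.

Let `V` be the space of the families `r : Fin ℓ → Fin J → degreeLT L B`, of dimension `ℓ J B`. Choose `H i k` from `hasse_pow f _ (i c) k`. For `k < M` let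
`G_k r = ∑_{i, j} C (w ^ i) * X ^ j * ∑_{(u, v) ∈ antidiagonal k} f ^ u * hasseDeriv u (r i j) * H i v`, linear in `r`, of degree `< J + B + (D - 1) k`
(`j ≤ J - 1`; `f ^ u * hasseDeriv u r` has degree `≤ D u + B - 1 - u`, and is `0` if `u ≥ B`; `(D - 1) v`). All together a linear map from `V` to a space of dimension
`∑_{k < M} (J + B + (D - 1) k) < dim V`, so it has a nonzero kernel element `r` (`LinearMap.ker_ne_bot_of_finrank_lt`). Put
`R = ∑ r_ij f ^ (i c) X ^ (j Q)`; `R ≠ 0` by `step_nonzero`, degree by `step_degree`.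

Let `x : L` with `(f.eval x) ^ c = w` (so `f.eval x ≠ 0` because `w ≠ 0`, `c ≥ 1`) and `k < M ≤ Q`. `hasseDeriv k (s X ^ (j Q)) = (hasseDeriv k s) X ^ (j Q)` for `k < Q`
(as in `AST/StepEx.lean`: `Helper31.AR.se_hasse_X_pow_card` gives `hasseDeriv i (X ^ (j Q)) = 0` for `0 < i < Q`). So
`f ^ k * hasseDeriv k R = ∑_{i, j} X ^ (j Q) ∑_{(u, v)} (f ^ u * hasseDeriv u (r i j)) * (f ^ v * hasseDeriv v (f ^ (i c)))`
`= ∑_{i, j} X ^ (j Q) ∑_{(u, v)} (f ^ u * hasseDeriv u (r i j)) * f ^ (i c) * H i v`, whose value at `x` is that of `G_k r` (`x ^ Q = x`, `(f.eval x) ^ (i c) = w ^ i`), i.e. `0`.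
As `f.eval x ≠ 0`, `(hasseDeriv k R).eval x = 0`.
-/

set_option autoImplicit false

open Polynomial

namespace Pool.Agent.Helper78.KUM

/-- The map `G_k`. -/
private noncomputable def axG {L : Type} [Field L] (f : L[X]) (ℓ J B : ℕ) (w : L) (H : ℕ → ℕ → L[X]) (k : ℕ) :
    (Fin ℓ → Fin J → degreeLT L B) →ₗ[L] L[X] where
  toFun v := ∑ i : Fin ℓ, ∑ j : Fin J, (C (w ^ (i : ℕ)) * X ^ (j : ℕ)) *
    ∑ t ∈ Finset.HasAntidiagonal.antidiagonal k, f ^ t.1 * hasseDeriv t.1 (v i j : L[X]) * H i t.2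
  map_add' v w := by
    rw [← Finset.sum_add_distrib]
    refine Finset.sum_congr rfl fun i _ => ?_
    rw [← Finset.sum_add_distrib]
    refine Finset.sum_congr rfl fun j _ => ?_
    rw [← mul_add, ← Finset.sum_add_distrib]
    congr 1
    refine Finset.sum_congr rfl fun t _ => ?_
    simp only [Pi.add_apply, Submodule.coe_add, map_add]
    ring
  map_smul' a v := by
    simp only [RingHom.id_apply]
    rw [Finset.smul_sum]
    refine Finset.sum_congr rfl fun i _ => ?_
    rw [Finset.smul_sum]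
    refine Finset.sum_congr rfl fun j _ => ?_
    rw [← mul_smul_comm, Finset.smul_sum]
    congr 1
    refine Finset.sum_congr rfl fun t _ => ?_
    simp only [Pi.smul_apply, Submodule.coe_smul, map_smul]
    rw [mul_smul_comm, smul_mul_assoc]

private theorem ax_G_mem {L : Type} [Field L] (f : L[X]) (hf : 1 ≤ f.natDegree) {ℓ J B : ℕ} (w : L) (hB : 0 < B)
    (H : ℕ → ℕ → L[X])
    (hH : ∀ i k, (H i k).natDegree ≤ (f.natDegree - 1) * k) (k : ℕ) (v : Fin ℓ → Fin J → degreeLT L B) :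
    axG f ℓ J B w H k v ∈ degreeLT L (J + B + (f.natDegree - 1) * k) := by
  rw [mem_degreeLT]
  rcases Nat.eq_zero_or_pos J with hJ | hJ
  · subst hJ
    simp [axG]
    exact WithBot.bot_lt_coe _
  have h : (axG f ℓ J B w H k v).natDegree ≤ (J - 1) + (B - 1) + (f.natDegree - 1) * k := by
    change (∑ i : Fin ℓ, ∑ j : Fin J, (C (w ^ (i : ℕ)) * X ^ (j : ℕ)) *
      ∑ t ∈ Finset.HasAntidiagonal.antidiagonal k,
        f ^ t.1 * hasseDeriv t.1 (v i j : L[X]) * H i t.2).natDegree ≤ _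
    refine natDegree_sum_le_of_forall_le _ _ fun i _ => ?_
    refine natDegree_sum_le_of_forall_le _ _ fun j _ => ?_
    have hj := j.2
    have h1 : (C (w ^ (i : ℕ)) * X ^ (j : ℕ) : L[X]).natDegree ≤ J - 1 := by
      refine (natDegree_C_mul_X_pow_le _ _).trans ?_
      omega
    have h2 : (∑ t ∈ Finset.HasAntidiagonal.antidiagonal k,
        f ^ t.1 * hasseDeriv t.1 (v i j : L[X]) * H i t.2).natDegree ≤
        (B - 1) + (f.natDegree - 1) * k := by
      refine natDegree_sum_le_of_forall_le _ _ fun t ht => ?_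
      rw [Finset.HasAntidiagonal.mem_antidiagonal] at ht
      have h4 := Helper31.AR.se_natDegree_lt hB (v i j).2
      rcases lt_or_ge (v i j : L[X]).natDegree t.1 with hlt | hge
      · rw [hasseDeriv_eq_zero_of_lt_natDegree _ _ hlt]
        simp
      have h3 := natDegree_hasseDeriv_le (v i j : L[X]) t.1
      have h5 := hH i t.2
      have h6 : (f.natDegree - 1) * t.1 + (f.natDegree - 1) * t.2 = (f.natDegree - 1) * k := by
        rw [← Nat.mul_add, ht]
      have h7 := natDegree_mul_le (p := f ^ t.1 * hasseDeriv t.1 (v i j : L[X])) (q := H i t.2)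
      have h8 := natDegree_mul_le (p := f ^ t.1) (q := hasseDeriv t.1 (v i j : L[X]))
      have h9 : (f ^ t.1).natDegree ≤ (f.natDegree - 1) * t.1 + t.1 := by
        refine natDegree_pow_le.trans (le_of_eq ?_)
        obtain ⟨m, hm⟩ : ∃ m, f.natDegree = m + 1 := ⟨f.natDegree - 1, by omega⟩
        rw [hm]
        simp only [Nat.add_sub_cancel]
        ring
      omega
    have h3 := natDegree_mul_le (p := (C (w ^ (i : ℕ)) * X ^ (j : ℕ) : L[X]))
      (q := ∑ t ∈ Finset.HasAntidiagonal.antidiagonal k,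
        f ^ t.1 * hasseDeriv t.1 (v i j : L[X]) * H i t.2)
    omega
  refine lt_of_le_of_lt degree_le_natDegree ?_
  have : (axG f ℓ J B w H k v).natDegree < J + B + (f.natDegree - 1) * k := by omega
  exact_mod_cast this

private theorem ax_kernel {L : Type} [Field L] (f : L[X]) (hf : 1 ≤ f.natDegree) {ℓ J B M : ℕ} (w : L) (hB : 0 < B)
    (H : ℕ → ℕ → L[X])
    (hH : ∀ i k, (H i k).natDegree ≤ (f.natDegree - 1) * k)
    (hdim : ∑ k ∈ Finset.range M, (J + B + (f.natDegree - 1) * k) < ℓ * J * B) :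
    ∃ v : Fin ℓ → Fin J → degreeLT L B, v ≠ 0 ∧ ∀ k < M, axG f ℓ J B w H k v = 0 := by
  have hfd : ∀ n : ℕ, Module.Finite L (degreeLT L n) := fun n =>
    Module.Finite.equiv (degreeLTEquiv L n).symm
  set Φ : (Fin ℓ → Fin J → degreeLT L B) →ₗ[L]
      (∀ k : Fin M, degreeLT L (J + B + (f.natDegree - 1) * (k : ℕ))) :=
    LinearMap.pi fun k => LinearMap.codRestrict _ (axG f ℓ J B w H k)
      (fun v => ax_G_mem f hf w hB H hH k v) with hΦ
  have h1 : Module.finrank L (∀ k : Fin M, degreeLT L (J + B + (f.natDegree - 1) * (k : ℕ))) <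
      Module.finrank L (Fin ℓ → Fin J → degreeLT L B) := by
    rw [Module.finrank_pi_fintype, Module.finrank_pi_fintype]
    simp only [Module.finrank_pi_fintype, Helper31.AR.se_finrank]
    rw [Fin.sum_univ_eq_sum_range (fun k => J + B + (f.natDegree - 1) * k) M]
    simp only [Finset.sum_const, Finset.card_univ, Fintype.card_fin, smul_eq_mul]
    calc _ < ℓ * J * B := hdim
      _ = ℓ * (J * B) := by ring
  have h2 := LinearMap.ker_ne_bot_of_finrank_lt (f := Φ) h1
  obtain ⟨v, hv, hv0⟩ := Submodule.exists_mem_ne_zero_of_ne_bot h2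
  refine ⟨v, hv0, fun k hk => ?_⟩
  rw [LinearMap.mem_ker] at hv
  have h3 := congrFun hv ⟨k, hk⟩
  have h4 := congrArg Subtype.val h3
  simpa [hΦ] using h4

variable {L : Type} [Field L] [Fintype L]

theorem exists_aux (f : L[X]) (ℓ : ℕ) (hℓ : ℓ.Prime) (hd : ¬ ℓ ∣ f.natDegree) (c : ℕ)
    (hcard : Fintype.card L = ℓ * c + 1) (w : L) (hw : w ≠ 0) (M J B : ℕ) (hM : M ≤ Fintype.card L)
    (hJB : J + B ≤ c)
    (hdim : ∑ k ∈ Finset.range M, (J + B + (f.natDegree - 1) * k) < ℓ * J * B) :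
    ∃ R : L[X], R ≠ 0 ∧ R.natDegree ≤ c * ((ℓ - 1) * f.natDegree + J * ℓ) ∧
      ∀ x : L, (f.eval x) ^ c = w → ∀ k < M, (hasseDeriv k R).eval x = 0 := by
  classical
  have hf : 1 ≤ f.natDegree := by
    rcases Nat.eq_zero_or_pos f.natDegree with h | h
    · rw [h] at hd
      exact absurd (dvd_zero ℓ) hd
    · exact h
  have hB : 0 < B := by
    rcases Nat.eq_zero_or_pos B with h | h
    · rw [h, mul_zero] at hdim
      omega
    · exact h
  choose H hH1 hH2 using fun i k : ℕ => hasse_pow f hf (i * c) k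
  obtain ⟨v, hv0, hv⟩ := ax_kernel (ℓ := ℓ) (J := J) (B := B) (M := M) f hf w hB H hH1 hdim
  have hr : ∀ (i : Fin ℓ) (j : Fin J), ((v i j : degreeLT L B) : L[X]).degree < (B : ℕ) :=
    fun i j => mem_degreeLT.1 (v i j).2
  refine ⟨∑ i : Fin ℓ, ∑ j : Fin J,
    (v i j : L[X]) * f ^ ((i : ℕ) * c) * X ^ ((j : ℕ) * (ℓ * c + 1)), ?_, ?_, ?_⟩
  · intro h0
    have h1 := step_nonzero f ℓ hℓ hd c J B hJB (fun i j => (v i j : L[X])) hr h0
    apply hv0
    funext i j
    exact Subtype.ext (h1 i j)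
  · exact step_degree f ℓ hℓ.one_lt.le c J B hJB (fun i j => (v i j : L[X])) hr
  · intro x hx k hk
    have hkQ : k < Fintype.card L := by omega
    have hfx : f.eval x ≠ 0 := by
      intro h0
      rw [h0, zero_pow (by omega)] at hx
      exact hw hx.symm
    have h1 : (hasseDeriv k) (∑ i : Fin ℓ, ∑ j : Fin J,
        (v i j : L[X]) * f ^ ((i : ℕ) * c) * X ^ ((j : ℕ) * (ℓ * c + 1))) =
        ∑ i : Fin ℓ, ∑ j : Fin J,
          hasseDeriv k ((v i j : L[X]) * f ^ ((i : ℕ) * c)) * X ^ ((j : ℕ) * (ℓ * c + 1)) := by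
      rw [map_sum]
      refine Finset.sum_congr rfl fun i _ => ?_
      rw [map_sum]
      refine Finset.sum_congr rfl fun j _ => ?_
      rw [← hcard]
      exact Helper31.AR.se_hasse_mul _ _ _ hkQ
    have hval : ∀ i u : ℕ, (f.eval x) ^ u * eval x (hasseDeriv u (f ^ (i * c))) =
        w ^ i * eval x (H i u) := by
      intro i u
      have h2 := congrArg (eval x) (hH2 i u)
      have h4 : (f.eval x) ^ (i * c) = w ^ i := by
        rw [mul_comm i c, pow_mul, hx]
      rw [eval_mul, eval_mul, eval_pow, eval_pow, h4] at h2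
      exact h2
    have h2 := congrArg (eval x) (hv k hk)
    rw [eval_zero] at h2
    have h3 : (f.eval x) ^ k * eval x ((hasseDeriv k) (∑ i : Fin ℓ, ∑ j : Fin J,
        (v i j : L[X]) * f ^ ((i : ℕ) * c) * X ^ ((j : ℕ) * (ℓ * c + 1)))) = 0 := by
      rw [h1, ← h2]
      change _ = eval x (∑ i : Fin ℓ, ∑ j : Fin J, (C (w ^ (i : ℕ)) * X ^ (j : ℕ)) *
        ∑ t ∈ Finset.HasAntidiagonal.antidiagonal k,
          f ^ t.1 * hasseDeriv t.1 (v i j : L[X]) * H i t.2)
      simp only [eval_finsetSum, eval_mul, eval_pow, eval_X, eval_C]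
      rw [Finset.mul_sum]
      refine Finset.sum_congr rfl fun i _ => ?_
      rw [Finset.mul_sum]
      refine Finset.sum_congr rfl fun j _ => ?_
      have hxQ : x ^ ((j : ℕ) * (ℓ * c + 1)) = x ^ (j : ℕ) := by
        rw [← hcard, pow_mul, FiniteField.pow_card]
      rw [hxQ, hasseDeriv_mul, eval_finsetSum]
      rw [← mul_assoc, mul_comm _ (x ^ (j : ℕ)), mul_comm (w ^ (i : ℕ)), mul_assoc]
      congr 1
      rw [Finset.mul_sum, Finset.mul_sum]
      refine Finset.sum_congr rfl fun t ht => ?_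
      rw [Finset.HasAntidiagonal.mem_antidiagonal] at ht
      rw [eval_mul, ← ht, pow_add]
      have h5 := hval i t.2
      calc (f.eval x) ^ t.1 * (f.eval x) ^ t.2 *
            (eval x (hasseDeriv t.1 (v i j : L[X])) * eval x (hasseDeriv t.2 (f ^ ((i : ℕ) * c))))
          = (f.eval x) ^ t.1 * eval x (hasseDeriv t.1 (v i j : L[X])) *
            ((f.eval x) ^ t.2 * eval x (hasseDeriv t.2 (f ^ ((i : ℕ) * c)))) := by ring
        _ = w ^ (i : ℕ) * ((f.eval x) ^ t.1 * eval x (hasseDeriv t.1 (v i j : L[X])) *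
            eval x (H i t.2)) := by rw [h5]; ring
    exact (mul_eq_zero.1 h3).resolve_left (pow_ne_zero _ hfx)

end Pool.Agent.Helper78.KUM
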