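import Pool.Agent.Helper78.KUM.StepCount

/-!
# KUM-10 SumBound: character sums are `O(√Q)` (adapt `Pool/Agent/Helper78/AST/SumBound.lean`)

`Q = card L`, `ℓ` prime, `χ ^ ℓ = 1`, `χ ≠ 1`, `ℓ ∤ D = f.natDegree`. The order of `χ` is `ℓ`, so `ℓ ∣ Q - 1` (`χ ^ (Q - 1) = 1`), `Q = ℓ c + 1`.

Let `g` be a generator of `Lˣ` (`IsCyclic.exists_generator`), `ξ = χ g`: `ξ ^ ℓ = 1`, `ξ ≠ 1` (`χ ≠ 1`; `MulChar.eq_one_iff`/`MulChar.ext`). For `y = g ^ t` (`t : ℕ`): `χ y = ξ ^ t`, `y ^ c = (g ^ c) ^ t`, and `g ^ c` has order `ℓ`.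
For `t < ℓ` let `N_t` be the number of `x : L` with `(f.eval x) ^ c = (g ^ c) ^ t`. For `x` with `f.eval x ≠ 0` exactly one `t < ℓ` has this property and `χ (f.eval x) = ξ ^ t`. So
`∑_x χ (f.eval x) = ∑_{t < ℓ} N_t ξ ^ t` and `∑ N_t = Q - r`, `r ≤ D` the number of the roots of `f`.
`step_count`: `N_t ≤ Q / ℓ + B₀`, `B₀ = 16 D ℓ ^ 2 √Q`; so `N_t ≥ Q - D - (ℓ - 1) (Q / ℓ + B₀) = Q / ℓ - D - (ℓ - 1) B₀` and `|N_t - Q / ℓ| ≤ D + ℓ B₀ ≤ 2 ℓ B₀`.
`∑_{t < ℓ} ξ ^ t = 0` (`ξ ≠ 1`, `ξ ^ ℓ = 1`: `mul_geom_sum`), so `∑ N_t ξ ^ t = ∑ (N_t - Q / ℓ) ξ ^ t` has norm `≤ 2 ℓ ^ 2 B₀ = 32 D ℓ ^ 4 √Q`.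
-/

set_option autoImplicit false

open Polynomial

namespace Pool.Agent.Helper78.KUM

theorem sum_bound (L : Type) [Field L] [Fintype L] (ℓ : ℕ) (hℓ : ℓ.Prime) (χ : MulChar L ℂ) (hχ : χ ^ ℓ = 1)
    (hχ1 : χ ≠ 1) (f : L[X]) (hd : ¬ ℓ ∣ f.natDegree) :
    ‖∑ x : L, χ (f.eval x)‖ ≤ 32 * f.natDegree * ℓ ^ 4 * Real.sqrt (Fintype.card L) := by
  classical
  have hℓ1 : 1 ≤ ℓ := hℓ.one_le
  have hℓR : (1 : ℝ) ≤ ℓ := by exact_mod_cast hℓ1
  have hD : f.natDegree ≠ 0 := fun h => hd (h ▸ dvd_zero ℓ)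
  have hf0 : f ≠ 0 := fun h => hD (by rw [h, Polynomial.natDegree_zero])
  have : Fact ℓ.Prime := ⟨hℓ⟩
  have hord : orderOf χ = ℓ := orderOf_eq_prime hχ hχ1
  have hdvd : ℓ ∣ Fintype.card Lˣ := hord ▸ orderOf_dvd_of_pow_eq_one (MulChar.pow_card_eq_one χ)
  obtain ⟨c, hc⟩ := hdvd
  have hcard : Fintype.card L = ℓ * c + 1 := by
    rw [← hc, Fintype.card_units]
    have := Fintype.card_pos (α := L)
    omega
  have hc0 : c ≠ 0 := by
    intro h0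
    rw [h0, mul_zero] at hc
    exact absurd hc Fintype.card_ne_zero
  obtain ⟨g, hg⟩ := IsCyclic.exists_generator (α := Lˣ)
  have hog : orderOf g = ℓ * c := by
    rw [← hc]
    exact orderOf_eq_card_of_forall_mem_zpowers hg |>.trans (Nat.card_eq_fintype_card)
  have hoG : orderOf (g ^ c) = ℓ := by
    rw [orderOf_pow_of_dvd hc0 (hog ▸ dvd_mul_left c ℓ), hog,
      Nat.mul_div_cancel _ (Nat.pos_of_ne_zero hc0)]
  have hgen : ∀ y : Lˣ, ∃ s : ℕ, g ^ s = y := by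
    intro y
    have := hg y
    rwa [← mem_powers_iff_mem_zpowers, Submonoid.mem_powers_iff] at this
  obtain ⟨ξ, hξ⟩ : ∃ ξ : ℂ, ξ = χ (g : L) := ⟨_, rfl⟩
  have hξℓ : ξ ^ ℓ = 1 := by
    rw [hξ, ← MulChar.pow_apply_coe, hχ, MulChar.one_apply_coe]
  have hξ1 : ξ ≠ 1 := by
    intro h1
    apply hχ1
    apply MulChar.ext
    intro y
    obtain ⟨s, rfl⟩ := hgen y
    rw [MulChar.one_apply_coe, Units.val_pow_eq_pow_val, map_pow, ← hξ, h1, one_pow]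
  have hξn : ‖ξ‖ = 1 := Complex.norm_eq_one_of_pow_eq_one hξℓ hℓ.ne_zero
  -- the key identity
  have key : ∀ (η : ℂ), η ^ ℓ = 1 → ∀ s : ℕ,
      ∑ t ∈ Finset.range ℓ, (if ((g ^ s : Lˣ) : L) ^ c = ((g ^ c : Lˣ) : L) ^ t then η ^ t else 0) =
        η ^ s := by
    intro η hη s
    have h1 : ∀ t : ℕ, ((g ^ s : Lˣ) : L) ^ c = ((g ^ c : Lˣ) : L) ^ t ↔ s ≡ t [MOD ℓ] := by
      intro t
      rw [← Units.val_pow_eq_pow_val, ← Units.val_pow_eq_pow_val, Units.val_inj, ← pow_mul,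
        mul_comm s c, pow_mul, pow_eq_pow_iff_modEq, hoG]
    have h2 : η ^ s = η ^ (s % ℓ) := by
      conv_lhs => rw [← Nat.div_add_mod s ℓ, pow_add, pow_mul, hη, one_pow, one_mul]
    rw [Finset.sum_eq_single (s % ℓ)]
    · rw [if_pos ((h1 _).mpr (Nat.mod_modEq s ℓ).symm), h2]
    · intro t ht hne
      rw [if_neg]
      intro h3
      have h4 := (h1 t).mp h3
      have h5 : t % ℓ = t := Nat.mod_eq_of_lt (Finset.mem_range.mp ht)
      exact hne (by rw [← h5]; exact h4.symm)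
    · intro h3
      exact absurd (Finset.mem_range.mpr (Nat.mod_lt _ hℓ.pos)) h3
  obtain ⟨N, hN⟩ : ∃ N : ℕ → ℕ, N = fun t => ((Finset.univ : Finset L).filter
      fun x => (f.eval x) ^ c = ((g ^ c : Lˣ) : L) ^ t).card := ⟨_, rfl⟩
  have hNsum : ∀ η : ℂ, ∑ t ∈ Finset.range ℓ, (N t : ℂ) * η ^ t =
      ∑ x : L, ∑ t ∈ Finset.range ℓ,
        (if (f.eval x) ^ c = ((g ^ c : Lˣ) : L) ^ t then η ^ t else 0) := by
    intro η
    rw [Finset.sum_comm]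
    refine Finset.sum_congr rfl fun t _ => ?_
    rw [hN, ← Finset.sum_filter, Finset.sum_const, nsmul_eq_mul]
  have hzero : ∀ (η : ℂ) (x : L), f.eval x = 0 → ∑ t ∈ Finset.range ℓ,
        (if (f.eval x) ^ c = ((g ^ c : Lˣ) : L) ^ t then η ^ t else 0) = 0 := by
    intro η x hx
    refine Finset.sum_eq_zero fun t _ => ?_
    rw [if_neg]
    rw [hx, zero_pow hc0, ← Units.val_pow_eq_pow_val]
    exact (Units.ne_zero _).symm
  have hchi : ∑ x : L, χ (f.eval x) = ∑ t ∈ Finset.range ℓ, (N t : ℂ) * ξ ^ t := by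
    rw [hNsum]
    refine Finset.sum_congr rfl fun x _ => ?_
    by_cases hx : f.eval x = 0
    · rw [hzero ξ x hx, hx, MulChar.map_zero]
    · obtain ⟨s, hs⟩ := hgen (Units.mk0 _ hx)
      have h1 : f.eval x = ((g ^ s : Lˣ) : L) := by rw [hs, Units.val_mk0]
      rw [h1, key ξ hξℓ s, Units.val_pow_eq_pow_val, map_pow, ← hξ]
  have hr : (((Finset.univ : Finset L).filter fun x => f.eval x = 0).card : ℝ) ≤ f.natDegree := by
    have h1 : (Finset.univ : Finset L).filter (fun x => f.eval x = 0) ⊆ f.roots.toFinset := by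
      intro x hx
      rw [Multiset.mem_toFinset, Polynomial.mem_roots hf0]
      exact (Finset.mem_filter.mp hx).2
    have h2 := (Finset.card_le_card h1).trans ((Multiset.toFinset_card_le _).trans
      (Polynomial.card_roots' f))
    exact_mod_cast h2
  have htot : ∑ t ∈ Finset.range ℓ, (N t : ℝ) = (Fintype.card L : ℝ) -
      ((Finset.univ : Finset L).filter fun x => f.eval x = 0).card := by
    have h1 : ∑ t ∈ Finset.range ℓ, (N t : ℂ) * (1 : ℂ) ^ t = (Fintype.card L : ℂ) -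
        ((Finset.univ : Finset L).filter fun x => f.eval x = 0).card := by
      rw [hNsum]
      have h2 : ∀ x : L, ∑ t ∈ Finset.range ℓ,
          (if (f.eval x) ^ c = ((g ^ c : Lˣ) : L) ^ t then (1 : ℂ) ^ t else 0) =
            1 - (if f.eval x = 0 then 1 else 0) := by
        intro x
        by_cases hx : f.eval x = 0
        · rw [hzero 1 x hx, if_pos hx, sub_self]
        · obtain ⟨s, hs⟩ := hgen (Units.mk0 _ hx)
          have h1 : f.eval x = ((g ^ s : Lˣ) : L) := by rw [hs, Units.val_mk0]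
          rw [if_neg hx, h1, key 1 (one_pow ℓ) s, one_pow, sub_zero]
      rw [Finset.sum_congr rfl fun x _ => h2 x, Finset.sum_sub_distrib, Finset.sum_const,
        Finset.card_univ, nsmul_eq_mul, mul_one, ← Finset.sum_filter, Finset.sum_const, nsmul_eq_mul,
        mul_one]
    simp only [one_pow, mul_one] at h1
    exact_mod_cast h1
  obtain ⟨Q, hQ⟩ : ∃ Q : ℝ, Q = (Fintype.card L : ℝ) := ⟨_, rfl⟩
  obtain ⟨B, hB⟩ : ∃ B : ℝ, B = 16 * f.natDegree * ℓ ^ 2 * Real.sqrt (Fintype.card L) := ⟨_, rfl⟩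
  have hQ1 : 1 ≤ Q := by
    rw [hQ]
    exact_mod_cast Fintype.card_pos (α := L)
  have hsq : 1 ≤ Real.sqrt (Fintype.card L) := by
    rw [← hQ]
    exact Real.one_le_sqrt.mpr hQ1
  have hDB : (f.natDegree : ℝ) ≤ B := by
    rw [hB]
    have h1 : (0 : ℝ) ≤ f.natDegree := Nat.cast_nonneg _
    have h2 : (1 : ℝ) ≤ 16 * ℓ ^ 2 * Real.sqrt (Fintype.card L) := by
      have h3 : (1 : ℝ) ≤ ℓ ^ 2 := one_le_pow₀ hℓR
      nlinarith
    calc (f.natDegree : ℝ) = f.natDegree * 1 := (mul_one _).symm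
      _ ≤ f.natDegree * (16 * ℓ ^ 2 * Real.sqrt (Fintype.card L)) :=
          mul_le_mul_of_nonneg_left h2 h1
      _ = _ := by ring
  have hB0 : 0 ≤ B := (Nat.cast_nonneg _).trans hDB
  have hup : ∀ t, (N t : ℝ) ≤ Q / ℓ + B := by
    intro t
    have h1 := step_count f ℓ hℓ hd c hcard (((g ^ c : Lˣ) : L) ^ t)
      (pow_ne_zero _ (Units.ne_zero _))
    rw [hN, hQ, hB]
    exact h1
  have hlow : ∀ t ∈ Finset.range ℓ, Q / ℓ - f.natDegree - ℓ * B ≤ (N t : ℝ) := by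
    intro t ht
    have h1 : ∑ b ∈ (Finset.range ℓ).erase t, (N b : ℝ) ≤ ((ℓ : ℝ) - 1) * (Q / ℓ + B) := by
      calc ∑ b ∈ (Finset.range ℓ).erase t, (N b : ℝ) ≤
            ∑ b ∈ (Finset.range ℓ).erase t, (Q / ℓ + B) :=
            Finset.sum_le_sum (fun b _ => hup b)
        _ = ((ℓ : ℝ) - 1) * (Q / ℓ + B) := by
            rw [Finset.sum_const, Finset.card_erase_of_mem ht, Finset.card_range,
              nsmul_eq_mul, Nat.cast_sub hℓ1, Nat.cast_one]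
    have h2 := Finset.add_sum_erase (Finset.range ℓ) (fun b => (N b : ℝ)) ht
    rw [htot] at h2
    have h3 : ((ℓ : ℝ) - 1) * (Q / ℓ + B) = Q - Q / ℓ + (ℓ - 1) * B := by
      field_simp
    rw [h3] at h1
    rw [← hQ] at h2
    nlinarith
  have habs : ∀ t ∈ Finset.range ℓ, |(N t : ℝ) - Q / ℓ| ≤ 2 * ℓ * B := by
    intro t ht
    rw [abs_le]
    constructor
    · have := hlow t ht
      nlinarith
    · have := hup t
      nlinarith
  have hgeom : ∑ t ∈ Finset.range ℓ, ξ ^ t = 0 := by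
    have h1 := mul_geom_sum ξ ℓ
    rw [hξℓ, sub_self] at h1
    rcases mul_eq_zero.mp h1 with h2 | h2
    · exact absurd (sub_eq_zero.mp h2) hξ1
    · exact h2
  have h3 : ∑ t ∈ Finset.range ℓ, (N t : ℂ) * ξ ^ t =
      ∑ t ∈ Finset.range ℓ, (((N t : ℝ) - Q / ℓ : ℝ) : ℂ) * ξ ^ t := by
    have h4 : ∑ t ∈ Finset.range ℓ, (((N t : ℝ) - Q / ℓ : ℝ) : ℂ) * ξ ^ t =
        ∑ t ∈ Finset.range ℓ, (N t : ℂ) * ξ ^ t -
          ((Q / ℓ : ℝ) : ℂ) * ∑ t ∈ Finset.range ℓ, ξ ^ t := by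
      rw [Finset.mul_sum, ← Finset.sum_sub_distrib]
      refine Finset.sum_congr rfl fun a _ => ?_
      push_cast
      ring
    rw [h4, hgeom, mul_zero, sub_zero]
  rw [hchi, h3]
  calc ‖∑ t ∈ Finset.range ℓ, (((N t : ℝ) - Q / ℓ : ℝ) : ℂ) * ξ ^ t‖ ≤
      ∑ t ∈ Finset.range ℓ, ‖(((N t : ℝ) - Q / ℓ : ℝ) : ℂ) * ξ ^ t‖ := norm_sum_le _ _
    _ ≤ ∑ t ∈ Finset.range ℓ, 2 * (ℓ : ℝ) * B := by
        refine Finset.sum_le_sum fun t ht => ?_
        rw [norm_mul, norm_pow, hξn, one_pow, mul_one, Complex.norm_real, Real.norm_eq_abs]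
        exact habs t ht
    _ = 32 * f.natDegree * ℓ ^ 4 * Real.sqrt (Fintype.card L) := by
        rw [Finset.sum_const, Finset.card_range, nsmul_eq_mul, hB]
        ring

end Pool.Agent.Helper78.KUM
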