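import Pool.Agent.Helper78.KUM.LDefs

/-!
# KUM-04 TopNorm: the absolute value of the Jacobi sum

`ω i = ∏_{j ≠ i} (a i - a j) ≠ 0`, `χ ^ e i ≠ 1` for all `i`, `χ ^ (∑ e i) ≠ 1`. Claim: `‖jac χ a e‖ ^ 2 = q ^ n`, `q = card F`.

Let `ψ` be a primitive additive character of `F` with values in `ℂ` (`AddChar.FiniteField.primitiveChar_to_Complex`, or `AddChar.exists_..`), `χ_i = χ ^ e i`, `E = ∑ e i`. For `s : F` let
`S s = ∑_{u : ∑ u_i / ω_i = s} ∏ χ_i(u_i)`, so `S 1 = jac χ a e` (`χ u ^ e i = (χ ^ e i) u` since `e i ≠ 0`: `MulChar.pow_apply'`).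
1. `∏_i ∑_{x : F} χ_i(x) ψ(x / ω_i) = ∑_u ∏ χ_i(u_i) ψ(∑ u_i / ω_i) = ∑_s ψ(s) S s` (`Finset.prod_univ_sum`, `Fintype.piFinset`, `AddChar.map_sum_eq_prod`-like).
2. `S 0 = 0`: for `t ≠ 0` the substitution `u ↦ t u` gives `S 0 = χ ^ E (t) S 0`; choose `t` with `χ ^ E (t) ≠ 1`. For `s ≠ 0`: `u ↦ s u` gives `S s = (χ ^ E)(s) S 1`.
3. So the product in 1 is `S 1 * gaussSum (χ ^ E) ψ`. Each factor on the left is `χ_i(ω_i) gaussSum χ_i ψ` (substitution `x = ω_i y`; or `gaussSum_mulShift`), and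
   `‖gaussSum η ψ‖ ^ 2 = q` for every nontrivial `η` and primitive `ψ` (`gaussSum_mul_gaussSum_eq_card : gaussSum χ ψ * gaussSum χ⁻¹ ψ⁻¹ = card`; the second factor is the complex conjugate of the
   first: `MulChar.star_apply`-like `star (χ a) = χ⁻¹ a`, `AddChar.map_neg_eq_conj`; compare `Pool/Agent/Helper78/AST/Gauss.lean`). `‖χ_i(ω_i)‖ = 1`.
   So `q ^ (n + 1) = ‖S 1‖ ^ 2 * q`.
-/

set_option autoImplicit false

open Polynomial

namespace Pool.Agent.Helper78.KUM

private theorem norm_gauss {F : Type} [Field F] [Fintype F] (η : MulChar F ℂ) (hη : η ≠ 1)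
    (ψ : AddChar F ℂ) (hψ : ψ.IsPrimitive) : ‖gaussSum η ψ‖ ^ 2 = (Fintype.card F : ℝ) := by
  have h1 : (starRingEnd ℂ) (gaussSum η ψ) = gaussSum η⁻¹ ψ⁻¹ := by
    unfold gaussSum
    rw [map_sum]
    refine Finset.sum_congr rfl fun x _ => ?_
    rw [map_mul, AddChar.inv_apply, AddChar.map_neg_eq_conj]
    congr 1
    exact MulChar.star_apply' η x
  have hc : ((‖gaussSum η ψ‖ ^ 2 : ℝ) : ℂ) = ((Fintype.card F : ℝ) : ℂ) := by
    rw [← Complex.normSq_eq_norm_sq, ← Complex.mul_conj, h1,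
      gaussSum_mul_gaussSum_eq_card hη hψ]
    simp
  exact_mod_cast hc

open Classical in
private noncomputable def SS {F : Type} [Field F] [Fintype F] {n : ℕ} (η : Fin (n + 1) → MulChar F ℂ)
    (w : Fin (n + 1) → F) (s : F) : ℂ :=
  ∑ u ∈ (Finset.univ : Finset (Fin (n + 1) → F)).filter (fun u => ∑ i, w i * u i = s),
    ∏ i, η i (u i)

private theorem SS_mul {F : Type} [Field F] [Fintype F] {n : ℕ} (η : Fin (n + 1) → MulChar F ℂ)
    (w : Fin (n + 1) → F) (t s : F) (ht : t ≠ 0) :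
    SS η w (t * s) = (∏ i, η i t) * SS η w s := by
  classical
  unfold SS
  rw [Finset.mul_sum]
  symm
  refine Finset.sum_bij' (fun u _ => fun i => t * u i) (fun u _ => fun i => t⁻¹ * u i) ?_ ?_ ?_ ?_ ?_
  · intro u hu
    rw [Finset.mem_filter] at hu ⊢
    refine ⟨Finset.mem_univ _, ?_⟩
    rw [← hu.2, Finset.mul_sum]
    exact Finset.sum_congr rfl fun i _ => by ring
  · intro u hu
    rw [Finset.mem_filter] at hu ⊢
    refine ⟨Finset.mem_univ _, ?_⟩
    have h1 : ∑ i, w i * (t⁻¹ * u i) = t⁻¹ * ∑ i, w i * u i := by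
      rw [Finset.mul_sum]
      exact Finset.sum_congr rfl fun i _ => by ring
    rw [h1, hu.2, inv_mul_cancel_left₀ ht]
  · intro u _
    funext i
    change t⁻¹ * (t * u i) = u i
    rw [inv_mul_cancel_left₀ ht]
  · intro u _
    funext i
    change t * (t⁻¹ * u i) = u i
    rw [mul_inv_cancel_left₀ ht]
  · intro u _
    rw [← Finset.prod_mul_distrib]
    exact Finset.prod_congr rfl fun i _ => by rw [map_mul]

private theorem ac_sum {F : Type} [Field F] {ι : Type} (ψ : AddChar F ℂ) (s : Finset ι) (f : ι → F) :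
    ψ (∑ i ∈ s, f i) = ∏ i ∈ s, ψ (f i) := by
  classical
  induction s using Finset.induction_on with
  | empty => rw [Finset.sum_empty, Finset.prod_empty, AddChar.map_zero_eq_one]
  | insert a s ha ih => rw [Finset.sum_insert ha, Finset.prod_insert ha, AddChar.map_add_eq_mul, ih]

private theorem main_id {F : Type} [Field F] [Fintype F] {n : ℕ} (η : Fin (n + 1) → MulChar F ℂ)
    (w : Fin (n + 1) → F) (ψ : AddChar F ℂ) :
    ∏ i, gaussSum (η i) (ψ.mulShift (w i)) = ∑ s, SS η w s * ψ s := by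
  classical
  unfold gaussSum
  rw [Finset.prod_univ_sum, Fintype.piFinset_univ]
  have h1 : ∀ u : Fin (n + 1) → F, ∏ i, (η i (u i) * (ψ.mulShift (w i)) (u i)) =
      (∏ i, η i (u i)) * ψ (∑ i, w i * u i) := by
    intro u
    rw [Finset.prod_mul_distrib, ac_sum]
    rfl
  rw [Finset.sum_congr rfl fun u _ => h1 u,
    ← Finset.sum_fiberwise Finset.univ (fun u : Fin (n + 1) → F => ∑ i, w i * u i)]
  refine Finset.sum_congr rfl fun s _ => ?_
  unfold SS
  rw [Finset.sum_mul]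
  refine Finset.sum_congr rfl fun u hu => ?_
  rw [(Finset.mem_filter.1 hu).2]

theorem norm_jac {F : Type} [Field F] [Fintype F] (χ : MulChar F ℂ) (n : ℕ) (a : Fin (n + 1) → F)
    (ha : Function.Injective a) (e : Fin (n + 1) → ℕ) (h : ∀ i, χ ^ e i ≠ 1) (hs : χ ^ (∑ i, e i) ≠ 1) :
    ‖jac χ a e‖ ^ 2 = (Fintype.card F : ℝ) ^ n := by
  classical
  have he : ∀ i, e i ≠ 0 := fun i hi => h i (by rw [hi, pow_zero])
  have hE : ∑ i, e i ≠ 0 := fun hi => hs (by rw [hi, pow_zero])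
  set η : Fin (n + 1) → MulChar F ℂ := fun i => χ ^ e i with hη
  set w : Fin (n + 1) → F := fun i => (∏ j ∈ Finset.univ.erase i, (a i - a j))⁻¹ with hw
  have hw0 : ∀ i, w i ≠ 0 := fun i => inv_ne_zero (Finset.prod_ne_zero_iff.2 fun j hj => by
    rw [sub_ne_zero]
    exact fun hij => (Finset.ne_of_mem_erase hj) (ha hij).symm)
  obtain ⟨ψ, hψ1⟩ := AddChar.exists_apply_ne_zero.2 (one_ne_zero (α := F))
  have hψ : ψ.IsPrimitive := AddChar.IsPrimitive.of_ne_one fun h0 => hψ1 (by rw [h0]; rfl)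
  have hS1 : SS η w 1 = jac χ a e := by
    unfold SS jac
    refine Finset.sum_congr ?_ fun u _ => Finset.prod_congr rfl fun i _ => ?_
    · ext u
      simp only [Finset.mem_filter, Finset.mem_univ, true_and]
      have : ∑ i, w i * u i = ∑ i, u i / ∏ j ∈ Finset.univ.erase i, (a i - a j) :=
        Finset.sum_congr rfl fun i _ => by rw [div_eq_mul_inv, mul_comm]
      rw [this]
    · exact MulChar.pow_apply' χ (he i) (u i)
  have hprod : ∀ t : F, t ≠ 0 → ∏ i, η i t = (χ ^ (∑ i, e i)) t := by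
    intro t _
    rw [MulChar.pow_apply' χ hE, ← Finset.prod_pow_eq_pow_sum]
    exact Finset.prod_congr rfl fun i _ => MulChar.pow_apply' χ (he i) t
  have hS0 : SS η w 0 = 0 := by
    obtain ⟨t, ht⟩ := MulChar.ne_one_iff.1 hs
    have h1 := SS_mul η w (t : F) 0 t.ne_zero
    rw [mul_zero, hprod _ t.ne_zero] at h1
    have h2 : (1 - (χ ^ (∑ i, e i)) (t : F)) * SS η w 0 = 0 := by
      rw [sub_mul, one_mul, ← h1, sub_self]
    rcases mul_eq_zero.1 h2 with h3 | h3
    · exact absurd (sub_eq_zero.1 h3).symm ht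
    · exact h3
  have hSs : ∀ s : F, SS η w s = (χ ^ (∑ i, e i)) s * SS η w 1 := by
    intro s
    by_cases hs0 : s = 0
    · subst hs0
      rw [hS0, MulChar.map_zero, zero_mul]
    · have h1 := SS_mul η w s 1 hs0
      rwa [mul_one, hprod s hs0] at h1
  have hid := main_id η w ψ
  have h2 : ∑ s, SS η w s * ψ s = SS η w 1 * gaussSum (χ ^ (∑ i, e i)) ψ := by
    unfold gaussSum
    rw [Finset.mul_sum]
    exact Finset.sum_congr rfl fun s _ => by rw [hSs s]; ring
  rw [h2, hS1] at hid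
  have h3 : ∀ i, ‖gaussSum (η i) (ψ.mulShift (w i))‖ ^ 2 = (Fintype.card F : ℝ) := fun i =>
    norm_gauss _ (h i) _ (AddChar.IsPrimitive.of_ne_one (hψ (hw0 i)))
  have h4 : ‖∏ i, gaussSum (η i) (ψ.mulShift (w i))‖ ^ 2 = (Fintype.card F : ℝ) ^ (n + 1) := by
    rw [norm_prod, ← Finset.prod_pow, Finset.prod_congr rfl fun i _ => h3 i, Finset.prod_const,
      Finset.card_univ, Fintype.card_fin]
  rw [hid, norm_mul, mul_pow, norm_gauss _ hs ψ hψ, pow_succ] at h4
  have hq : (Fintype.card F : ℝ) ≠ 0 := Nat.cast_ne_zero.2 Fintype.card_ne_zero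
  exact mul_right_cancel₀ hq h4

end Pool.Agent.Helper78.KUM
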