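import Pool.Agent.Helper78.KUM.Eigen
import Pool.Agent.Helper78.KUM.TopNorm
import Pool.Agent.Helper78.KUM.SumBound
import Pool.Agent.Helper78.AST.RootBound

/-!
# KUM-11 Weil: the Riemann hypothesis for `y ^ ℓ = ∏ (x - a_i) ^ e_i` (assembly; adapt `Pool/Agent/Helper78/AST/Weil.lean`)

`χ ^ ℓ = 1`, `ℓ` prime, `χ (-1) = 1`, `χ ^ e i ≠ 1` for all `i`, `χ ^ (∑ e i) ≠ 1`, `IsEigen χ a e b`, `q = card F`. Claim: `‖b i‖ ^ 2 = q`.

1. `‖∑ b_i ^ k‖ ≤ C (√q) ^ k` for `k ≥ 1`: apply `IsEigen` to an extension `E` of degree `k` (`FiniteField.Extension F p k` as in `AST/Weil.lean`; `card E = q ^ k`). The function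
   `x ↦ χ (Algebra.norm F x)` on `E` is a multiplicative character `χ_E` (`MulChar E ℂ` with `toMonoidHom = χ.toMonoidHom.comp (Algebra.norm F)`; `0` for nonunits), `χ_E ^ ℓ = 1`, and `χ_E ≠ 1` because `χ ≠ 1` (from `hs`)
   and the norm is surjective on units (`FiniteField.unitsMap_norm_surjective`-like). The sum is `∑_x χ_E (f.eval x)` with `f = ∏ (X - C (algebraMap F E (a i))) ^ e i`, of degree `∑ e i`, not divisible by `ℓ`
   (else `χ ^ (∑ e i) = 1`). `sum_bound`, `root_bound`: `‖b i‖ ≤ √q`.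
2. `‖∏ b_i‖ ^ 2 = q ^ n` by `prod_eigen` and `norm_jac`.
3. Each `‖b_i‖ ^ 2 ≤ q` and `∏ ‖b_i‖ ^ 2 = q ^ n`, so all are equal to `q`.
-/

set_option autoImplicit false

open Polynomial

namespace Pool.Agent.Helper78.KUM

private theorem weil_sqrt_pow (x : ℝ) (hx : 0 ≤ x) (k : ℕ) :
    Real.sqrt (x ^ k) = Real.sqrt x ^ k := by
  rw [← Real.sqrt_sq (pow_nonneg (Real.sqrt_nonneg x) k), ← pow_mul, mul_comm, pow_mul,
    Real.sq_sqrt hx]

/-- the character `χ ∘ N` -/
private noncomputable def chN {F : Type} [Field F] (χ : MulChar F ℂ) (E : Type) [Field E]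
    [Algebra F E] [Module.Finite F E] : MulChar E ℂ where
  toMonoidHom := χ.toMonoidHom.comp (Algebra.norm F)
  map_nonunit' := by
    intro x hx
    have hx0 : x = 0 := by
      by_contra h
      exact hx (isUnit_iff_ne_zero.2 h)
    subst hx0
    change χ (Algebra.norm F (0 : E)) = 0
    rw [Algebra.norm_zero]
    exact MulChar.map_zero χ

private theorem chN_apply {F : Type} [Field F] (χ : MulChar F ℂ) (E : Type) [Field E]
    [Algebra F E] [Module.Finite F E] (x : E) : chN χ E x = χ (Algebra.norm F x) := rfl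

private theorem chN_pow {F : Type} [Field F] (χ : MulChar F ℂ) (E : Type) [Field E]
    [Algebra F E] [Module.Finite F E] {ℓ : ℕ} (hχ : χ ^ ℓ = 1) : chN χ E ^ ℓ = 1 := by
  refine MulChar.ext fun x => ?_
  rw [MulChar.pow_apply_coe, MulChar.one_apply_coe, chN_apply]
  have hu : IsUnit (Algebra.norm F (x : E)) := x.isUnit.map (Algebra.norm F)
  obtain ⟨y, hy⟩ := hu
  rw [← hy, ← MulChar.pow_apply_coe, hχ, MulChar.one_apply_coe]

private theorem chN_ne {F : Type} [Field F] (χ : MulChar F ℂ) (E : Type) [Field E] [Finite E]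
    [Algebra F E] [Module.Finite F E] (hχ : χ ≠ 1) : chN χ E ≠ 1 := by
  intro h
  apply hχ
  refine MulChar.ext fun y => ?_
  obtain ⟨x, hx⟩ := FiniteField.unitsMap_norm_surjective F E y
  have h1 : Algebra.norm F (x : E) = (y : F) := congrArg Units.val hx
  rw [← h1, ← chN_apply, h, MulChar.one_apply_coe]
  exact (MulChar.one_apply_coe (R := F) (R' := ℂ) (x.map (Algebra.norm F))).symm

private theorem weil_le {F : Type} [Field F] [Fintype F] (ℓ : ℕ) (hℓ : ℓ.Prime) (χ : MulChar F ℂ)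
    (hχ : χ ^ ℓ = 1) (n : ℕ) (a : Fin (n + 1) → F) (e : Fin (n + 1) → ℕ)
    (hs : χ ^ (∑ i, e i) ≠ 1) (b : Fin n → ℂ) (hb : IsEigen χ a e b) (i : Fin n) :
    ‖b i‖ ≤ Real.sqrt (Fintype.card F : ℝ) := by
  obtain ⟨p, hp⟩ := CharP.exists F
  have hpp : Fact p.Prime := ⟨CharP.char_is_prime F p⟩
  have hq : (0 : ℝ) < (Fintype.card F : ℝ) := by exact_mod_cast Fintype.card_pos
  have hχ1 : χ ≠ 1 := fun h0 => hs (by rw [h0, one_pow])
  have hd : ¬ ℓ ∣ ∑ i, e i := by
    rintro ⟨c, hc⟩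
    exact hs (by rw [hc, pow_mul, hχ, one_pow])
  refine AST.root_bound b (32 * ((∑ i, e i : ℕ) : ℝ) * (ℓ : ℝ) ^ 4) _ (Real.sqrt_pos.2 hq)
    (fun k hk => ?_) i
  have : NeZero k := ⟨by omega⟩
  letI : Fintype (FiniteField.Extension F p k) := Fintype.ofFinite _
  have h1 := hb (FiniteField.Extension F p k)
  rw [FiniteField.finrank_extension] at h1
  have h2 : ‖∑ j, b j ^ k‖ = ‖charSum χ a e (FiniteField.Extension F p k)‖ := by
    rw [h1, norm_neg]
  rw [h2]
  have hdeg : (∏ i, (X - C (algebraMap F (FiniteField.Extension F p k) (a i))) ^ e i :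
      (FiniteField.Extension F p k)[X]).natDegree = ∑ i, e i := by
    rw [Polynomial.natDegree_prod_of_monic _ _ fun i _ => (monic_X_sub_C _).pow _]
    refine Finset.sum_congr rfl fun i _ => ?_
    rw [(monic_X_sub_C _).natDegree_pow, natDegree_X_sub_C, mul_one]
  have h3 := sum_bound (FiniteField.Extension F p k) ℓ hℓ (chN χ (FiniteField.Extension F p k))
    (chN_pow χ _ hχ) (chN_ne χ _ hχ1)
    (∏ i, (X - C (algebraMap F (FiniteField.Extension F p k) (a i))) ^ e i)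
    (by rw [hdeg]; exact hd)
  rw [hdeg] at h3
  have hcard : (Fintype.card (FiniteField.Extension F p k) : ℝ) = (Fintype.card F : ℝ) ^ k := by
    rw [Fintype.card_eq_nat_card, FiniteField.natCard_extension, Fintype.card_eq_nat_card]
    push_cast
    rfl
  rw [hcard, weil_sqrt_pow _ hq.le] at h3
  refine le_trans (le_of_eq ?_) h3
  unfold charSum
  congr 1
  refine Finset.sum_congr rfl fun x _ => ?_
  rw [chN_apply, Polynomial.eval_prod]
  simp only [Polynomial.eval_pow, Polynomial.eval_sub, Polynomial.eval_X, Polynomial.eval_C]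

theorem weil {F : Type} [Field F] [Fintype F] (ℓ : ℕ) (hℓ : ℓ.Prime) (χ : MulChar F ℂ) (hχ : χ ^ ℓ = 1)
    (h1 : χ (-1) = 1) (n : ℕ) (a : Fin (n + 1) → F) (ha : Function.Injective a) (e : Fin (n + 1) → ℕ)
    (h : ∀ i, χ ^ e i ≠ 1) (hs : χ ^ (∑ i, e i) ≠ 1) (b : Fin n → ℂ) (hb : IsEigen χ a e b) (i : Fin n) :
    ‖b i‖ ^ 2 = (Fintype.card F : ℝ) := by
  have hq : (0 : ℝ) < (Fintype.card F : ℝ) := by exact_mod_cast Fintype.card_pos
  have hprod : ∏ j, ‖b j‖ ^ 2 = (Fintype.card F : ℝ) ^ n := by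
    rw [Finset.prod_pow, ← norm_prod, prod_eigen χ h1 n a ha e 0 (h 0) b hb, norm_mul, norm_pow,
      norm_neg, norm_one, one_pow, one_mul, norm_jac χ n a ha e h hs]
  have hle : ∀ j, ‖b j‖ ^ 2 ≤ (Fintype.card F : ℝ) := fun j => by
    have h2 := weil_le ℓ hℓ χ hχ n a e hs b hb j
    calc ‖b j‖ ^ 2 ≤ Real.sqrt (Fintype.card F : ℝ) ^ 2 := pow_le_pow_left₀ (norm_nonneg _) h2 2
      _ = (Fintype.card F : ℝ) := Real.sq_sqrt hq.le
  have hpos : ∀ j, 0 < ‖b j‖ ^ 2 := by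
    intro j
    by_contra hc
    have h0 : ‖b j‖ ^ 2 = 0 := le_antisymm (not_lt.1 hc) (by positivity)
    have h1 : ∏ j, ‖b j‖ ^ 2 = 0 := Finset.prod_eq_zero (Finset.mem_univ j) h0
    rw [hprod] at h1
    exact absurd h1 (pow_pos hq n).ne'
  by_contra hne
  have hlt : ‖b i‖ ^ 2 < (Fintype.card F : ℝ) := lt_of_le_of_ne (hle i) hne
  have h3 := Finset.prod_lt_prod (s := Finset.univ) (f := fun j => ‖b j‖ ^ 2)
    (g := fun _ : Fin n => (Fintype.card F : ℝ)) (fun j _ => hpos j) (fun j _ => hle j)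
    ⟨i, Finset.mem_univ i, hlt⟩
  rw [hprod, Finset.prod_const, Finset.card_univ, Fintype.card_fin] at h3
  exact lt_irrefl _ h3

end Pool.Agent.Helper78.KUM
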